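import Pool.Agent.Lib.MP_db622c_co.PU.Tab

/-!
# PU-Chk: the conditions `KB` and `WD` for tables, as loops over numbers
-/

namespace Pool.Agent.Lib.MP_db622c_co.PU

open Pool.Agent.Lib.MP_db622c_co Pool.Agent.Lib.MP_db622c_co.CB Pool.Agent.Lib.MP_db622c_co.PT

namespace Chk

/-- entry of a table on numbers -/
def T1n (r N a : ℕ) : ℕ := (N >>> (r * a)) % 2 ^ r

/-- entry of a table on pairs of numbers -/
def T2n (r N a b : ℕ) : ℕ := (N >>> (r * (2 ^ r * a + b))) % 2 ^ r

/-- entry of a Boolean table on pairs of numbers -/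
def B2n (r N a b : ℕ) : Bool := (N >>> (2 ^ r * a + b)) % 2 == 1

/-- `p` holds below `n` -/
def all1 (n : ℕ) (p : ℕ → Bool) : Bool := (List.range n).all p

/-- `p` holds for all pairs below `n` -/
def all2 (n : ℕ) (p : ℕ → ℕ → Bool) : Bool :=
  (List.range n).all fun a => (List.range n).all fun b => p a b

/-- `p` holds for all triples below `n` -/
def all3 (n : ℕ) (p : ℕ → ℕ → ℕ → Bool) : Bool :=
  (List.range n).all fun a => (List.range n).all fun b => (List.range n).all fun c => p a b c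

theorem all1_spec {n : ℕ} {p : ℕ → Bool} (h : all1 n p = true) {a : ℕ} (ha : a < n) :
    p a = true := by
  rw [all1, List.all_eq_true] at h
  exact h a (List.mem_range.2 ha)

theorem all2_spec {n : ℕ} {p : ℕ → ℕ → Bool} (h : all2 n p = true) {a b : ℕ} (ha : a < n)
    (hb : b < n) : p a b = true := by
  rw [all2, List.all_eq_true] at h
  have h1 := h a (List.mem_range.2 ha)
  rw [List.all_eq_true] at h1
  exact h1 b (List.mem_range.2 hb)

theorem all3_spec {n : ℕ} {p : ℕ → ℕ → ℕ → Bool} (h : all3 n p = true) {a b c : ℕ} (ha : a < n)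
    (hb : b < n) (hc : c < n) : p a b c = true := by
  rw [all3, List.all_eq_true] at h
  have h1 := h a (List.mem_range.2 ha)
  rw [List.all_eq_true] at h1
  have h2 := h1 b (List.mem_range.2 hb)
  rw [List.all_eq_true] at h2
  exact h2 c (List.mem_range.2 hc)

/-- the conditions for the signs and the bijections -/
structure CKB (r nS nT nν nβ : ℕ) : Prop where
  addk : all3 (2 ^ r) (fun a b c =>
    B2n r nS (a ^^^ b) c == (B2n r nS a c ^^ B2n r nS b c)) = true
  addy : all3 (2 ^ r) (fun a b c =>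
    B2n r nS a (b ^^^ c) == (B2n r nS a b ^^ B2n r nS a c)) = true
  Tadd : all2 (2 ^ r) (fun a b => decide (T1n r nT (a ^^^ b) = T1n r nT a ^^^ T1n r nT b)) = true
  Tz : all1 (2 ^ r) (fun a => decide (T1n r nT a = 0 → a = 0)) = true
  Uz : all1 (2 ^ r) (fun a => decide (a ^^^ T1n r nT a = 0 → a = 0)) = true
  ν0 : T1n r nν 0 = 0
  νi : all2 (2 ^ r) (fun a b => decide (T1n r nν a = T1n r nν b → a = b)) = true
  νs : all1 (2 ^ r) (fun a => decide (B2n r nS (T1n r nν a) a = false)) = true
  β0 : T1n r nβ 0 = 0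
  βi : all2 (2 ^ r) (fun a b => decide (T1n r nβ a = T1n r nβ b → a = b)) = true
  βs : all1 (2 ^ r) (fun a => decide (a ≠ 0 → B2n r nS (T1n r nβ a) a = true)) = true

theorem kb_of {r nS nT nν nβ : ℕ} (H : CKB r nS nT nν nβ) :
    KB (s2 r nS) (t1 r nT) (t1 r nν) (t1 r nβ) where
  two y := Fin.ext (Nat.xor_self y.val)
  sign k y := by
    unfold s2
    cases b2 r nS k y <;> simp
  addk k k' y := by
    have h := all3_spec H.addk k.isLt k'.isLt y.isLt
    have h1 : b2 r nS (k + k') y = (b2 r nS k y ^^ b2 r nS k' y) := eq_of_beq h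
    unfold s2
    rw [h1]
    cases b2 r nS k y <;> cases b2 r nS k' y <;> simp
  addy k y y' := by
    have h := all3_spec H.addy k.isLt y.isLt y'.isLt
    have h1 : b2 r nS k (y + y') = (b2 r nS k y ^^ b2 r nS k y') := eq_of_beq h
    unfold s2
    rw [h1]
    cases b2 r nS k y <;> cases b2 r nS k y' <;> simp
  Tadd y y' := Fin.ext (of_decide_eq_true (all2_spec H.Tadd y.isLt y'.isLt))
  Tz y h := Fin.ext (of_decide_eq_true (all1_spec H.Tz y.isLt) (congrArg Fin.val h))
  Uz y h := Fin.ext (of_decide_eq_true (all1_spec H.Uz y.isLt) (congrArg Fin.val h))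
  ν0 := Fin.ext H.ν0
  νi y y' h := Fin.ext (of_decide_eq_true (all2_spec H.νi y.isLt y'.isLt) (congrArg Fin.val h))
  νs y := by
    have h : b2 r nS (t1 r nν y) y = false := of_decide_eq_true (all1_spec H.νs y.isLt)
    unfold s2
    rw [h]
    simp
  β0 := Fin.ext H.β0
  βi y y' h := Fin.ext (of_decide_eq_true (all2_spec H.βi y.isLt y'.isLt) (congrArg Fin.val h))
  βs y hy := by
    have h : b2 r nS (t1 r nβ y) y = true :=
      of_decide_eq_true (all1_spec H.βs y.isLt) (fun e => hy (Fin.ext e))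
    unfold s2
    rw [h]
    simp

/-- the conditions for the one-factorization -/
structure COF (r nr : ℕ) : Prop where
  ne : all2 (2 ^ r) (fun a b => decide (a ≠ b → T2n r nr a b ≠ 0)) = true
  symm : all2 (2 ^ r) (fun a b => decide (T2n r nr a b = T2n r nr b a)) = true
  inj : all3 (2 ^ r) (fun a b c =>
    decide (b ≠ a → c ≠ a → T2n r nr a b = T2n r nr a c → b = c)) = true

theorem of_of {r nr : ℕ} (H : COF r nr) : IsOF (t2 r nr) where
  ne a b h e := of_decide_eq_true (all2_spec H.ne a.isLt b.isLt) (fun e' => h (Fin.ext e'))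
    (congrArg Fin.val e)
  symm a b := Fin.ext (of_decide_eq_true (all2_spec H.symm a.isLt b.isLt))
  inj a b c h1 h2 h := Fin.ext (of_decide_eq_true (all3_spec H.inj a.isLt b.isLt c.isLt)
    (fun e => h1 (Fin.ext e)) (fun e => h2 (Fin.ext e)) (congrArg Fin.val h))

/-- the conditions for the rounds -/
structure CWD (r nr ub ut wb wt : ℕ) : Prop where
  rof : COF r nr
  ror : all3 (2 ^ r) (fun d a b => decide (d ≠ 0 → T2n r nr a (a ^^^ d) = T2n r nr b (b ^^^ d) →
    b = a ∨ b = a ^^^ d)) = true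
  us : all2 (2 ^ r) (fun a b => decide (T2n r ut a b = T2n r ut b a ∧
    B2n r ub a b = B2n r ub b a)) = true
  ui : all3 (2 ^ r) (fun a b c => decide (b ≠ a → c ≠ a → T2n r ut a b = T2n r ut a c →
    B2n r ub a b = B2n r ub a c → b = c)) = true
  uo : all3 (2 ^ r) (fun d a b => decide (d ≠ 0 → T2n r ut a (a ^^^ d) = T2n r ut b (b ^^^ d) →
    b = a ∨ b = a ^^^ d)) = true
  u1 : all3 (2 ^ r) (fun a b c => decide (T2n r ut a b = T2n r wt a c → b ≠ a →
    B2n r wb a c = true → B2n r ub a b = true → False)) = true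
  u2 : all3 (2 ^ r) (fun a b c => decide (T2n r ut a b = T2n r wt c a → b ≠ a →
    B2n r wb c a = true → B2n r ub a b = false → False)) = true
  wr : all3 (2 ^ r) (fun a b c => decide (T2n r wt a b = T2n r wt a c →
    B2n r wb a b = B2n r wb a c → b = c)) = true
  wc : all3 (2 ^ r) (fun a b c => decide (T2n r wt a c = T2n r wt b c →
    B2n r wb a c = B2n r wb b c → a = b)) = true
  wi : all3 (2 ^ r) (fun a b c => decide (T2n r wt a b = T2n r wt c a →
    B2n r wb a b = false → B2n r wb a b = B2n r wb c a → False)) = true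
  w0 : all2 (2 ^ r) (fun a b => decide (T2n r wt a b = 0 → B2n r wb a b = false → False)) = true
  wo : all3 (2 ^ r) (fun d a b => decide (T2n r wt a (a ^^^ d) = T2n r wt b (b ^^^ d) →
    B2n r wb a (a ^^^ d) = B2n r wb b (b ^^^ d) → a = b)) = true

theorem wd_of {r nr ub ut wb wt : ℕ} (H : CWD r nr ub ut wb wt) :
    WD (t2 r nr) (fun y y' => (b2 r ub y y', t2 r ut y y'))
      (fun y y' => (b2 r wb y y', t2 r wt y y')) where
  rof := of_of H.rof
  ror y v d hd h := by
    rcases of_decide_eq_true (all3_spec H.ror d.isLt y.isLt v.isLt) (fun e => hd (Fin.ext e))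
      (congrArg Fin.val h) with h1 | h1
    · exact Or.inl (Fin.ext h1)
    · exact Or.inr (Fin.ext h1)
  us y y' := by
    have h := of_decide_eq_true (all2_spec H.us y.isLt y'.isLt)
    exact Prod.ext h.2 (Fin.ext h.1)
  ui y y' y'' h1 h2 h := Fin.ext (of_decide_eq_true (all3_spec H.ui y.isLt y'.isLt y''.isLt)
    (fun e => h1 (Fin.ext e)) (fun e => h2 (Fin.ext e))
    (congrArg (fun t => Fin.val (Prod.snd t)) h) (congrArg Prod.fst h))
  uo y v d hd h := by
    rcases of_decide_eq_true (all3_spec H.uo d.isLt y.isLt v.isLt) (fun e => hd (Fin.ext e))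
      (congrArg Fin.val h) with h1 | h1
    · exact Or.inl (Fin.ext h1)
    · exact Or.inr (Fin.ext h1)
  u1 y y' y'' h1 h2 h := of_decide_eq_true (all3_spec H.u1 y.isLt y'.isLt y''.isLt)
    (congrArg (fun t => Fin.val (Prod.snd t)) h) (fun e => h1 (Fin.ext e)) h2
    (congrArg Prod.fst h)
  u2 y y' y'' h1 h2 h := of_decide_eq_true (all3_spec H.u2 y.isLt y'.isLt y''.isLt)
    (congrArg (fun t => Fin.val (Prod.snd t)) h) (fun e => h1 (Fin.ext e)) h2
    (congrArg Prod.fst h)
  wr y y' y'' h := Fin.ext (of_decide_eq_true (all3_spec H.wr y.isLt y'.isLt y''.isLt)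
    (congrArg (fun t => Fin.val (Prod.snd t)) h) (congrArg Prod.fst h))
  wc y y' y'' h := Fin.ext (of_decide_eq_true (all3_spec H.wc y.isLt y'.isLt y''.isLt)
    (congrArg (fun t => Fin.val (Prod.snd t)) h) (congrArg Prod.fst h))
  wi y y' y'' h1 h := of_decide_eq_true (all3_spec H.wi y.isLt y'.isLt y''.isLt)
    (congrArg (fun t => Fin.val (Prod.snd t)) h) h1 (congrArg Prod.fst h)
  w0 y y' h := of_decide_eq_true (all2_spec H.w0 y.isLt y'.isLt)
    (congrArg (fun t => Fin.val (Prod.snd t)) h) (congrArg Prod.fst h)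
  wo y v d h := Fin.ext (of_decide_eq_true (all3_spec H.wo d.isLt y.isLt v.isLt)
    (congrArg (fun t => Fin.val (Prod.snd t)) h) (congrArg Prod.fst h))

end Chk

end Pool.Agent.Lib.MP_db622c_co.PU
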