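import Pool.Agent.Lib.MP_db622c_co.PT.Prod
import Pool.Agent.Lib.MP_db622c_co.PT.TIEnd

/-!
# MP_db622c_co, board PU: factors of order `2 ^ r * (q + 1)`: definitions

Points: `Option V × K`, `V` a group (later a field with `q` elements), `K` an elementary abelian
2-group of order `2 ^ r` (`KB.two`).  For two points `(x, y)`, `(x', y')` the sum `y + y'` is the
level of the pair.

* `G0`: the boards; `RU`: the rounds; `SqK`: Latin squares; `MZ`, `H2`, `OZ`: the parts of a left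
  factor.
* `KB`, `WD`, `LD`, `ND`: finite conditions on the data on `K`.
-/

namespace Pool.Agent.Lib.MP_db622c_co.PU

open Pool.Agent.Lib.MP_db622c_co Pool.Agent.Lib.MP_db622c_co.CB Pool.Agent.Lib.MP_db622c_co.PT

section boards

variable {J A K : Type} [DecidableEq J] [Zero A] [AddCommGroup K]

/-- the boards -/
def G0 (g : J → J → A) (ν β : K → K) (p q : J × K) : A × K :=
  if p.1 = q.1 then (0, β (p.2 + q.2)) else (g p.1 q.1, ν (p.2 + q.2))

/-- the second one-factorization of a left factor -/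
def H2 (g : J → J → A) (T : K → K) (RN : K → K → K) (o : J → J → Bool) (p q : J × K) : A × K :=
  if p.1 = q.1 then (0, RN p.2 q.2)
  else (g p.1 q.1, if o p.1 q.1 then p.2 + T (p.2 + q.2) else q.2 + T (p.2 + q.2))

/-- the tournament of a left factor -/
def OZ (ON : K → K → Bool) (o : K → J → J → Bool) (p q : J × K) : Bool :=
  if p.1 = q.1 then ON p.2 q.2 else o (p.2 + q.2) p.1 q.1

end boards

section squares

variable {V K : Type} [AddCommGroup V] [DecidableEq V] [AddCommGroup K]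

/-- the rounds: the one-factorization `ofV x1 τ` of `V ∪ {∞}` with the orientation `ω` is blown up;
the pairs with the difference `D` are special -/
def RU (x1 : V) (τ : V → V) (ω : V → Bool) (D : V) (T : K → K) (rK : K → K → K)
    (u w : K → K → Bool × K) : Option V × K → Option V × K → Rw V × K
  | (none, y), (none, y') => (none, rK y y')
  | (none, y), (some x', y') => (some (x' - x1), y' + T (y + y'))
  | (some x, y), (none, y') => (some (x - x1), y + T (y + y'))
  | (some x, y), (some x', y') =>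
    if x = x' then (some (x - (if (u y y').1 then τ D else τ D + D)), (u y y').2)
    else if x' - x = D then (if (w y y').1 then some (x - τ D) else none, (w y y').2)
    else if x - x' = D then (if (w y' y).1 then some (x' - τ D) else none, (w y' y).2)
    else (some (x - τ (x' - x)), if ω (x' - x) then y + T (y + y') else y' + T (y + y'))

/-- a square: on the level `δ` the main entries are `(x - z δ d, L)`, `d = x' - x`, the pairs with
`d = e δ` have the entry `∞` -/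
def SqK (Dx : K → K → V) (Dk Li L Ls Lt : K → K → K) (z : K → V → V) (e s t : K → V) :
    Option V × K → Option V × K → Rw V × K
  | (none, y), (none, y') => (none, Li y y')
  | (none, y), (some x', y') => (some (x' - t (y + y')), Lt y y')
  | (some x, y), (none, y') => (some (x - s (y + y')), Ls y y')
  | (some x, y), (some x', y') =>
    if x = x' then (some (x - Dx y y'), Dk y y')
    else if x' - x = e (y + y') then (none, L y y')
    else (some (x - z (y + y') (x' - x)), L y y')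

/-- the square of a left factor -/
def MZ (N : K → K → K) (ν : K → K) (z : K → V → V) (e s t : K → V) (p q : Option V × K) :
    Rw V × K :=
  if p.1 = q.1 then (p.1, N p.2 q.2)
  else (sqV (z (p.2 + q.2)) (e (p.2 + q.2)) (s (p.2 + q.2)) (t (p.2 + q.2)) p.1 q.1,
    ν (p.2 + q.2))

/-- conditions for the rows of `SqK` -/
structure RowOK (Dx : K → K → V) (Dk Li L Ls Lt : K → K → K) (z : K → V → V) (e s t : K → V) :
    Prop where
  li : ∀ y y' y'', Li y y' = Li y y'' → y' = y''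
  lt : ∀ y y' y'', Lt y y' = Lt y y'' → y' = y''
  l : ∀ y y' y'', L y y' = L y y'' → y' = y''
  zi : ∀ δ d d', d ≠ 0 → d' ≠ 0 → d ≠ e δ → d' ≠ e δ → z δ d = z δ d' → d = d'
  dd : ∀ y y' y'', Dx y y' = Dx y y'' → Dk y y' = Dk y y'' → y' = y''
  ss : ∀ y y' y'', s (y + y') = s (y + y'') → Ls y y' = Ls y y'' → y' = y''
  ds : ∀ y y' y'', Dx y y' = s (y + y'') → Dk y y' ≠ Ls y y''
  md : ∀ y y' y'' d, d ≠ 0 → d ≠ e (y + y') → L y y' = Dk y y'' → z (y + y') d ≠ Dx y y''
  ms : ∀ y y' y'' d, d ≠ 0 → d ≠ e (y + y') → L y y' = Ls y y'' →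
    z (y + y') d ≠ s (y + y'')

/-- conditions for `SqK` to be orthogonal to `G0 (ofV x0 τ) ν β` -/
structure GMOK (x0 : V) (τ : V → V) (Dx : K → K → V) (Dk Li L Ls Lt : K → K → K)
    (z : K → V → V) (e s t : K → V) : Prop where
  li : ∀ δ y v, Li y (y + δ) = Li v (v + δ) → y = v
  l : ∀ δ y v, L y (y + δ) = L v (v + δ) → y = v
  ls : ∀ δ y v, Ls y (y + δ) = Ls v (v + δ) → y = v
  lt : ∀ δ y v, Lt y (y + δ) = Lt v (v + δ) → y = v
  dx : ∀ δ y v, Dx y (y + δ) = Dx v (v + δ)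
  dk : ∀ δ y v, Dk y (y + δ) = Dk v (v + δ) → y = v
  mg : ∀ δ, MgOK x0 τ (z δ) (e δ) (s δ) (t δ)

end squares

section K

variable {K : Type} [AddCommGroup K]

/-- signs and bijections of `K` -/
structure KB (sK : K → K → ℤ) (T ν β : K → K) : Prop where
  two : ∀ y : K, y + y = 0
  sign : ∀ k y, sK k y = 1 ∨ sK k y = -1
  addk : ∀ k k' y, sK (k + k') y = sK k y * sK k' y
  addy : ∀ k y y', sK k (y + y') = sK k y * sK k y'
  Tadd : ∀ y y', T (y + y') = T y + T y'
  Tz : ∀ y, T y = 0 → y = 0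
  Uz : ∀ y, y + T y = 0 → y = 0
  ν0 : ν 0 = 0
  νi : ∀ y y', ν y = ν y' → y = y'
  νs : ∀ y, sK (ν y) y = 1
  β0 : β 0 = 0
  βi : ∀ y y', β y = β y' → y = y'
  βs : ∀ y, y ≠ 0 → sK (β y) y = -1

/-- conditions for the rounds -/
structure WD (rK : K → K → K) (u w : K → K → Bool × K) : Prop where
  rof : IsOF rK
  ror : ∀ y v δ, δ ≠ 0 → rK y (y + δ) = rK v (v + δ) → v = y ∨ v = y + δ
  us : ∀ y y', u y y' = u y' y
  ui : ∀ y y' y'', y' ≠ y → y'' ≠ y → u y y' = u y y'' → y' = y''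
  uo : ∀ y v δ, δ ≠ 0 → (u y (y + δ)).2 = (u v (v + δ)).2 → v = y ∨ v = y + δ
  u1 : ∀ y y' y'', y' ≠ y → (w y y'').1 = true → u y y' ≠ (true, (w y y'').2)
  u2 : ∀ y y' y'', y' ≠ y → (w y'' y).1 = true → u y y' ≠ (false, (w y'' y).2)
  wr : ∀ y y' y'', w y y' = w y y'' → y' = y''
  wc : ∀ y y' y'', w y y'' = w y' y'' → y = y'
  wi : ∀ y y' y'', (w y y').1 = false → w y y' ≠ w y'' y
  w0 : ∀ y y', w y y' ≠ (false, 0)
  wo : ∀ y v δ, w y (y + δ) = w v (v + δ) → y = v

/-- conditions for the square orthogonal to the boards: `C` is a set of codes for elements of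
`V` -/
structure LD {C : Type} [Zero C] (T : K → K) (a b m z0 s t : K → C) (l0 ls lt : K → K) :
    Prop where
  ab : ∀ δ, a δ ≠ b δ
  a0 : ∀ δ, a δ ≠ 0
  b0 : ∀ δ, b δ ≠ 0
  m0 : ∀ δ, m δ ≠ 0
  st : ∀ δ, (s δ = 0 ∧ t δ = m δ) ∨ (s δ = m δ ∧ t δ = 0)
  r1 : ∀ δ δ', T δ = l0 δ' → z0 δ' = 0 ∨ z0 δ' = a δ
  r2 : ∀ δ δ', T δ = ls δ' → s δ' = 0 ∨ s δ' = a δ
  r3 : ∀ δ δ', z0 δ = z0 δ' → l0 δ = l0 δ' → δ = δ'
  r4 : ∀ δ δ', s δ = s δ' → ls δ = ls δ' → δ = δ'
  r5 : ∀ δ δ', z0 δ = s δ' → l0 δ ≠ ls δ'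
  c1 : ∀ δ δ', δ + T δ = l0 δ' + δ' → z0 δ' = 0 ∨ z0 δ' = b δ
  c2 : ∀ δ δ', δ + T δ = lt δ' + δ' → t δ' = 0 ∨ t δ' = b δ
  c3 : ∀ δ δ', z0 δ = z0 δ' → l0 δ + δ = l0 δ' + δ' → δ = δ'
  c4 : ∀ δ δ', t δ = t δ' → lt δ + δ = lt δ' + δ' → δ = δ'
  c5 : ∀ δ δ', z0 δ = t δ' → l0 δ + δ ≠ lt δ' + δ'
  lti : ∀ δ δ', lt δ = lt δ' → δ = δ'
  lsi : ∀ δ δ', ls δ + δ = ls δ' + δ' → δ = δ'

/-- conditions for the diagonal blocks of a left factor -/
structure ND (sK : K → K → ℤ) (N RN : K → K → K) (ON : K → K → Bool) : Prop where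
  lat : IsLat N
  non : ∀ y y', sK (N y y') y = sK (N y y') y'
  diag : ∀ y y', N y y = N y' y' → y = y'
  rof : IsOF RN
  anti : ∀ y y', y ≠ y' → ON y' y = !(ON y y')
  conf : ∀ y y' v v', y ≠ y' → v ≠ v' → N y y' = N v v' → RN y y' = RN v v' →
    ON y y' = ON v v' → y = v ∧ y' = v'

end K

/-! ### the group with `2 ^ r` elements -/

/-- the elementary abelian group of the numbers below `2 ^ r` with bitwise addition -/
def XK (r : ℕ) : Type := Fin (2 ^ r)

instance (r : ℕ) : DecidableEq (XK r) := inferInstanceAs (DecidableEq (Fin (2 ^ r)))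
instance (r : ℕ) : Fintype (XK r) := inferInstanceAs (Fintype (Fin (2 ^ r)))

instance (r : ℕ) : Zero (XK r) := ⟨⟨0, Nat.two_pow_pos r⟩⟩
instance (r : ℕ) : Add (XK r) := ⟨fun a b => ⟨a.val ^^^ b.val, Nat.xor_lt_two_pow a.isLt b.isLt⟩⟩
instance (r : ℕ) : Neg (XK r) := ⟨fun a => a⟩

/-- the group structure -/
instance (r : ℕ) : AddCommGroup (XK r) where
  add_assoc a b c := Fin.ext (Nat.xor_assoc a.val b.val c.val)
  add_comm a b := Fin.ext (Nat.xor_comm a.val b.val)
  zero_add a := Fin.ext (Nat.zero_xor a.val)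
  add_zero a := Fin.ext (Nat.xor_zero a.val)
  neg_add_cancel a := Fin.ext (Nat.xor_self a.val)
  nsmul := nsmulRec
  zsmul := zsmulRec

end Pool.Agent.Lib.MP_db622c_co.PU
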