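import Pool.Agent.Lib.MP_db622c_co.PU.K3

/-!
# PU-L3: data on the group of order 8
-/

namespace Pool.Agent.Lib.MP_db622c_co.PU.L3

open Pool.Agent.Lib.MP_db622c_co Pool.Agent.Lib.MP_db622c_co.CB Pool.Agent.Lib.MP_db622c_co.PT Pool.Agent.Lib.MP_db622c_co.PU

/-! codes `0, 1, -1, 3, -3` -/

def a_g : XK 3 → Fin 5 := c1 5 3 3224339

def b_g : XK 3 → Fin 5 := c1 5 3 8759386

def m_g : XK 3 → Fin 5 := c1 5 3 4756617

def z0_g : XK 3 → Fin 5 := c1 5 3 6424096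

def s_g : XK 3 → Fin 5 := c1 5 3 4228104

def t_g : XK 3 → Fin 5 := c1 5 3 528513

def l0_g : XK 3 → XK 3 := t1 3 6803622

def ls_g : XK 3 → XK 3 := t1 3 3077172

def lt_g : XK 3 → XK 3 := t1 3 6803622

/-! codes `0, 1, f, -1-f` (characteristic `3`) -/

def a_h : XK 3 → Fin 4 := c1 4 3 2663050

def b_h : XK 3 → Fin 4 := c1 4 3 6657625

def m_h : XK 3 → Fin 4 := c1 4 3 5059795

def z0_h : XK 3 → Fin 4 := c1 4 3 266305

def s_h : XK 3 → Fin 4 := c1 4 3 4260880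

def t_h : XK 3 → Fin 4 := c1 4 3 798915

def l0_h : XK 3 → XK 3 := t1 3 12933774

def ls_h : XK 3 → XK 3 := t1 3 8368416

def lt_h : XK 3 → XK 3 := t1 3 11570643

set_option synthInstance.maxSize 2000 in
theorem ldg : LD K3.T a_g b_g m_g z0_g s_g t_g l0_g ls_g lt_g := by
  constructor <;> decide +kernel

set_option synthInstance.maxSize 2000 in
theorem ldh : LD K3.T a_h b_h m_h z0_h s_h t_h l0_h ls_h lt_h := by
  constructor <;> decide +kernel

/-- the values of `m` -/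
theorem mg (δ : XK 3) : (a_g δ, b_g δ, m_g δ) ∈ ([(3, 2, 1), (4, 1, 2), (2, 3, 1), (1, 4, 2)] : List (Fin 5 × Fin 5 × Fin 5)) := by
  revert δ
  decide +kernel

/-- the values of `m` -/
theorem mh (δ : XK 3) : (a_h δ, b_h δ, m_h δ) ∈ ([(2, 1, 3), (1, 3, 2)] : List (Fin 4 × Fin 4 × Fin 4)) := by
  revert δ
  decide +kernel

end Pool.Agent.Lib.MP_db622c_co.PU.L3
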