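import Pool.Agent.Lib.MP_db622c_co.PU.K4

/-!
# PU-L4: data on the group of order 16
-/

namespace Pool.Agent.Lib.MP_db622c_co.PU.L4

open Pool.Agent.Lib.MP_db622c_co Pool.Agent.Lib.MP_db622c_co.CB Pool.Agent.Lib.MP_db622c_co.PT Pool.Agent.Lib.MP_db622c_co.PU

/-! codes `0, 1, -1, 3, -3` -/

def a_g : XK 4 → Fin 5 := c1 5 4 54095435084563

def b_g : XK 4 → Fin 5 := c1 5 4 146958119708762

def m_g : XK 4 → Fin 5 := c1 5 4 79802795594889

def z0_g : XK 4 → Fin 5 := c1 5 4 107778452620832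

def s_g : XK 4 → Fin 5 := c1 5 4 70935818306568

def t_g : XK 4 → Fin 5 := c1 5 4 8866977288321

def l0_g : XK 4 → XK 4 := t1 4 13401922447034155590

def ls_g : XK 4 → XK 4 := t1 4 11231717262902435940

def lt_g : XK 4 → XK 4 := t1 4 13401922447034155590

/-! codes `0, 1, f, -1-f` (characteristic `3`) -/

def a_h : XK 4 → Fin 4 := c1 4 4 44678567731850

def b_h : XK 4 → Fin 4 := c1 4 4 111696419329625

def m_h : XK 4 → Fin 4 := c1 4 4 84889278690515

def z0_h : XK 4 → Fin 4 := c1 4 4 4467856773185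

def s_h : XK 4 → Fin 4 := c1 4 4 71485708370960

def t_h : XK 4 → Fin 4 := c1 4 4 13403570319555

def l0_h : XK 4 → XK 4 := t1 4 16838221397017645590

def ls_h : XK 4 → XK 4 := t1 4 13833711649821295680

def lt_h : XK 4 → XK 4 := t1 4 15895547316521363235

set_option synthInstance.maxSize 2000 in
theorem ldg : LD K4.T a_g b_g m_g z0_g s_g t_g l0_g ls_g lt_g := by
  constructor <;> decide +kernel

set_option synthInstance.maxSize 2000 in
theorem ldh : LD K4.T a_h b_h m_h z0_h s_h t_h l0_h ls_h lt_h := by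
  constructor <;> decide +kernel

/-- the values of `m` -/
theorem mg (δ : XK 4) : (a_g δ, b_g δ, m_g δ) ∈ ([(3, 2, 1), (4, 1, 2), (2, 3, 1), (1, 4, 2)] : List (Fin 5 × Fin 5 × Fin 5)) := by
  revert δ
  decide +kernel

/-- the values of `m` -/
theorem mh (δ : XK 4) : (a_h δ, b_h δ, m_h δ) ∈ ([(2, 1, 3), (1, 3, 2)] : List (Fin 4 × Fin 4 × Fin 4)) := by
  revert δ
  decide +kernel

end Pool.Agent.Lib.MP_db622c_co.PU.L4
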