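import Pool.Agent.Lib.MP_db622c_co.PU.K5

/-!
# PU-L5: data on the group of order 32
-/

namespace Pool.Agent.Lib.MP_db622c_co.PU.L5

open Pool.Agent.Lib.MP_db622c_co Pool.Agent.Lib.MP_db622c_co.CB Pool.Agent.Lib.MP_db622c_co.PT Pool.Agent.Lib.MP_db622c_co.PU

/-! codes `0, 1, -1, 3, -3` -/

def a_g : XK 5 → Fin 5 := c1 5 5 15226511330580228006378287891

def b_g : XK 5 → Fin 5 := c1 5 5 41365033322465727417581676634

def m_g : XK 5 → Fin 5 := c1 5 5 22462490031516702306741032073

def z0_g : XK 5 → Fin 5 := c1 5 5 30336937441359336104194606624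

def s_g : XK 5 → Fin 5 := c1 5 5 19966657805792624272658695176

def t_g : XK 5 → Fin 5 := c1 5 5 2495832225724078034082336897

def l0_g : XK 5 → XK 5 := t1 5 1369884153806359828575176270106395227656728610950

def ls_g : XK 5 → XK 5 := t1 5 1458460010614293338769338987240715410666179068100

def lt_g : XK 5 → XK 5 := t1 5 1369884153806359828575176270106395227656728610950

/-! codes `0, 1, f, -1-f` (characteristic `3`) -/

def a_h : XK 5 → Fin 4 := c1 4 5 12575898811787990094213325450

def b_h : XK 5 → Fin 4 := c1 4 5 31439747029469975235533313625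

def m_h : XK 5 → Fin 4 := c1 4 5 23894207742397181179005318355

def z0_h : XK 5 → Fin 4 := c1 4 5 1257589881178799009421332545

def s_h : XK 5 → Fin 4 := c1 4 5 20121438098860784150741320720

def t_h : XK 5 → Fin 4 := c1 4 5 3772769643536397028263997635

def l0_h : XK 5 → XK 5 := t1 5 867359379835887398731516608813124267176597358950

def ls_h : XK 5 → XK 5 := t1 5 1361323447079147749588354133064510286111677878400

def lt_h : XK 5 → XK 5 := t1 5 1274521895003181184452841107158439773372729721925

set_option synthInstance.maxSize 2000 in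
theorem ldg : LD K5.T a_g b_g m_g z0_g s_g t_g l0_g ls_g lt_g := by
  constructor <;> decide +kernel

set_option synthInstance.maxSize 2000 in
theorem ldh : LD K5.T a_h b_h m_h z0_h s_h t_h l0_h ls_h lt_h := by
  constructor <;> decide +kernel

/-- the values of `m` -/
theorem mg (δ : XK 5) : (a_g δ, b_g δ, m_g δ) ∈ ([(3, 2, 1), (4, 1, 2), (2, 3, 1), (1, 4, 2)] : List (Fin 5 × Fin 5 × Fin 5)) := by
  revert δ
  decide +kernel

/-- the values of `m` -/
theorem mh (δ : XK 5) : (a_h δ, b_h δ, m_h δ) ∈ ([(2, 1, 3), (1, 3, 2)] : List (Fin 4 × Fin 4 × Fin 4)) := by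
  revert δ
  decide +kernel

end Pool.Agent.Lib.MP_db622c_co.PU.L5
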