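import Pool.Agent.Lib.MP_db622c_co.PU.K3

/-!
# PU-N3: data on the group of order 8
-/

namespace Pool.Agent.Lib.MP_db622c_co.PU.N3

open Pool.Agent.Lib.MP_db622c_co Pool.Agent.Lib.MP_db622c_co.CB Pool.Agent.Lib.MP_db622c_co.PT Pool.Agent.Lib.MP_db622c_co.PU

/-- a Latin square -/
def N : XK 3 → XK 3 → XK 3 := t2 3 1614657206718254617533096478193681003432599243164142029495

/-- a one-factorization -/
def RN : XK 3 → XK 3 → XK 3 := t2 3 431741525861842139837185374047425008179481596531364775560

/-- a tournament -/
def ON : XK 3 → XK 3 → Bool := b2 3 36543140323773840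

/-- left inverse -/
def iA0 : XK 3 → XK 3 → XK 3 := t2 3 2256043284686850998520635817608899430980635657296041505152

/-- left inverse -/
def iB0 : XK 3 → XK 3 → XK 3 := t2 3 981572373577809474192603882555747563219048672533013520640

/-- left inverse -/
def iA1 : XK 3 → XK 3 → XK 3 := t2 3 3923272394245740244904789107678082840783203921627457803840

/-- left inverse -/
def iB1 : XK 3 → XK 3 → XK 3 := t2 3 4707966984866423288563892170673992290515332724286499590592

theorem latN : IsLat N := by
  constructor <;> decide +kernel

theorem rofN : IsOF RN := by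
  constructor <;> decide +kernel

theorem inv0 : ∀ y y' : XK 3, y ≠ y' → ON y y' = false →
    iA0 (N y y') (RN y y') = y ∧ iB0 (N y y') (RN y y') = y' := by
  decide +kernel

theorem inv1 : ∀ y y' : XK 3, y ≠ y' → ON y y' = true →
    iA1 (N y y') (RN y y') = y ∧ iB1 (N y y') (RN y y') = y' := by
  decide +kernel

theorem nd : ND K3.sK N RN ON where
  lat := latN
  non := by decide +kernel
  diag := by decide +kernel
  rof := rofN
  anti := by decide +kernel
  conf := by
    intro y y' v v' h h' h1 h2 h3
    rcases ho : ON y y' with _ | _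
    · have e := inv0 y y' h ho
      have e' := inv0 v v' h' (by rw [← h3, ho])
      rw [h1, h2] at e
      exact ⟨e.1.symm.trans e'.1, e.2.symm.trans e'.2⟩
    · have e := inv1 y y' h ho
      have e' := inv1 v v' h' (by rw [← h3, ho])
      rw [h1, h2] at e
      exact ⟨e.1.symm.trans e'.1, e.2.symm.trans e'.2⟩

end Pool.Agent.Lib.MP_db622c_co.PU.N3
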