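import Pool.Agent.Lib.MP_db622c_co.PU.Fs
import Pool.Agent.Lib.MP_db622c_co.PU.L3
import Pool.Agent.Lib.MP_db622c_co.PU.L4
import Pool.Agent.Lib.MP_db622c_co.PU.L5
import Pool.Agent.Lib.MP_db622c_co.PU.N3
import Pool.Agent.Lib.MP_db622c_co.PU.N4

/-!
# PU-Fld: full structures of the orders `8 (q + 1)`, `16 (q + 1)`, `32 (q + 1)` and left factors of
the orders `8 (q + 1)`, `16 (q + 1)`
-/

namespace Pool.Agent.Lib.MP_db622c_co.PU

open Pool.Agent.Lib.MP_db622c_co Pool.Agent.Lib.MP_db622c_co.CB Pool.Agent.Lib.MP_db622c_co.PT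

/-- the prime powers `3 (mod 4)` from `7` on -/
def Good (q : ℕ) : Prop := IsPrimePow q ∧ q % 4 = 3 ∧ 7 ≤ q

theorem kd3 : KD K3.sK K3.T K3.nu K3.be K3.rK K3.u K3.w L3.a_g L3.b_g L3.m_g L3.z0_g L3.s_g
    L3.t_g L3.l0_g L3.ls_g L3.lt_g L3.a_h L3.b_h L3.m_h L3.z0_h L3.s_h L3.t_h L3.l0_h L3.ls_h
    L3.lt_h := ⟨K3.kb, K3.wd, L3.ldg, L3.ldh, L3.mg, L3.mh⟩

theorem kd4 : KD K4.sK K4.T K4.nu K4.be K4.rK K4.u K4.w L4.a_g L4.b_g L4.m_g L4.z0_g L4.s_g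
    L4.t_g L4.l0_g L4.ls_g L4.lt_g L4.a_h L4.b_h L4.m_h L4.z0_h L4.s_h L4.t_h L4.l0_h L4.ls_h
    L4.lt_h := ⟨K4.kb, K4.wd, L4.ldg, L4.ldh, L4.mg, L4.mh⟩

theorem kd5 : KD K5.sK K5.T K5.nu K5.be K5.rK K5.u K5.w L5.a_g L5.b_g L5.m_g L5.z0_g L5.s_g
    L5.t_g L5.l0_g L5.ls_g L5.lt_g L5.a_h L5.b_h L5.m_h L5.z0_h L5.s_h L5.t_h L5.l0_h L5.ls_h
    L5.lt_h := ⟨K5.kb, K5.wd, L5.ldg, L5.ldh, L5.mg, L5.mh⟩

private theorem card_XK (r : ℕ) : Fintype.card (XK r) = 2 ^ r := Fintype.card_fin _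

/-- the field with `q` elements -/
private theorem field_of (q : ℕ) (hq : IsPrimePow q) : Nonempty (Field (Fin q)) := by
  rw [Fintype.nonempty_field_iff, Fintype.card_fin]
  exact hq

theorem hasFS_of (r : ℕ) (hr : 3 ≤ r ∧ r ≤ 5) (q : ℕ) (hq : Good q) :
    HasFS (2 ^ r * (q + 1)) := by
  obtain ⟨inst⟩ := field_of q hq.1
  have h4 : Fintype.card (Fin q) % 4 = 3 := by
    rw [Fintype.card_fin]
    exact hq.2.1
  have h7 : 7 ≤ Fintype.card (Fin q) := by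
    rw [Fintype.card_fin]
    exact hq.2.2
  obtain rfl | rfl | rfl : r = 3 ∨ r = 4 ∨ r = 5 := by omega
  · have h := hasFS_field (Fin q) h4 h7 kd3
    rwa [card_XK, Fintype.card_fin] at h
  · have h := hasFS_field (Fin q) h4 h7 kd4
    rwa [card_XK, Fintype.card_fin] at h
  · have h := hasFS_field (Fin q) h4 h7 kd5
    rwa [card_XK, Fintype.card_fin] at h

theorem hasJS_eight (q : ℕ) (hq : Good q) : HasJS (8 * (q + 1)) := by
  obtain ⟨inst⟩ := field_of q hq.1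
  have h4 : Fintype.card (Fin q) % 4 = 3 := by
    rw [Fintype.card_fin]
    exact hq.2.1
  have h7 : 7 ≤ Fintype.card (Fin q) := by
    rw [Fintype.card_fin]
    exact hq.2.2
  have h := hasJS_field (Fin q) h4 h7 K3.kb K3.wd N3.nd
  rwa [card_XK, Fintype.card_fin] at h

/-- the type of a level -/
def ty4 (δ : XK 4) : Bool := δ.val % 2 == 1

theorem ty4_add : ∀ δ : XK 4, ty4 (δ + ⟨1, by norm_num⟩) = !(ty4 δ) := by
  decide +kernel

theorem hasJSP_sixteen (q : ℕ) (hq : Good q) : HasJSP (16 * (q + 1)) := by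
  obtain ⟨inst⟩ := field_of q hq.1
  have h4 : Fintype.card (Fin q) % 4 = 3 := by
    rw [Fintype.card_fin]
    exact hq.2.1
  have h7 : 7 ≤ Fintype.card (Fin q) := by
    rw [Fintype.card_fin]
    exact hq.2.2
  have h := hasJSP_field (Fin q) h4 h7 kd4 N4.nd N4.latP N4.mateP ty4 _ ty4_add
  rwa [card_XK, Fintype.card_fin] at h

end Pool.Agent.Lib.MP_db622c_co.PU
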