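import Pool.Agent.Lib.MP_db622c_co.PU.KBa

/-!
# PU-HZ: the second one-factorization and the tournament of a left factor

* `isOF_H2`: `H2 p q = (0, RN y y')` if `x = x'`, else `(g x x', label)`, label `y + T δ` or `y' + T δ`
  according to `o x x'`.  ne: `hr.ne`, `hg.ne`.  symm: `hg.symm`, `ho` (the label is at the same end),
  `hr.symm`.  inj: `x = x' = x''`: `hr.inj`; mixed: `hg.ne`; otherwise `hg.inj` gives `x' = x''`, then
  the labels: `HK.L1` or `HK.L3` (with `add_comm`: `y' + T (y + y')` is injective in `y'`).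
* `anti_OZ`: by cases.
* `conf_Z`: the first component of `H2` is `0` iff the first coordinates agree (`hg.ne`).  Both pairs
  with equal first coordinates: `MZ` gives the same `x` and `N y y' = N v v'`; `HN.conf`.  Both with
  different first coordinates: `ν` gives the same level `δ`; `conf_orV (hcf δ)` (`PT/TIC.lean`) gives
  the first coordinates; then the labels (same value of `o`) and `q.2 = p.2 + δ` give the rest.
-/

namespace Pool.Agent.Lib.MP_db622c_co.PU

open Pool.Agent.Lib.MP_db622c_co Pool.Agent.Lib.MP_db622c_co.CB Pool.Agent.Lib.MP_db622c_co.PT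

section

variable {J A K : Type} [DecidableEq J] [Zero A] [AddCommGroup K] {sK : K → K → ℤ}
  {T ν β : K → K}

private theorem puHZ_eq {g : J → J → A} {T : K → K} {RN : K → K → K} {o : J → J → Bool}
    {x x' : J} {y y' : K} (h : x = x') : H2 g T RN o (x, y) (x', y') = (0, RN y y') := by
  show (if x = x' then _ else _) = _
  rw [if_pos h]

private theorem puHZ_ne {g : J → J → A} {T : K → K} {RN : K → K → K} {o : J → J → Bool}
    {x x' : J} {y y' : K} (h : x ≠ x') : H2 g T RN o (x, y) (x', y') =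
      (g x x', if o x x' then y + T (y + y') else y' + T (y + y')) := by
  show (if x = x' then _ else _) = _
  rw [if_neg h]

theorem isOF_H2 (HK : KB sK T ν β) {g : J → J → A} (hg : IsOF g) {RN : K → K → K}
    (hr : IsOF RN) {o : J → J → Bool} (ho : ∀ x y, x ≠ y → o y x = !(o x y)) :
    IsOF (H2 g T RN o) := by
  refine ⟨?_, ?_, ?_⟩
  · rintro ⟨x, y⟩ ⟨x', y'⟩ hne h0
    by_cases hx : x = x'
    · rw [puHZ_eq hx] at h0
      have hy : y ≠ y' := fun hy => hne (by rw [hx, hy])
      exact hr.ne _ _ hy (congrArg Prod.snd h0)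
    · rw [puHZ_ne hx] at h0
      exact hg.ne _ _ hx (congrArg Prod.fst h0)
  · rintro ⟨x, y⟩ ⟨x', y'⟩
    by_cases hx : x = x'
    · rw [puHZ_eq hx, puHZ_eq hx.symm, hr.symm]
    · rw [puHZ_ne hx, puHZ_ne (Ne.symm hx), hg.symm, ho x x' hx, add_comm y' y]
      rcases o x x' with _ | _
      · rfl
      · rfl
  · rintro ⟨x, y⟩ ⟨x', y'⟩ ⟨x'', y''⟩ hk hk' he
    by_cases hx : x = x' <;> by_cases hx' : x = x''
    · rw [puHZ_eq hx, puHZ_eq hx'] at he
      have hy : y' ≠ y := fun hy => hk (by rw [← hx, hy])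
      have hy' : y'' ≠ y := fun hy => hk' (by rw [← hx', hy])
      have h1 := hr.inj _ _ _ hy hy' (congrArg Prod.snd he)
      rw [← hx, ← hx', h1]
    · rw [puHZ_eq hx, puHZ_ne hx'] at he
      exact (hg.ne _ _ hx' (congrArg Prod.fst he).symm).elim
    · rw [puHZ_ne hx, puHZ_eq hx'] at he
      exact (hg.ne _ _ hx (congrArg Prod.fst he)).elim
    · rw [puHZ_ne hx, puHZ_ne hx'] at he
      have h1 := hg.inj _ _ _ (Ne.symm hx) (Ne.symm hx') (congrArg Prod.fst he)
      have h2 : (if o x x' then y + T (y + y') else y' + T (y + y')) =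
        (if o x x'' then y + T (y + y'') else y'' + T (y + y'')) := congrArg Prod.snd he
      rw [← h1] at h2
      rcases ho1 : o x x' with _ | _
      · rw [ho1, if_neg (by simp), if_neg (by simp), add_comm y y', add_comm y y''] at h2
        rw [h1, HK.L3 h2]
      · rw [ho1, if_pos rfl, if_pos rfl] at h2
        rw [h1, HK.L1 h2]

theorem anti_OZ {ON : K → K → Bool} (hN : ∀ y y', y ≠ y' → ON y' y = !(ON y y'))
    {o : K → J → J → Bool} (ho : ∀ δ x y, x ≠ y → o δ y x = !(o δ x y)) (p q : J × K)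
    (h : p ≠ q) : OZ ON o q p = !(OZ ON o p q) := by
  obtain ⟨x, y⟩ := p
  obtain ⟨x', y'⟩ := q
  show (if x' = x then ON y' y else o (y' + y) x' x) =
    !(if x = x' then ON y y' else o (y + y') x x')
  by_cases hx : x = x'
  · have hy : y ≠ y' := fun hy => h (by rw [hx, hy])
    rw [if_pos hx, if_pos hx.symm, hN _ _ hy]
  · rw [if_neg hx, if_neg (Ne.symm hx), ho _ _ _ hx, add_comm y' y]

end

variable {V K : Type} [AddCommGroup V] [DecidableEq V] [AddCommGroup K] {sK : K → K → ℤ}
  {T ν β : K → K}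

theorem conf_Z (HK : KB sK T ν β) {N RN : K → K → K} {ON : K → K → Bool}
    (HN : ND sK N RN ON) {x0 : V} {τ : V → V} (hτ : StOK x0 τ) {ω : K → V → Bool}
    {z : K → V → V} {e s t : K → V}
    (hcf : ∀ δ, CfOK x0 τ (ω δ) (z δ) (e δ) (s δ) (t δ)) (o : Option V → Option V → Bool)
    (p q p' q' : Option V × K) (h : p ≠ q) (h' : p' ≠ q')
    (h1 : MZ N ν z e s t p q = MZ N ν z e s t p' q')
    (h2 : H2 (ofV x0 τ) T RN o p q = H2 (ofV x0 τ) T RN o p' q')
    (h3 : OZ ON (fun δ => orV (ω δ)) p q = OZ ON (fun δ => orV (ω δ)) p' q') :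
    p = p' ∧ q = q' := by
  have hg := isOF_ofV hτ
  obtain ⟨x, y⟩ := p
  obtain ⟨x', y'⟩ := q
  obtain ⟨v, w⟩ := p'
  obtain ⟨v', w'⟩ := q'
  have hMe : ∀ (x x' : Option V) (y y' : K), x = x' →
      MZ N ν z e s t (x, y) (x', y') = (x, N y y') := by
    intro x x' y y' hx
    show (if x = x' then _ else _) = _
    rw [if_pos hx]
    rfl
  have hMn : ∀ (x x' : Option V) (y y' : K), x ≠ x' →
      MZ N ν z e s t (x, y) (x', y') =
        (sqV (z (y + y')) (e (y + y')) (s (y + y')) (t (y + y')) x x', ν (y + y')) := by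
    intro x x' y y' hx
    show (if x = x' then _ else _) = _
    rw [if_neg hx]
  have hOe : ∀ (x x' : Option V) (y y' : K), x = x' →
      OZ ON (fun δ => orV (ω δ)) (x, y) (x', y') = ON y y' := by
    intro x x' y y' hx
    show (if x = x' then _ else _) = _
    rw [if_pos hx]
  have hOn : ∀ (x x' : Option V) (y y' : K), x ≠ x' →
      OZ ON (fun δ => orV (ω δ)) (x, y) (x', y') = orV (ω (y + y')) x x' := by
    intro x x' y y' hx
    show (if x = x' then _ else _) = _
    rw [if_neg hx]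
  by_cases hx : x = x' <;> by_cases hv : v = v'
  · rw [hMe _ _ _ _ hx, hMe _ _ _ _ hv] at h1
    rw [puHZ_eq hx, puHZ_eq hv] at h2
    rw [hOe _ _ _ _ hx, hOe _ _ _ _ hv] at h3
    have hy : y ≠ y' := fun hy => h (by rw [hx, hy])
    have hw : w ≠ w' := fun hw => h' (by rw [hv, hw])
    obtain ⟨k1, k2⟩ := HN.conf _ _ _ _ hy hw (congrArg Prod.snd h1) (congrArg Prod.snd h2) h3
    have k3 : x = v := congrArg Prod.fst h1
    subst hx hv k1 k2 k3
    exact ⟨rfl, rfl⟩
  · rw [puHZ_eq hx, puHZ_ne hv] at h2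
    exact (hg.ne _ _ hv (congrArg Prod.fst h2).symm).elim
  · rw [puHZ_ne hx, puHZ_eq hv] at h2
    exact (hg.ne _ _ hx (congrArg Prod.fst h2)).elim
  · rw [hMn _ _ _ _ hx, hMn _ _ _ _ hv] at h1
    rw [puHZ_ne hx, puHZ_ne hv] at h2
    rw [hOn _ _ _ _ hx, hOn _ _ _ _ hv] at h3
    have hδ : y + y' = w + w' := HK.νi _ _ (congrArg Prod.snd h1)
    have k1 : sqV (z (y + y')) (e (y + y')) (s (y + y')) (t (y + y')) x x' =
        sqV (z (w + w')) (e (w + w')) (s (w + w')) (t (w + w')) v v' := congrArg Prod.fst h1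
    have k2 : ofV x0 τ x x' = ofV x0 τ v v' := congrArg Prod.fst h2
    rw [hδ] at k1 h3
    obtain ⟨k4, k5⟩ := conf_orV (hcf (w + w')) x x' v v' hx hv k1 k2 h3
    have k6 : (if o x x' then y + T (y + y') else y' + T (y + y')) =
      (if o v v' then w + T (w + w') else w' + T (w + w')) := congrArg Prod.snd h2
    rw [hδ, k4, k5] at k6
    have k7 : y' = y + (w + w') := HK.sol hδ
    have k8 : y = y' + (w + w') := HK.sol (by rw [add_comm]; exact hδ)
    have k9 : w' = w + (w + w') := HK.sol rfl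
    have k10 : w = w' + (w + w') := HK.sol (add_comm _ _)
    rcases ho1 : o v v' with _ | _
    · rw [ho1, if_neg (by simp), if_neg (by simp)] at k6
      have k11 : y' = w' := add_right_cancel k6
      have k12 : y = w := by rw [k8, k11]; exact k10.symm
      rw [k4, k5, k11, k12]
      exact ⟨rfl, rfl⟩
    · rw [ho1, if_pos rfl, if_pos rfl] at k6
      have k11 : y = w := add_right_cancel k6
      have k12 : y' = w' := by rw [k7, k11]; exact k9.symm
      rw [k4, k5, k11, k12]
      exact ⟨rfl, rfl⟩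

end Pool.Agent.Lib.MP_db622c_co.PU
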