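import Pool.Agent.Lib.MP_db622c_co.PU.MM

/-!
# PU-MZ: the square of a left factor

`MZ p q = (x, N y y')` if `x = x'`, else `(sqV (z δ) (e δ) (s δ) (t δ) x x', ν δ)`, `δ = y + y'`.
* `isLat_MZ`: rows: `p = (x, y)`, `q = (x', y')`, `q' = (x'', y'')`.  `x' = x = x''`: `hN.row`.
  `x' ≠ x`, `x'' ≠ x`: `ν` gives `y' = y''`, then `(isLat_sqV (h δ)).row`.  `x' = x ≠ x''`:
  `x = sqV .. x x''` (level `y + y''`) and `sqV .. x x = x` (`sq_self`), so `x'' = x` by
  `(isLat_sqV (h δ)).row`.  Columns in the same way.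
* `nonsep_MZ`: `SS S sK a p = S a.1 p.1 * sK a.2 p.2`.  `x = x'`: `hN`.  `x ≠ x'`:
  `nonsep_sqV (h δ)` and `sK (ν δ) y' = sK (ν δ) y` (`q.2 = p.2 + δ`, `HK.sol`, `HK.addy`, `HK.νs`).
* `mdiag_MZ`: `MZ p p = (p.1, N p.2 p.2)`.
-/

namespace Pool.Agent.Lib.MP_db622c_co.PU

open Pool.Agent.Lib.MP_db622c_co Pool.Agent.Lib.MP_db622c_co.CB Pool.Agent.Lib.MP_db622c_co.PT

variable {V K : Type} [AddCommGroup V] [DecidableEq V] [AddCommGroup K] {sK : K → K → ℤ}
  {T ν β : K → K} {N : K → K → K} {z : K → V → V} {e s t : K → V}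

theorem isLat_MZ (HK : KB sK T ν β) (hN : IsLat N) (h : ∀ δ, SqOK (z δ) (e δ) (s δ) (t δ))
    (hz : ∀ δ, z δ 0 = 0) : IsLat (MZ N ν z e s t) := by
  have a1 : ∀ p q : Option V × K, p.1 = q.1 → MZ N ν z e s t p q = (p.1, N p.2 q.2) := by
    intro p q h1
    exact if_pos h1
  have a2 : ∀ p q : Option V × K, p.1 ≠ q.1 → MZ N ν z e s t p q =
      (sqV (z (p.2 + q.2)) (e (p.2 + q.2)) (s (p.2 + q.2)) (t (p.2 + q.2)) p.1 q.1,
        ν (p.2 + q.2)) := by
    intro p q h1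
    unfold MZ
    rw [if_neg h1]
  have self : ∀ δ (x : Option V), sqV (z δ) (e δ) (s δ) (t δ) x x = x := fun δ x =>
    sq_self (hz δ) (h δ).e0 x
  have rmix : ∀ p q q' : Option V × K, p.1 = q.1 → p.1 ≠ q'.1 →
      MZ N ν z e s t p q = MZ N ν z e s t p q' → False := by
    intro p q q' h1 h2 h3
    rw [a1 p q h1, a2 p q' h2] at h3
    have h4 := congrArg Prod.fst h3
    dsimp only at h4
    have h5 : sqV (z (p.2 + q'.2)) (e (p.2 + q'.2)) (s (p.2 + q'.2)) (t (p.2 + q'.2)) p.1 p.1 =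
        sqV (z (p.2 + q'.2)) (e (p.2 + q'.2)) (s (p.2 + q'.2)) (t (p.2 + q'.2)) p.1 q'.1 := by
      rw [self]
      exact h4
    exact h2 ((isLat_sqV (h _)).row _ _ _ h5)
  have cmix : ∀ p q p' : Option V × K, p.1 = q.1 → p'.1 ≠ q.1 →
      MZ N ν z e s t p q = MZ N ν z e s t p' q → False := by
    intro p q p' h1 h2 h3
    rw [a1 p q h1, a2 p' q h2] at h3
    have h4 := congrArg Prod.fst h3
    dsimp only at h4
    have h5 : sqV (z (p'.2 + q.2)) (e (p'.2 + q.2)) (s (p'.2 + q.2)) (t (p'.2 + q.2)) q.1 q.1 =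
        sqV (z (p'.2 + q.2)) (e (p'.2 + q.2)) (s (p'.2 + q.2)) (t (p'.2 + q.2)) p'.1 q.1 := by
      rw [self]
      exact h1.symm.trans h4
    exact h2 ((isLat_sqV (h _)).col _ _ _ h5).symm
  constructor
  · intro p q q' h3
    by_cases h1 : p.1 = q.1
    · by_cases h2 : p.1 = q'.1
      · rw [a1 p q h1, a1 p q' h2] at h3
        exact Prod.ext (h1.symm.trans h2) (hN.row _ _ _ (congrArg Prod.snd h3))
      · exact (rmix p q q' h1 h2 h3).elim
    · by_cases h2 : p.1 = q'.1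
      · exact (rmix p q' q h2 h1 h3.symm).elim
      · rw [a2 p q h1, a2 p q' h2] at h3
        have h4 : p.2 + q.2 = p.2 + q'.2 := HK.νi _ _ (congrArg Prod.snd h3)
        have h5 : q.2 = q'.2 := add_left_cancel h4
        have h6 := congrArg Prod.fst h3
        dsimp only at h6
        rw [h5] at h6
        exact Prod.ext ((isLat_sqV (h _)).row _ _ _ h6) h5
  · intro p p' q h3
    by_cases h1 : p.1 = q.1
    · by_cases h2 : p'.1 = q.1
      · rw [a1 p q h1, a1 p' q h2] at h3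
        exact Prod.ext (h1.trans h2.symm) (hN.col _ _ _ (congrArg Prod.snd h3))
      · exact (cmix p q p' h1 h2 h3).elim
    · by_cases h2 : p'.1 = q.1
      · exact (cmix p' q p h2 h1 h3.symm).elim
      · rw [a2 p q h1, a2 p' q h2] at h3
        have h4 : p.2 + q.2 = p'.2 + q.2 := HK.νi _ _ (congrArg Prod.snd h3)
        have h5 : p.2 = p'.2 := add_right_cancel h4
        have h6 := congrArg Prod.fst h3
        dsimp only at h6
        rw [h5] at h6
        exact Prod.ext ((isLat_sqV (h _)).col _ _ _ h6) h5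

theorem nonsep_MZ (HK : KB sK T ν β) {χ : V → ℤ}
    (hN : ∀ y y', sK (N y y') y = sK (N y y') y')
    (h : ∀ δ, NonOK χ (z δ) (e δ) (s δ) (t δ)) (p q : Option V × K) :
    SS (SV χ) sK (MZ N ν z e s t p q) p = SS (SV χ) sK (MZ N ν z e s t p q) q := by
  unfold MZ SS
  by_cases h1 : p.1 = q.1
  · rw [if_pos h1]
    dsimp only
    rw [hN, ← h1]
  · rw [if_neg h1]
    dsimp only
    rw [nonsep_sqV (h (p.2 + q.2))]
    have h2 : q.2 = p.2 + (p.2 + q.2) := (HK.cc p.2 q.2).symm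
    have h3 : sK (ν (p.2 + q.2)) q.2 = sK (ν (p.2 + q.2)) p.2 := by
      have h4 := HK.addy (ν (p.2 + q.2)) p.2 (p.2 + q.2)
      rw [HK.νs, mul_one] at h4
      rw [← h4, HK.cc]
    rw [h3]

theorem mdiag_MZ (hN : ∀ y y', N y y = N y' y' → y = y') (p q : Option V × K)
    (h : MZ N ν z e s t p p = MZ N ν z e s t q q) : p = q := by
  unfold MZ at h
  rw [if_pos rfl, if_pos rfl] at h
  exact Prod.ext (Prod.mk.inj h).1 (hN _ _ (Prod.mk.inj h).2)

end Pool.Agent.Lib.MP_db622c_co.PU
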