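import Pool.Agent.Lib.MP_db622c_co.PU.KBa

/-!
# PU-P0c: the Latin square orthogonal to the boards

`V = F` a field, `2 ≠ 0`; `val : C → F` injective, `val 0 = 0`.  Write `A = val (a δ)`,
`B = val (b δ)`, `α = A / (B - A)`, `e = B - A ≠ 0` (`HL.ab`); then `α e = A`, `(1 + α) e = B`,
`(1/2 + α) e = (A + B) / 2 = val (m δ)`, and `α`, `1 + α`, `1/2 + α` are not `0` (`HL.a0`, `HL.b0`,
`HL.m0`).  The labels are `y + T δ` (main), `y + l0 δ`, `y + ls δ`, `y + lt δ`.
* `col_P0`: `RowOK` for the exchanged data: the main entries are `z δ (-d) - d = - (1 + α) d`, the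
  condition is `d ≠ - e`; the labels in terms of the other end: `y' + T (y' + y) = y + (δ + T δ)`
  (`HK.L2`), `y' + l0 δ = y + (l0 δ + δ)` etc. (as `y' = y + δ`); `HL.c1` .. `HL.c5`, `HL.lsi`.
-/

namespace Pool.Agent.Lib.MP_db622c_co.PU

open Pool.Agent.Lib.MP_db622c_co Pool.Agent.Lib.MP_db622c_co.CB Pool.Agent.Lib.MP_db622c_co.PT

variable {F : Type} [Field F] {K : Type} [AddCommGroup K] {C : Type}

variable {sK : K → K → ℤ} {T ν β : K → K} [Zero C] {val : C → F} {a b m z0 s t : K → C}
  {l0 ls lt : K → K}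

private theorem p0c_lab (HK : KB sK T ν β) {y y' y'' : K} {f g : K → K}
    (h : y' + f (y' + y) = y'' + g (y'' + y)) :
    f (y + y') + (y + y') = g (y + y'') + (y + y'') := by
  have e1 : y' = y + (y + y') := (HK.cc y y').symm
  have e2 : y'' = y + (y + y'') := (HK.cc y y'').symm
  have h1 : y + (f (y + y') + (y + y')) = y + (g (y + y'') + (y + y'')) := by
    calc y + (f (y + y') + (y + y')) = (y + (y + y')) + f (y + y') := by abel
      _ = y' + f (y' + y) := by rw [HK.cc y y', add_comm y' y]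
      _ = y'' + g (y'' + y) := h
      _ = (y + (y + y'')) + g (y + y'') := by rw [HK.cc y y'', add_comm y'' y]
      _ = y + (g (y + y'') + (y + y'')) := by abel
  exact add_left_cancel h1

private theorem p0c_z (α d : F) : α * (-d) - d = -((1 + α) * d) := by
  ring

private theorem p0c_A1 {A B : F} (hab : A ≠ B) (hb : B ≠ 0) : 1 + A / (B - A) ≠ 0 := by
  have he : B - A ≠ 0 := sub_ne_zero.mpr (Ne.symm hab)
  have h : 1 + A / (B - A) = B / (B - A) := by
    field_simp
    ring
  rw [h]
  exact div_ne_zero hb he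

private theorem p0c_main {A B d X : F} (hab : A ≠ B) (hb : B ≠ 0) (hd : d ≠ 0)
    (hde : d ≠ -(B - A)) (hX : X = 0 ∨ X = B) : A / (B - A) * (-d) - d ≠ X := by
  have he : B - A ≠ 0 := sub_ne_zero.mpr (Ne.symm hab)
  have h1 := p0c_A1 hab hb
  rw [p0c_z]
  rcases hX with hX | hX
  · rw [hX]
    exact neg_ne_zero.mpr (mul_ne_zero h1 hd)
  · intro h
    have h2 : (1 + A / (B - A)) * (B - A) = B := by
      field_simp
      ring
    have h3 : (1 + A / (B - A)) * (-d) = (1 + A / (B - A)) * (B - A) := by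
      have h5 : (1 + A / (B - A)) * (-d) = X := by
        rw [← h]
        ring
      rw [h5, h2, hX]
    have h4 := mul_left_cancel₀ h1 h3
    exact hde (by rw [← h4, neg_neg])

theorem col_P0 (HK : KB sK T ν β) (hv : Function.Injective val) (h0 : val 0 = 0)
    (HL : LD T a b m z0 s t l0 ls lt) :
    RowOK (fun y y' => val (z0 (y' + y))) (fun y y' => y' + l0 (y' + y))
      (fun y y' => y' + T (y' + y)) (fun y y' => y' + T (y' + y)) (fun y y' => y' + lt (y' + y))
      (fun y y' => y' + ls (y' + y))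
      (fun δ d => val (a δ) / (val (b δ) - val (a δ)) * (-d) - d)
      (fun δ => - (val (b δ) - val (a δ))) (fun δ => val (t δ)) (fun δ => val (s δ)) := by
  have hcomm : ∀ y y' : K, y' + y = y + y' := fun y y' => add_comm y' y
  have hz : ∀ {c : C}, ∀ {δ : K}, (c = 0 ∨ c = b δ) → val c = 0 ∨ val c = val (b δ) := by
    intro c δ h
    rcases h with h | h
    · left
      rw [h, h0]
    · right
      rw [h]
  have hAB : ∀ δ, val (a δ) ≠ val (b δ) := fun δ h => HL.ab δ (hv h)
  have hB : ∀ δ, val (b δ) ≠ 0 := fun δ h => HL.b0 δ (hv (h.trans h0.symm))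
  constructor
  · exact fun y y' y'' h => HK.L3 h
  · intro y y' y'' h
    exact add_left_cancel (HL.lsi _ _ (p0c_lab HK h))
  · exact fun y y' y'' h => HK.L3 h
  · intro δ d d' _ _ _ _ h
    have h' : val (a δ) / (val (b δ) - val (a δ)) * (-d) - d =
      val (a δ) / (val (b δ) - val (a δ)) * (-d') - d' := h
    rw [p0c_z, p0c_z] at h'
    exact mul_left_cancel₀ (p0c_A1 (hAB δ) (hB δ)) (neg_injective h')
  · intro y y' y'' h h'
    have h1 : z0 (y + y') = z0 (y + y'') := by
      have h2 := hv h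
      rwa [hcomm y y', hcomm y y''] at h2
    exact add_left_cancel (HL.c3 _ _ h1 (p0c_lab HK h'))
  · intro y y' y'' h h'
    exact add_left_cancel (HL.c4 _ _ (hv h) (p0c_lab HK h'))
  · intro y y' y'' h h'
    have h1 : z0 (y + y') = t (y + y'') := by
      have h2 := hv h
      rwa [hcomm y y'] at h2
    exact HL.c5 _ _ h1 (p0c_lab HK h')
  · intro y y' y'' d hd hde h
    have h1 := p0c_lab HK h
    rw [add_comm (T (y + y')) (y + y')] at h1
    have h2 := HL.c1 _ _ h1
    have h3 := p0c_main (hAB _) (hB _) hd hde (hz h2)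
    show _ ≠ val (z0 (y'' + y))
    rw [hcomm y y'']
    exact h3
  · intro y y' y'' d hd hde h
    have h1 := p0c_lab HK h
    rw [add_comm (T (y + y')) (y + y')] at h1
    have h2 := HL.c2 _ _ h1
    exact p0c_main (hAB _) (hB _) hd hde (hz h2)

end Pool.Agent.Lib.MP_db622c_co.PU
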