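import Pool.Agent.Lib.MP_db622c_co.PU.MG

/-!
# PU-P0m: the Latin square orthogonal to the boards

`V = F` a field, `2 ≠ 0`; `val : C → F` injective, `val 0 = 0`.  Write `A = val (a δ)`,
`B = val (b δ)`, `α = A / (B - A)`, `e = B - A ≠ 0` (`HL.ab`); then `α e = A`, `(1 + α) e = B`,
`(1/2 + α) e = (A + B) / 2 = val (m δ)`, and `α`, `1 + α`, `1/2 + α` are not `0` (`HL.a0`, `HL.b0`,
`HL.m0`).  The labels are `y + T δ` (main), `y + l0 δ`, `y + ls δ`, `y + lt δ`.
* `isMate_P0`: `GMOK`: labels: cancel (`y + (y + δ) = δ`, `HK.cc`, so the label is `y + const`);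
  `mg`: `MgOK 0 (fun d => - d / 2) ..`: `st`: `HL.st`, `HL.m0`; `- d / 2 - α d = - (1/2 + α) d`; it is
  `- s` or `- t` only if `(1/2 + α) d` is `0` or `val (m δ) = (1/2 + α) e`.
-/

namespace Pool.Agent.Lib.MP_db622c_co.PU

open Pool.Agent.Lib.MP_db622c_co Pool.Agent.Lib.MP_db622c_co.CB Pool.Agent.Lib.MP_db622c_co.PT

variable {F : Type} [Field F] [DecidableEq F] {K : Type} [AddCommGroup K] {C : Type}

/-- the Latin square orthogonal to the boards -/
def P0 (val : C → F) (T : K → K) (a b z0 s t : K → C) (l0 ls lt : K → K) :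
    Option F × K → Option F × K → Rw F × K :=
  SqK (fun y y' => val (z0 (y + y'))) (fun y y' => y + l0 (y + y')) (fun y y' => y + T (y + y'))
    (fun y y' => y + T (y + y')) (fun y y' => y + ls (y + y')) (fun y y' => y + lt (y + y'))
    (fun δ d => val (a δ) / (val (b δ) - val (a δ)) * d) (fun δ => val (b δ) - val (a δ))
    (fun δ => val (s δ)) (fun δ => val (t δ))

variable {sK : K → K → ℤ} {T ν β : K → K} [Zero C] {val : C → F} {a b m z0 s t : K → C}
  {l0 ls lt : K → K}

theorem isMate_P0 (h2 : (2 : F) ≠ 0) (HK : KB sK T ν β) (hv : Function.Injective val)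
    (h0 : val 0 = 0) (HL : LD T a b m z0 s t l0 ls lt)
    (hm : ∀ δ, 2 * val (m δ) = val (a δ) + val (b δ)) :
    IsMate (G0 (ofV (0 : F) (fun d => - d / 2)) ν β) (P0 val T a b z0 s t l0 ls lt) := by
  have hval : ∀ c : C, c ≠ 0 → val c ≠ 0 := fun c hc h => hc (hv (h.trans h0.symm))
  refine isMate_G0_SqK HK ⟨?_, ?_, ?_, ?_, ?_, ?_, ?_⟩
  · intro δ y v h
    simp only [HK.cc] at h
    exact add_right_cancel h
  · intro δ y v h
    simp only [HK.cc] at h
    exact add_right_cancel h
  · intro δ y v h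
    simp only [HK.cc] at h
    exact add_right_cancel h
  · intro δ y v h
    simp only [HK.cc] at h
    exact add_right_cancel h
  · intro δ y v
    simp only [HK.cc]
  · intro δ y v h
    simp only [HK.cc] at h
    exact add_right_cancel h
  · intro δ
    have hab : val (b δ) - val (a δ) ≠ 0 := by
      rw [sub_ne_zero]
      exact fun h => HL.ab δ (hv h).symm
    have hM : val (m δ) ≠ 0 := hval _ (HL.m0 δ)
    have hMm := hm δ
    have hc : ∀ d : F, - d / 2 - val (a δ) / (val (b δ) - val (a δ)) * d =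
        - (val (m δ) / (val (b δ) - val (a δ)) * d) := by
      intro d
      field_simp
      linear_combination d * hMm
    have hc0 : val (m δ) / (val (b δ) - val (a δ)) ≠ 0 := div_ne_zero hM hab
    have key : ∀ (k : C), (k = 0 ∨ k = m δ) → ∀ d : F, d ≠ 0 → d ≠ val (b δ) - val (a δ) →
        - d / 2 - val (a δ) / (val (b δ) - val (a δ)) * d ≠ 0 - val k := by
      intro k hk d hd0 hde h
      rw [hc, zero_sub, neg_inj] at h
      rcases hk with hk | hk
      · rw [hk, h0] at h
        exact (mul_ne_zero hc0 hd0) h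
      · rw [hk] at h
        apply hde
        have h1 : val (m δ) * d = val (m δ) * (val (b δ) - val (a δ)) := by
          field_simp at h
          linear_combination val (m δ) * h
        exact mul_left_cancel₀ hM h1
    have hst := HL.st δ
    refine ⟨?_, ?_, ?_, ?_⟩
    · intro h
      have h1 := hv h
      rcases hst with ⟨h2, h3⟩ | ⟨h2, h3⟩
      · exact HL.m0 δ (by rw [← h3, ← h1, h2])
      · exact HL.m0 δ (by rw [← h2, h1, h3])
    · intro d d' _ _ _ _ h
      simp only [hc, neg_inj] at h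
      exact mul_left_cancel₀ hc0 h
    · intro d hd0 hde
      exact key _ (hst.elim (fun h => Or.inl h.1) (fun h => Or.inr h.1)) d hd0 hde
    · intro d hd0 hde
      exact key _ (hst.elim (fun h => Or.inr h.2) (fun h => Or.inl h.2)) d hd0 hde

end Pool.Agent.Lib.MP_db622c_co.PU
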