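import Pool.Agent.Lib.MP_db622c_co.PU.KBa

/-!
# PU-P0r: the Latin square orthogonal to the boards

`V = F` a field, `2 ≠ 0`; `val : C → F` injective, `val 0 = 0`.  Write `A = val (a δ)`,
`B = val (b δ)`, `α = A / (B - A)`, `e = B - A ≠ 0` (`HL.ab`); then `α e = A`, `(1 + α) e = B`,
`(1/2 + α) e = (A + B) / 2 = val (m δ)`, and `α`, `1 + α`, `1/2 + α` are not `0` (`HL.a0`, `HL.b0`,
`HL.m0`).  The labels are `y + T δ` (main), `y + l0 δ`, `y + ls δ`, `y + lt δ`.
* `row_P0`: `RowOK`: li, l: `HK.L1`; lt: `HL.lti` (cancel `y`; `y + y' = y + y''` gives `y' = y''`);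
  zi: `α ≠ 0`; dd: `HL.r3` (`val` injective); ss: `HL.r4`; ds: `HL.r5`; md: `T δ = l0 δ'` gives by
  `HL.r1` that `val (z0 δ')` is `0` or `A = α e`, but `α d = 0` or `α d = α e` contradicts `d ≠ 0`,
  `d ≠ e`; ms: the same with `HL.r2`.
-/

namespace Pool.Agent.Lib.MP_db622c_co.PU

open Pool.Agent.Lib.MP_db622c_co Pool.Agent.Lib.MP_db622c_co.CB Pool.Agent.Lib.MP_db622c_co.PT

variable {F : Type} [Field F] {K : Type} [AddCommGroup K] {C : Type}

variable {sK : K → K → ℤ} {T ν β : K → K} [Zero C] {val : C → F} {a b m z0 s t : K → C}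
  {l0 ls lt : K → K}

private theorem pu0r_key {A B d v : F} (hAB : B - A ≠ 0) (hA : A ≠ 0) (hd : d ≠ 0)
    (hde : d ≠ B - A) (hv : v = 0 ∨ v = A) : A / (B - A) * d ≠ v := by
  have hα : A / (B - A) ≠ 0 := div_ne_zero hA hAB
  intro h
  rcases hv with hv | hv
  · rw [hv] at h
    exact (mul_ne_zero hα hd) h
  · rw [hv] at h
    have h1 : A / (B - A) * (B - A) = A := div_mul_cancel₀ A hAB
    have h2 : A / (B - A) * d = A / (B - A) * (B - A) := h.trans h1.symm
    exact hde (mul_left_cancel₀ hα h2)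

theorem row_P0 (HK : KB sK T ν β) (hv : Function.Injective val) (h0 : val 0 = 0)
    (HL : LD T a b m z0 s t l0 ls lt) :
    RowOK (fun y y' => val (z0 (y + y'))) (fun y y' => y + l0 (y + y'))
      (fun y y' => y + T (y + y')) (fun y y' => y + T (y + y')) (fun y y' => y + ls (y + y'))
      (fun y y' => y + lt (y + y')) (fun δ d => val (a δ) / (val (b δ) - val (a δ)) * d)
      (fun δ => val (b δ) - val (a δ)) (fun δ => val (s δ)) (fun δ => val (t δ)) := by
  have hA : ∀ δ, val (a δ) ≠ 0 := fun δ h => HL.a0 δ (hv (h.trans h0.symm))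
  have hAB : ∀ δ, val (b δ) - val (a δ) ≠ 0 := fun δ h =>
    HL.ab δ (hv (sub_eq_zero.1 h)).symm
  have hval : ∀ {c : C} {δ : K}, (c = 0 ∨ c = a δ) → (val c = 0 ∨ val c = val (a δ)) := by
    intro c δ hc
    rcases hc with hc | hc
    · left
      rw [hc, h0]
    · right
      rw [hc]
  refine ⟨?_, ?_, ?_, ?_, ?_, ?_, ?_, ?_, ?_⟩
  · intro y y' y'' h
    exact HK.L1 h
  · intro y y' y'' h
    exact add_left_cancel (HL.lti _ _ (add_left_cancel h))
  · intro y y' y'' h
    exact HK.L1 h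
  · intro δ d d' _ _ _ _ h
    exact mul_left_cancel₀ (div_ne_zero (hA δ) (hAB δ)) h
  · intro y y' y'' h h'
    exact add_left_cancel (HL.r3 _ _ (hv h) (add_left_cancel h'))
  · intro y y' y'' h h'
    exact add_left_cancel (HL.r4 _ _ (hv h) (add_left_cancel h'))
  · intro y y' y'' h h'
    exact HL.r5 _ _ (hv h) (add_left_cancel h')
  · intro y y' y'' d hd hde h
    exact pu0r_key (hAB _) (hA _) hd hde (hval (HL.r1 _ _ (add_left_cancel h)))
  · intro y y' y'' d hd hde h
    exact pu0r_key (hAB _) (hA _) hd hde (hval (HL.r2 _ _ (add_left_cancel h)))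

end Pool.Agent.Lib.MP_db622c_co.PU
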