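import Pool.Agent.Lib.MP_db622c_co.PU.Sq
import Pool.Agent.Lib.MP_db622c_co.PU.P0r
import Pool.Agent.Lib.MP_db622c_co.PU.P0c
import Pool.Agent.Lib.MP_db622c_co.PU.P0m

/-!
# PU-P0: the Latin square orthogonal to the boards
-/

namespace Pool.Agent.Lib.MP_db622c_co.PU

open Pool.Agent.Lib.MP_db622c_co Pool.Agent.Lib.MP_db622c_co.CB Pool.Agent.Lib.MP_db622c_co.PT

variable {F : Type} [Field F] [DecidableEq F] {K : Type} [AddCommGroup K] {C : Type}

variable {sK : K → K → ℤ} {T ν β : K → K} [Zero C] {val : C → F} {a b m z0 s t : K → C}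
  {l0 ls lt : K → K}

theorem isLat_P0 (HK : KB sK T ν β) (hv : Function.Injective val) (h0 : val 0 = 0)
    (HL : LD T a b m z0 s t l0 ls lt) : IsLat (P0 val T a b z0 s t l0 ls lt) :=
  isLat_SqK (row_P0 HK hv h0 HL) (col_P0 HK hv h0 HL)

end Pool.Agent.Lib.MP_db622c_co.PU
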