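import Pool.Agent.Lib.MP_db622c_co.PU.MG

/-!
# PU-MM: squares orthogonal to `MZ`

`MZ p q = (x, N y y')` if `x = x'`, else `(sqV (z' δ) .. x x', ν δ)`; `P p q` is
`SqK (fun _ _ => 0) PN PN L Ls Lt z e s t`: `(x, PN y y')` if `x = x'` (for `x = x' = ∞` too).
* `sqV z e s t x x = x` if `z 0 = 0`, `e ≠ 0` (`sq_self`), for every level.
* Let `p, q`, `p', q'` have the same entries.  Both `x = x'`: `hN` and the first component.
  Both `x ≠ x'`: the levels agree (`HK.νi`), `isMate_of_Mm (H δ)` with `fst_SqK` gives the first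
  components, then the labels `hl`, `hls`, `hlt` (`q.2 = p.2 + δ`, `HK.sol`).
  `p.1 = q.1`, `p'.1 ≠ q'.1`: let `δ` be the level of `p', q'`; by `sq_self` the first components of
  the entries of `p, q` are those of the two squares of the level `δ` at `(p.1, q.1)`, so
  `isMate_of_Mm (H δ)` gives `p.1 = p'.1`, `q.1 = q'.1`, a contradiction.
-/

namespace Pool.Agent.Lib.MP_db622c_co.PU

open Pool.Agent.Lib.MP_db622c_co Pool.Agent.Lib.MP_db622c_co.CB Pool.Agent.Lib.MP_db622c_co.PT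

variable {V K : Type} [AddCommGroup V] [DecidableEq V] [AddCommGroup K] {sK : K → K → ℤ}
  {T ν β : K → K}

private theorem pumm_fst (PN L Ls Lt : K → K → K) (z : K → V → V) (e s t : K → V)
    (p q : Option V × K) (h : p.1 = q.1) :
    (SqK (fun _ _ => (0 : V)) PN PN L Ls Lt z e s t p q).1 = p.1 ∧
      (SqK (fun _ _ => (0 : V)) PN PN L Ls Lt z e s t p q).2 = PN p.2 q.2 := by
  rcases p with ⟨_ | x, y⟩ <;> rcases q with ⟨_ | x', y'⟩
  · exact ⟨rfl, rfl⟩
  · exact absurd h (by simp)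
  · exact absurd h (by simp)
  · have h1 : x = x' := Option.some.inj h
    subst h1
    constructor
    · simp only [SqK, if_true, sub_zero]
    · simp only [SqK, if_true]

omit [AddCommGroup K] in
theorem sq_self {z : V → V} {e s t : V} (hz : z 0 = 0) (he : e ≠ 0) (x : Option V) :
    sqV z e s t x x = x := by
  rcases x with _ | x
  · rfl
  · show (if x - x = e then (none : Option V) else some (x - z (x - x))) = some x
    rw [sub_self, if_neg (Ne.symm he), hz, sub_zero]

theorem isMate_MZ_SqK (HK : KB sK T ν β) {N PN : K → K → K} (hN : IsMate N PN)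
    {z' : K → V → V} {e' s' t' : K → V} {L Ls Lt : K → K → K} {z : K → V → V} {e s t : K → V}
    (H : ∀ δ, MmOK (z' δ) (e' δ) (s' δ) (t' δ) (z δ) (e δ) (s δ) (t δ))
    (hz' : ∀ δ, z' δ 0 = 0) (he' : ∀ δ, e' δ ≠ 0) (hz : ∀ δ, z δ 0 = 0) (he : ∀ δ, e δ ≠ 0)
    (hl : ∀ δ y v, L y (y + δ) = L v (v + δ) → y = v)
    (hls : ∀ δ y v, Ls y (y + δ) = Ls v (v + δ) → y = v)
    (hlt : ∀ δ y v, Lt y (y + δ) = Lt v (v + δ) → y = v) :
    IsMate (MZ N ν z' e' s' t') (SqK (fun _ _ => 0) PN PN L Ls Lt z e s t) := by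
  have mixed : ∀ p q p' q' : Option V × K, p.1 = q.1 → p'.1 ≠ q'.1 →
      MZ N ν z' e' s' t' p q = MZ N ν z' e' s' t' p' q' →
      SqK (fun _ _ => 0) PN PN L Ls Lt z e s t p q =
        SqK (fun _ _ => 0) PN PN L Ls Lt z e s t p' q' → False := by
    intro p q p' q' h h' hg hp
    have h1 : p.1 = (SqK (fun _ _ => (0 : V)) PN PN L Ls Lt z e s t p' q').1 := by
      rw [← hp]
      exact (pumm_fst PN L Ls Lt z e s t p q h).1.symm
    rw [fst_SqK _ _ _ _ _ _ _ _ _ _ p' q' h'] at h1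
    have h2 : (MZ N ν z' e' s' t' p q).1 = (MZ N ν z' e' s' t' p' q').1 := by rw [hg]
    unfold MZ at h2
    rw [if_pos h, if_neg h'] at h2
    have h3 : sqV (z' (p'.2 + q'.2)) (e' (p'.2 + q'.2)) (s' (p'.2 + q'.2)) (t' (p'.2 + q'.2))
        p.1 p.1 = sqV (z' (p'.2 + q'.2)) (e' (p'.2 + q'.2)) (s' (p'.2 + q'.2))
          (t' (p'.2 + q'.2)) p'.1 q'.1 := by
      rw [sq_self (hz' _) (he' _)]
      exact h2
    have h4 : sqV (z (p'.2 + q'.2)) (e (p'.2 + q'.2)) (s (p'.2 + q'.2)) (t (p'.2 + q'.2))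
        p.1 p.1 = sqV (z (p'.2 + q'.2)) (e (p'.2 + q'.2)) (s (p'.2 + q'.2))
          (t (p'.2 + q'.2)) p'.1 q'.1 := by
      rw [sq_self (hz _) (he _)]
      exact h1
    obtain ⟨h5, h6⟩ := isMate_of_Mm (H (p'.2 + q'.2)) _ _ _ _ h3 h4
    exact h' (h5.symm.trans h6)
  intro p q p' q' hg hp
  by_cases h : p.1 = q.1
  · by_cases h' : p'.1 = q'.1
    · have c1 := pumm_fst PN L Ls Lt z e s t p q h
      have c2 := pumm_fst PN L Ls Lt z e s t p' q' h'
      rw [← hp] at c2
      unfold MZ at hg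
      rw [if_pos h, if_pos h'] at hg
      have a1 : p.1 = p'.1 := c1.1.symm.trans c2.1
      have a2 : PN p.2 q.2 = PN p'.2 q'.2 := c1.2.symm.trans c2.2
      have a3 : N p.2 q.2 = N p'.2 q'.2 := congrArg Prod.snd hg
      obtain ⟨a4, a5⟩ := hN _ _ _ _ a3 a2
      exact ⟨Prod.ext a1 a4, Prod.ext (h.symm.trans (a1.trans h')) a5⟩
    · exact (mixed p q p' q' h h' hg hp).elim
  · by_cases h' : p'.1 = q'.1
    · exact (mixed p' q' p q h' h hg.symm hp.symm).elim
    · have g1 := hg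
      unfold MZ at g1
      rw [if_neg h, if_neg h'] at g1
      have a1 : p.2 + q.2 = p'.2 + q'.2 := HK.νi _ _ (congrArg Prod.snd g1)
      have a2 := congrArg Prod.fst g1
      have a3 : (SqK (fun _ _ => (0 : V)) PN PN L Ls Lt z e s t p q).1 =
          (SqK (fun _ _ => (0 : V)) PN PN L Ls Lt z e s t p' q').1 := by rw [hp]
      rw [fst_SqK _ _ _ _ _ _ _ _ _ _ p q h, fst_SqK _ _ _ _ _ _ _ _ _ _ p' q' h'] at a3
      dsimp only at a2
      rw [a1] at a2 a3
      obtain ⟨a4, a5⟩ := isMate_of_Mm (H (p'.2 + q'.2)) _ _ _ _ a2 a3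
      have sol : ∀ a b : K, b = a + (a + b) := fun a b => by
        rw [← add_assoc, HK.two, zero_add]
      have b1 : q.2 = p.2 + (p'.2 + q'.2) := by rw [← a1]; exact sol _ _
      have b2 : q'.2 = p'.2 + (p'.2 + q'.2) := sol _ _
      have a6 : (SqK (fun _ _ => (0 : V)) PN PN L Ls Lt z e s t p q).2 =
          (SqK (fun _ _ => (0 : V)) PN PN L Ls Lt z e s t p' q').2 := by rw [hp]
      have key : p.2 = p'.2 := by
        generalize hδ : p'.2 + q'.2 = δ at b1 b2
        rcases p with ⟨x1, y1⟩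
        rcases q with ⟨x2, y2⟩
        rcases p' with ⟨x1', y1'⟩
        rcases q' with ⟨x2', y2'⟩
        dsimp only at a4 a5 b1 b2 h h' a6 ⊢
        subst a4 a5
        rcases x1 with _ | x1 <;> rcases x2 with _ | x2
        · exact absurd rfl h
        · simp only [SqK] at a6
          rw [b1, b2] at a6
          exact hlt δ _ _ a6
        · simp only [SqK] at a6
          rw [b1, b2] at a6
          exact hls δ _ _ a6
        · have hx : x1 ≠ x2 := fun hx => h (by rw [hx])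
          have c : ∀ y y' : K, (SqK (fun _ _ => (0 : V)) PN PN L Ls Lt z e s t
              (some x1, y) (some x2, y')).2 = L y y' := by
            intro y y'
            simp only [SqK, if_neg hx]
            split_ifs <;> rfl
          rw [c, c, b1, b2] at a6
          exact hl δ _ _ a6
      exact ⟨Prod.ext a4 key, Prod.ext a5 (b1.trans ((congrArg (· + (p'.2 + q'.2)) key).trans
        b2.symm))⟩

end Pool.Agent.Lib.MP_db622c_co.PU
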