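import Pool.Agent.Lib.MP_db622c_co.PU.PMd

/-!
# PU-PMc: the Latin square orthogonal to the square of a left factor

`V = F` a field, `c` with `c`, `c - 1`, `c + 1`, `c ^ 2 + 1` not zero; `ty : K → Bool` with
`ty (δ + θ) = ! ty δ`.  The level `δ` has the type `ty δ`.
The square `MZ` has on the level `δ` the data `z' d = d / (ρ - 1)`, `e' = ρ - 1`, `s' = 1`, `t' = ρ`,
`ρ = mR c b` (`c` or `c ^ 2`), `b = ty δ`.
The square `PM` has the data `z d = α d`, `e`, `s`, `t` with
* type false: `α = (c+1)/(c(c-1))`, `e = c(c-1)`, `s = (c+1)/c`, `t = c+1`;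
* type true: `α = 1/(c-1)`, `e = (c^2-1)/c`, `s = c+1`, `t = c^2+1`.
Then for each type `b` (`!b` the other one): `s (!b) = α b * e b`, `t (!b) = (1 + α b) * e b`;
`α b ≠ 0`, `1 + α b ≠ 0` (it is `(c^2+1)/(c(c-1))` or `c/(c-1)`), `e b ≠ 0`, `s b ≠ 0`, `t b ≠ 0`.
* `col_PM`: the exchanged data: main entries `α (-d) - d = - (1 + α) d`, `d ≠ - e`; the labels in
  terms of the other end `y` (`y' = y + δ`): `L = y + (δ + T δ)`, `Lt = y + ((δ + θ) + T (δ + θ))`.
-/

namespace Pool.Agent.Lib.MP_db622c_co.PU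

open Pool.Agent.Lib.MP_db622c_co Pool.Agent.Lib.MP_db622c_co.CB Pool.Agent.Lib.MP_db622c_co.PT

variable {F : Type} [Field F] {K : Type} [AddCommGroup K] {sK : K → K → ℤ} {T ν β : K → K}

private theorem pmc_mA1 {c : F} (hc : COK c) (b : Bool) : 1 + mA c b ≠ 0 := by
  have h0 := hc.c0
  have h1 := hc.c1
  have h3 := hc.c3
  cases b
  · have h : 1 + mA c false = (c * c + 1) / (c * (c - 1)) := by
      show 1 + (c + 1) / (c * (c - 1)) = (c * c + 1) / (c * (c - 1))
      field_simp
      ring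
    rw [h]
    exact div_ne_zero h3 (mul_ne_zero h0 h1)
  · have h : 1 + mA c true = c / (c - 1) := by
      show 1 + 1 / (c - 1) = c / (c - 1)
      field_simp
      ring
    rw [h]
    exact div_ne_zero h0 h1

private theorem pmc_mT {c : F} (hc : COK c) (b : Bool) : mT c b ≠ 0 := by
  cases b
  · exact hc.c2
  · exact hc.c3

private theorem pmc_te {c : F} (hc : COK c) (b : Bool) : mT c (!b) = (1 + mA c b) * mE c b := by
  have h0 := hc.c0
  have h1 := hc.c1
  cases b
  · show c * c + 1 = (1 + (c + 1) / (c * (c - 1))) * (c * (c - 1))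
    field_simp
    ring
  · show c + 1 = (1 + 1 / (c - 1)) * ((c * c - 1) / c)
    field_simp
    ring

private theorem pmc_z {c : F} (b : Bool) (d : F) : mA c b * (-d) - d = -((1 + mA c b) * d) := by
  ring

theorem col_PM (HK : KB sK T ν β) {c : F} (hc : COK c) {ty : K → Bool} {θ : K}
    (hθ : ∀ δ, ty (δ + θ) = !(ty δ)) {PN : K → K → K} (hP : IsLat PN) :
    RowOK (fun _ _ => (0 : F)) (fun y y' => PN y' y) (fun y y' => PN y' y)
      (fun y y' => y' + T (y' + y)) (fun y y' => y' + T (y' + y) + (θ + T θ))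
      (fun y y' => y' + T (y' + y + θ)) (fun δ d => mA c (ty δ) * (-d) - d)
      (fun δ => - mE c (ty δ)) (fun δ => mT c (ty δ)) (fun δ => mS c (ty δ)) := by
  constructor
  · exact fun y y' y'' h => hP.col y' y'' y h
  · intro y y' y'' h
    have h' : y' + T (y' + (y + θ)) = y'' + T (y'' + (y + θ)) := by
      simpa only [add_assoc] using h
    exact HK.L3 h'
  · exact fun y y' y'' h => HK.L3 h
  · intro δ d d' _ _ _ _ h
    have h' : mA c (ty δ) * (-d) - d = mA c (ty δ) * (-d') - d' := h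
    rw [pmc_z, pmc_z] at h'
    exact mul_left_cancel₀ (pmc_mA1 hc _) (neg_injective h')
  · exact fun y y' y'' _ h => hP.col y' y'' y h
  · intro y y' y'' _ h
    exact HK.L3 (add_right_cancel h)
  · intro y y' y'' h
    exact absurd h.symm (pmc_mT hc _)
  · intro y y' y'' d hd _ _ h
    have h' : mA c (ty (y + y')) * (-d) - d = 0 := h
    rw [pmc_z] at h'
    exact mul_ne_zero (pmc_mA1 hc _) hd (neg_eq_zero.mp h')
  · intro y y' y'' d hd hde h h2
    have h' : y' + T (y' + y) = (y'' + θ) + T ((y'' + θ) + y) := by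
      have e1 : (y'' + θ) + y = (y'' + y) + θ := by abel
      rw [e1, HK.Tadd (y'' + y) θ]
      have h3 : y' + T (y' + y) = y'' + T (y'' + y) + (θ + T θ) := h
      rw [h3]
      abel
    have h1 : y' = y'' + θ := HK.L3 h'
    have h4 : ty (y + y'') = !(ty (y + y')) := by
      rw [h1, ← add_assoc, hθ, Bool.not_not]
    have h5 : mA c (ty (y + y')) * (-d) - d = mT c (ty (y + y'')) := h2
    rw [h4, pmc_te hc, pmc_z] at h5
    have h6 : d = - mE c (ty (y + y')) := by
      have h7 : (1 + mA c (ty (y + y'))) * (-d) = (1 + mA c (ty (y + y'))) * mE c (ty (y + y')) := by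
        rw [← h5]
        ring
      have h8 := mul_left_cancel₀ (pmc_mA1 hc _) h7
      rw [← h8, neg_neg]
    exact hde h6

end Pool.Agent.Lib.MP_db622c_co.PU
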