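import Pool.Agent.Lib.MP_db622c_co.PU.PMd

/-!
# PU-PMm: the Latin square orthogonal to the square of a left factor

`V = F` a field, `c` with `c`, `c - 1`, `c + 1`, `c ^ 2 + 1` not zero.
The square `MZ` has on the level `δ` the data `z' d = d / (ρ - 1)`, `e' = ρ - 1`, `s' = 1`, `t' = ρ`,
`ρ = mR c b`; the square `PM` has the data `mA c b * d`, `mE c b`, `mS c b`, `mT c b`.
`z' d - z d = κ d` with `κ e' = s' - s`, `κ e = t' - t`.
-/

namespace Pool.Agent.Lib.MP_db622c_co.PU

open Pool.Agent.Lib.MP_db622c_co Pool.Agent.Lib.MP_db622c_co.CB Pool.Agent.Lib.MP_db622c_co.PT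

variable {F : Type} [Field F]

private theorem pupmm_aux {z' z : F → F} {e' s' t' e s t κ : F} (hκ : κ ≠ 0)
    (hd : ∀ d, z' d - z d = κ * d) (h1 : κ * e' = s' - s) (h2 : κ * e = t' - t)
    (he : e' ≠ e) : MmOK z' e' s' t' z e s t := by
  refine ⟨he, ?_, ?_, ?_, ?_⟩
  · rw [← h1, ← h2]
    exact fun h => he (mul_left_cancel₀ hκ h)
  · intro d d' _ _ _ _ h
    rw [hd, hd] at h
    exact mul_left_cancel₀ hκ h
  · intro d hd1 _ h
    rw [hd, ← h1] at h
    exact hd1 (mul_left_cancel₀ hκ h)
  · intro d _ hd2 h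
    rw [hd, ← h2] at h
    exact hd2 (mul_left_cancel₀ hκ h)

theorem mm_PM {c : F} (hc : COK c) (b : Bool) :
    MmOK (V := F) (fun d => d / (mR c b - 1)) (mR c b - 1) 1 (mR c b)
      (fun d => mA c b * d) (mE c b) (mS c b) (mT c b) := by
  have c0 := hc.c0
  have c1 := hc.c1
  have c2 := hc.c2
  have c4 : c * c - 1 ≠ 0 := by
    have h : c * c - 1 = (c - 1) * (c + 1) := by ring
    rw [h]
    exact mul_ne_zero c1 c2
  cases b with
  | false =>
    simp only [mR, mA, mE, mS, mT, Bool.false_eq_true, if_false]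
    refine pupmm_aux (κ := - 1 / (c * (c - 1))) ?_ ?_ ?_ ?_ ?_
    · exact div_ne_zero (neg_ne_zero.2 one_ne_zero) (mul_ne_zero c0 c1)
    · intro d
      field_simp
      ring
    · field_simp
      ring
    · field_simp
      ring
    · intro h
      have h1 : (c - 1) * (c - 1) = 0 := by linear_combination - h
      exact (mul_ne_zero c1 c1) h1
  | true =>
    simp only [mR, mA, mE, mS, mT, if_true]
    refine pupmm_aux (κ := - c / (c * c - 1)) ?_ ?_ ?_ ?_ ?_
    · exact div_ne_zero (neg_ne_zero.2 c0) c4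
    · intro d
      have h : c * c - 1 = (c - 1) * (c + 1) := by ring
      rw [h]
      field_simp
      ring
    · rw [div_mul_cancel₀ _ c4]
      ring
    · have h : c * c - 1 = (c - 1) * (c + 1) := by ring
      rw [h]
      field_simp
      ring
    · intro h
      have h0 : (c * c - 1) / c * c = c * c - 1 := div_mul_cancel₀ _ c0
      have h1 : (c * c - 1) * (c - 1) = 0 := by linear_combination c * h + h0
      exact (mul_ne_zero c4 c1) h1

end Pool.Agent.Lib.MP_db622c_co.PU
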