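import Pool.Agent.Lib.MP_db622c_co.PU.PMd

/-!
# PU-PMr: the Latin square orthogonal to the square of a left factor

`V = F` a field, `c` with `c`, `c - 1`, `c + 1`, `c ^ 2 + 1` not zero; `ty : K → Bool` with
`ty (δ + θ) = ! ty δ`.  The level `δ` has the type `ty δ`.
The square `MZ` has on the level `δ` the data `z' d = d / (ρ - 1)`, `e' = ρ - 1`, `s' = 1`, `t' = ρ`,
`ρ = mR c b` (`c` or `c ^ 2`), `b = ty δ`.
The square `PM` has the data `z d = α d`, `e`, `s`, `t` with
* type false: `α = (c+1)/(c(c-1))`, `e = c(c-1)`, `s = (c+1)/c`, `t = c+1`;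
* type true: `α = 1/(c-1)`, `e = (c^2-1)/c`, `s = c+1`, `t = c^2+1`.
Then for each type `b` (`!b` the other one): `s (!b) = α b * e b`, `t (!b) = (1 + α b) * e b`;
`α b ≠ 0`, `1 + α b ≠ 0` (it is `(c^2+1)/(c(c-1))` or `c/(c-1)`), `e b ≠ 0`, `s b ≠ 0`, `t b ≠ 0`.
* `row_PM` (`RowOK`): labels `L = y + T (y+y')`, `Ls = y + T (y+y'+θ)`, `Lt = y + T (y+y') + (θ + Tθ)`;
  li: `hPN`; lt, l, ss: `HK.L1`, `HK.Ti`; zi: `α ≠ 0`; dd: `hPN`; ds: `s ≠ 0`; md: `α d ≠ 0`; ms: the
  labels give `y + y' = y + y'' + θ`, so the types are different and `s = α e` for the type of the main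
  entry, but `d ≠ e`.
-/

namespace Pool.Agent.Lib.MP_db622c_co.PU

open Pool.Agent.Lib.MP_db622c_co Pool.Agent.Lib.MP_db622c_co.CB Pool.Agent.Lib.MP_db622c_co.PT

variable {F : Type} [Field F] {K : Type} [AddCommGroup K] {sK : K → K → ℤ} {T ν β : K → K}

private theorem pmr_mA {c : F} (hc : COK c) (b : Bool) : mA c b ≠ 0 := by
  have h0 := hc.c0
  have h1 := hc.c1
  have h2 := hc.c2
  cases b
  · simp only [mA]
    exact div_ne_zero h2 (mul_ne_zero h0 h1)
  · simp only [mA]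
    exact div_ne_zero one_ne_zero h1

private theorem pmr_mS {c : F} (hc : COK c) (b : Bool) : mS c b ≠ 0 := by
  have h0 := hc.c0
  have h2 := hc.c2
  cases b
  · simp only [mS]
    exact div_ne_zero h2 h0
  · simp only [mS]
    exact h2

private theorem pmr_se {c : F} (hc : COK c) (b : Bool) : mS c (!b) = mA c b * mE c b := by
  have h0 := hc.c0
  have h1 := hc.c1
  cases b
  · show c + 1 = (c + 1) / (c * (c - 1)) * (c * (c - 1))
    rw [div_mul_cancel₀ _ (mul_ne_zero h0 h1)]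
  · show (c + 1) / c = 1 / (c - 1) * ((c * c - 1) / c)
    rw [div_mul_div_comm, one_mul, div_eq_div_iff h0 (mul_ne_zero h1 h0)]
    ring

theorem row_PM (HK : KB sK T ν β) {c : F} (hc : COK c) {ty : K → Bool} {θ : K}
    (hθ : ∀ δ, ty (δ + θ) = !(ty δ)) {PN : K → K → K} (hP : IsLat PN) :
    RowOK (fun _ _ => (0 : F)) PN PN (fun y y' => y + T (y + y')) (fun y y' => y + T (y + y' + θ))
      (fun y y' => y + T (y + y') + (θ + T θ)) (fun δ d => mA c (ty δ) * d)
      (fun δ => mE c (ty δ)) (fun δ => mS c (ty δ)) (fun δ => mT c (ty δ)) := by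
  have hty : ∀ δ δ' : K, δ = δ' + θ → ty δ' = !(ty δ) := by
    intro δ δ' h
    rw [h, hθ, Bool.not_not]
  constructor
  · exact fun y y' y'' h => hP.row y y' y'' h
  · exact fun y y' y'' h => HK.L1 (add_right_cancel h)
  · exact fun y y' y'' h => HK.L1 h
  · intro δ d d' _ _ _ _ h
    exact mul_left_cancel₀ (pmr_mA hc _) h
  · exact fun y y' y'' _ h => hP.row y y' y'' h
  · intro y y' y'' _ h
    exact add_left_cancel (add_right_cancel (HK.Ti (add_left_cancel h)))
  · intro y y' y'' h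
    exact absurd h.symm (pmr_mS hc _)
  · intro y y' y'' d hd _ _
    exact mul_ne_zero (pmr_mA hc _) hd
  · intro y y' y'' d hd hde h h2
    have h1 : y + y' = y + y'' + θ := HK.Ti (add_left_cancel h)
    rw [hty _ _ h1, pmr_se hc] at h2
    exact hde (mul_left_cancel₀ (pmr_mA hc _) h2)

end Pool.Agent.Lib.MP_db622c_co.PU
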