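import Pool.Agent.Lib.MP_db622c_co.PU.Sq
import Pool.Agent.Lib.MP_db622c_co.PU.MM
import Pool.Agent.Lib.MP_db622c_co.PU.PMr
import Pool.Agent.Lib.MP_db622c_co.PU.PMc
import Pool.Agent.Lib.MP_db622c_co.PU.PMm

/-!
# PU-PM: the Latin square orthogonal to the square of a left factor
-/

namespace Pool.Agent.Lib.MP_db622c_co.PU

open Pool.Agent.Lib.MP_db622c_co Pool.Agent.Lib.MP_db622c_co.CB Pool.Agent.Lib.MP_db622c_co.PT

variable {F : Type} [Field F] {K : Type} [AddCommGroup K] {sK : K → K → ℤ} {T ν β : K → K}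

theorem isLat_PM [DecidableEq F] (HK : KB sK T ν β) {c : F} (hc : COK c) {ty : K → Bool} {θ : K}
    (hθ : ∀ δ, ty (δ + θ) = !(ty δ)) {PN : K → K → K} (hP : IsLat PN) :
    IsLat (PM c T ty θ PN) :=
  isLat_SqK (row_PM HK hc hθ hP) (col_PM HK hc hθ hP)

theorem isMate_PM [DecidableEq F] (HK : KB sK T ν β) {c : F} (hc : COK c) {ty : K → Bool} {θ : K}
    {N PN : K → K → K} (hN : IsMate N PN) :
    IsMate (MZ N ν (fun δ d => d / (mR c (ty δ) - 1)) (fun δ => mR c (ty δ) - 1) (fun _ => 1)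
      (fun δ => mR c (ty δ))) (PM c T ty θ PN) := by
  refine isMate_MZ_SqK HK hN (fun δ => mm_PM hc (ty δ)) (fun δ => zero_div _) ?_
    (fun δ => mul_zero _) ?_ ?_ ?_ ?_
  · intro δ
    cases ty δ
    · exact hc.c1
    · show c * c - 1 ≠ 0
      have h5 : c * c - 1 = (c - 1) * (c + 1) := by ring
      rw [h5]
      exact mul_ne_zero hc.c1 hc.c2
  · intro δ
    cases ty δ
    · exact mul_ne_zero hc.c0 hc.c1
    · show (c * c - 1) / c ≠ 0
      have h5 : c * c - 1 = (c - 1) * (c + 1) := by ring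
      rw [h5]
      exact div_ne_zero (mul_ne_zero hc.c1 hc.c2) hc.c0
  · intro δ y v h
    have h' : y + T (y + (y + δ)) = v + T (v + (v + δ)) := h
    rw [HK.cc, HK.cc] at h'
    exact add_right_cancel h'
  · intro δ y v h
    have h' : y + T (y + (y + δ) + θ) = v + T (v + (v + δ) + θ) := h
    rw [HK.cc, HK.cc] at h'
    exact add_right_cancel h'
  · intro δ y v h
    have h' : y + T (y + (y + δ)) + (θ + T θ) = v + T (v + (v + δ)) + (θ + T θ) := h
    rw [HK.cc, HK.cc] at h'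
    exact add_right_cancel (add_right_cancel h')

end Pool.Agent.Lib.MP_db622c_co.PU
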