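import Pool.Agent.Lib.MP_db622c_co.PT.TIEnd
import Pool.Agent.Lib.MP_db622c_co.CB.PaleyBase

/-!
# PU-Pal: starters and squares over a finite field with `3 (mod 4)` elements

The lemmas of `PT/Paley.lean` (public), and the orientation `paO` of the starter `{z, s z}`.
-/

namespace Pool.Agent.Lib.MP_db622c_co.PU

open Pool.Agent.Lib.MP_db622c_co Pool.Agent.Lib.MP_db622c_co.CB Pool.Agent.Lib.MP_db622c_co.PT

variable {F : Type} [Field F] [Fintype F] [DecidableEq F]

theorem pa_neg1 (h3 : Fintype.card F % 4 = 3) : (-1 : F) ≠ 1 := by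
  intro h
  exact Ring.neg_one_ne_one_of_char_ne_two (pb_char h3) h

theorem pa_ne0 {x : F} (h : quadraticChar F x = 1) : x ≠ 0 := by
  intro h0
  rw [h0, quadraticChar_zero] at h
  exact absurd h (by norm_num)

theorem pa_neg_ne {x : F} (hx : x ≠ 0) : - quadraticChar F x ≠ quadraticChar F x := by
  rcases quadraticChar_dichotomy hx with h | h <;> rw [h] <;> norm_num

theorem pa_eq_neg {x y : F} (hx : x ≠ 0) (hy : y ≠ 0)
    (h : ¬ quadraticChar F x = quadraticChar F y) : quadraticChar F x = - quadraticChar F y := by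
  rcases quadraticChar_dichotomy hx with h1 | h1 <;> rcases quadraticChar_dichotomy hy with h2 | h2
  · exact absurd (h1.trans h2.symm) h
  · rw [h1, h2]
    norm_num
  · rw [h1, h2]
  · exact absurd (h1.trans h2.symm) h

theorem pa_chi (h3 : Fintype.card F % 4 = 3) : ChiOK (V := F) (fun x => quadraticChar F x) where
  zero := quadraticChar_zero
  one := fun _ hx => quadraticChar_dichotomy hx
  neg := fun x => pb_chi_neg h3 x
  corr := fun _ hc => pb_corr h3 hc

theorem pa_g (h3 : Fintype.card F % 4 = 3) : StOK (V := F) 0 (fun d => - d / 2) where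
  neg := by
    intro d _
    have h2 := pb_two h3
    field_simp
    ring
  inj := by
    intro d d' _ _ h
    have h2 := pb_two h3
    have h' : - d / 2 = - d' / 2 := h
    rw [div_left_inj' h2] at h'
    exact neg_injective h'
  ne := by
    intro d hd h
    have h2 := pb_two h3
    exact (div_ne_zero (neg_ne_zero.2 hd) h2) h

theorem pa_sep (h3 : Fintype.card F % 4 = 3) :
    SepOK (V := F) (fun x => quadraticChar F x) 0 (fun d => - d / 2) where
  inf := by
    unfold chi1
    rw [if_pos rfl]
  fin := by
    intro d hd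
    have h2 := pb_two h3
    have e1 : - d / 2 + d = - (- d / 2) := by
      field_simp
      ring
    have n1 : - d / 2 ≠ 0 := div_ne_zero (neg_ne_zero.2 hd) h2
    have n2 : - (- d / 2) ≠ 0 := neg_ne_zero.2 n1
    show chi1 _ (- d / 2 + d) = - chi1 _ (- d / 2)
    rw [e1]
    unfold chi1
    rw [if_neg n1, if_neg n2]
    exact pb_chi_neg h3 _

/-- the second starter -/
def paT (s : F) (d : F) : F :=
  if quadraticChar F d = quadraticChar F (s - 1) then d / (s - 1) else s * d / (1 - s)

private theorem paT_pos {s d : F} (h : quadraticChar F d = quadraticChar F (s - 1)) :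
    paT s d = d / (s - 1) := if_pos h

private theorem paT_neg {s d : F} (h : ¬ quadraticChar F d = quadraticChar F (s - 1)) :
    paT s d = s * d / (1 - s) := if_neg h

theorem pa_h (h3 : Fintype.card F % 4 = 3) {s : F} (hs : quadraticChar F s = -1)
    (hs1 : s - 1 ≠ 0) : StOK (V := F) 0 (paT s) := by
  have hs0 : s ≠ 0 := rho_ne hs
  have hs2 : 1 - s ≠ 0 := by
    intro h
    apply hs1
    linear_combination -h
  refine ⟨?_, ?_, ?_⟩
  · intro d hd
    by_cases h : quadraticChar F d = quadraticChar F (s - 1)
    · have h' : ¬ quadraticChar F (-d) = quadraticChar F (s - 1) := by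
        rw [pb_chi_neg h3, h]
        exact pa_neg_ne hs1
      rw [paT_pos h, paT_neg h']
      field_simp
      ring
    · have h' : quadraticChar F (-d) = quadraticChar F (s - 1) := by
        rw [pb_chi_neg h3, pa_eq_neg hd hs1 h, neg_neg]
      rw [paT_neg h, paT_pos h']
      field_simp
      ring
  · have key : ∀ d d' : F, d ≠ 0 → d' ≠ 0 → quadraticChar F d = quadraticChar F (s - 1) →
        ¬ quadraticChar F d' = quadraticChar F (s - 1) → d / (s - 1) = s * d' / (1 - s) → False := by
      intro d d' _ _ h h' he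
      rw [div_eq_div_iff hs1 hs2] at he
      have h1 : (1 - s) * (d + s * d') = 0 := by linear_combination he
      have h2 : d + s * d' = 0 := by
        rcases mul_eq_zero.1 h1 with h1 | h1
        · exact absurd h1 hs2
        · exact h1
      have h4 : d = - (s * d') := by linear_combination h2
      have h5 : quadraticChar F d = quadraticChar F d' := by
        rw [h4, pb_chi_neg h3, map_mul, hs]
        ring
      exact h' (h5.symm.trans h)
    intro d d' hd hd' he
    by_cases h : quadraticChar F d = quadraticChar F (s - 1) <;>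
      by_cases h' : quadraticChar F d' = quadraticChar F (s - 1)
    · rw [paT_pos h, paT_pos h', div_left_inj' hs1] at he
      exact he
    · rw [paT_pos h, paT_neg h'] at he
      exact (key d d' hd hd' h h' he).elim
    · rw [paT_neg h, paT_pos h'] at he
      exact (key d' d hd' hd h' h he.symm).elim
    · rw [paT_neg h, paT_neg h', div_left_inj' hs2] at he
      exact mul_left_cancel₀ hs0 he
  · intro d hd
    by_cases h : quadraticChar F d = quadraticChar F (s - 1)
    · rw [paT_pos h]
      exact div_ne_zero hd hs1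
    · rw [paT_neg h]
      exact div_ne_zero (mul_ne_zero hs0 hd) hs2

theorem pa_or (h3 : Fintype.card F % 4 = 3) {s : F}
    (hs1 : s - 1 ≠ 0) (hs2 : s + 1 ≠ 0) : OrOK (V := F) 0 (fun d => - d / 2) 0 (paT s) := by
  have h2 := pb_two h3
  have hs3 : 1 - s ≠ 0 := by
    intro h
    apply hs1
    linear_combination -h
  obtain ⟨c, hc⟩ : ∃ c : F, c = (s + 1) / (2 * (s - 1)) := ⟨_, rfl⟩
  have c0 : c ≠ 0 := by
    rw [hc]
    exact div_ne_zero hs2 (mul_ne_zero h2 hs1)
  have e1 : ∀ d : F, quadraticChar F d = quadraticChar F (s - 1) → - d / 2 - paT s d = - (c * d) := by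
    intro d h
    rw [paT_pos h, hc]
    field_simp
    ring
  have e2 : ∀ d : F, ¬ quadraticChar F d = quadraticChar F (s - 1) → - d / 2 - paT s d = c * d := by
    intro d h
    have e3 : s * d / (1 - s) = - (s * d / (s - 1)) := by
      rw [← neg_sub s 1, div_neg]
    rw [paT_neg h, hc, e3]
    field_simp
    ring
  refine ⟨?_, ?_⟩
  · intro d hd he
    have he' : - d / 2 - paT s d = 0 := by
      rw [sub_zero] at he
      exact he
    by_cases h : quadraticChar F d = quadraticChar F (s - 1)
    · rw [e1 d h] at he'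
      exact (neg_ne_zero.2 (mul_ne_zero c0 hd)) he'
    · rw [e2 d h] at he'
      exact (mul_ne_zero c0 hd) he'
  · intro d d' _ _ he
    have he' : - d / 2 - paT s d = - d' / 2 - paT s d' := he
    by_cases h : quadraticChar F d = quadraticChar F (s - 1) <;>
      by_cases h' : quadraticChar F d' = quadraticChar F (s - 1)
    · rw [e1 d h, e1 d' h'] at he'
      left
      exact mul_left_cancel₀ c0 (neg_injective he').symm
    · rw [e1 d h, e2 d' h'] at he'
      right
      apply mul_left_cancel₀ c0
      rw [← he', mul_neg]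
    · rw [e2 d h, e1 d' h'] at he'
      right
      apply mul_left_cancel₀ c0
      rw [mul_neg, he', neg_neg]
    · rw [e2 d h, e2 d' h'] at he'
      left
      exact mul_left_cancel₀ c0 he'.symm

omit [Fintype F] [DecidableEq F] in
theorem pa_sq {r : F} (hr0 : r ≠ 0) (hr1 : r - 1 ≠ 0) :
    SqOK (V := F) (fun d => d / (r - 1)) (r - 1) 1 r := by
  have e1 : ∀ d : F, d / (r - 1) + d = r * d / (r - 1) := by
    intro d
    field_simp
    ring
  refine ⟨hr1, ?_, ?_, ?_, ?_⟩
  · intro d d' _ _ h
    have h' : d / (r - 1) = d' / (r - 1) := h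
    rw [div_left_inj' hr1] at h'
    exact h'
  · intro d d' _ _ h
    have h' : d / (r - 1) + d = d' / (r - 1) + d' := h
    rw [e1, e1, div_left_inj' hr1] at h'
    exact mul_left_cancel₀ hr0 h'
  · intro d hd h
    have h' : d / (r - 1) = 1 := h
    rw [div_eq_iff hr1, one_mul] at h'
    exact hd h'
  · intro d hd h
    have h' : d / (r - 1) + d = r := h
    rw [e1, div_eq_iff hr1] at h'
    exact hd (mul_left_cancel₀ hr0 h')

theorem pa_non {r : F} (hr : quadraticChar F r = 1) (hr1 : r - 1 ≠ 0) :
    NonOK (V := F) (fun x => quadraticChar F x) (fun d => d / (r - 1)) (r - 1) 1 r := by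
  have hr0 := pa_ne0 hr
  have e1 : ∀ d : F, d / (r - 1) + d = r * (d / (r - 1)) := by
    intro d
    field_simp
    ring
  refine ⟨?_, ?_, ?_⟩
  · unfold chi1
    rw [if_neg one_ne_zero]
    exact map_one _
  · unfold chi1
    rw [if_neg hr0]
    exact hr
  · intro d _
    show chi1 _ (d / (r - 1) + d) = chi1 _ (d / (r - 1))
    rw [e1]
    unfold chi1
    by_cases h : d / (r - 1) = 0
    · rw [h, mul_zero]
    · rw [if_neg h, if_neg (mul_ne_zero hr0 h)]
      show quadraticChar F (r * (d / (r - 1))) = quadraticChar F (d / (r - 1))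
      rw [map_mul, hr, one_mul]

/-- the orientation -/
def paW (r d1 : F) (d : F) : Bool :=
  if d = r * d1 ∨ d = - (r * d1) then decide (quadraticChar F d = quadraticChar F d1)
  else decide (¬ quadraticChar F d = quadraticChar F d1)

theorem pa_anti (h3 : Fintype.card F % 4 = 3) {r d1 : F} (h1 : d1 ≠ 0) (d : F)
    (hd : d ≠ 0) : paW r d1 (-d) = !(paW r d1 d) := by
  have e1 : (-d = r * d1 ∨ -d = - (r * d1)) ↔ (d = r * d1 ∨ d = - (r * d1)) := by
    constructor
    · rintro (h | h)
      · right
        rw [← h, neg_neg]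
      · left
        exact neg_injective h
    · rintro (h | h)
      · right
        rw [h]
      · left
        rw [h, neg_neg]
  have e2 : quadraticChar F (-d) = quadraticChar F d1 ↔ ¬ quadraticChar F d = quadraticChar F d1 := by
    rw [pb_chi_neg h3]
    constructor
    · intro h h'
      rw [h'] at h
      exact pa_neg_ne h1 h
    · intro h
      rw [pa_eq_neg hd h1 h, neg_neg]
  unfold paW
  by_cases h : d = r * d1 ∨ d = - (r * d1)
  · rw [if_pos h, if_pos (e1.2 h)]
    by_cases h' : quadraticChar F d = quadraticChar F d1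
    · have h'' : ¬ quadraticChar F (-d) = quadraticChar F d1 := fun hh => (e2.1 hh) h'
      rw [decide_eq_true h', decide_eq_false h'']
      rfl
    · rw [decide_eq_false h', decide_eq_true (e2.2 h')]
      rfl
  · rw [if_neg h, if_neg (fun hh => h (e1.1 hh))]
    by_cases h' : quadraticChar F d = quadraticChar F d1
    · have h'' : ¬ quadraticChar F (-d) = quadraticChar F d1 := fun hh => (e2.1 hh) h'
      rw [decide_eq_true h'', decide_eq_false (fun hh => hh h')]
      rfl
    · rw [decide_eq_true h', decide_eq_false (fun hh => hh (e2.2 h'))]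
      rfl

theorem pa_cf (h3 : Fintype.card F % 4 = 3) {r : F} (hr : quadraticChar F r = 1)
    (hr1 : r - 1 ≠ 0) (hr2 : r + 1 ≠ 0) :
    CfOK (V := F) 0 (fun d => - d / 2) (paW r (2 * (r - 1) / (r + 1))) (fun d => d / (r - 1))
      (r - 1) 1 r := by
  have h2 := pb_two h3
  have hr0 := pa_ne0 hr
  obtain ⟨d1, hd1⟩ : ∃ d1 : F, d1 = 2 * (r - 1) / (r + 1) := ⟨_, rfl⟩
  have d10 : d1 ≠ 0 := by
    rw [hd1]
    exact div_ne_zero (mul_ne_zero h2 hr1) hr2
  rw [← hd1]
  have e1 : ∀ d : F, d / (r - 1) - - d / 2 = d / d1 := by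
    intro d
    rw [hd1]
    field_simp
    ring
  refine ⟨fun d hd => pa_anti h3 d10 d hd, ?_, ?_, ?_⟩
  · intro d d' _ _ _ _ h _
    have h' : d / (r - 1) - - d / 2 = d' / (r - 1) - - d' / 2 := h
    rw [e1, e1, div_left_inj' d10] at h'
    exact h'
  · intro d _ _ h
    have h' : d / (r - 1) - - d / 2 = 1 - 0 := h
    rw [e1, sub_zero, div_eq_iff d10, one_mul] at h'
    rw [h']
    have n1 : ¬ (d1 = r * d1 ∨ d1 = - (r * d1)) := by
      rintro (hh | hh)
      · have h5 : (r - 1) * d1 = 0 := by linear_combination -hh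
        exact (mul_ne_zero hr1 d10) h5
      · have h5 : (r + 1) * d1 = 0 := by linear_combination hh
        exact (mul_ne_zero hr2 d10) h5
    unfold paW
    rw [if_neg n1]
    exact decide_eq_false (fun hh => hh rfl)
  · intro d _ _ h
    have h' : d / (r - 1) - - d / 2 = r - 0 := h
    rw [e1, sub_zero, div_eq_iff d10] at h'
    rw [h']
    unfold paW
    rw [if_pos (Or.inl rfl)]
    refine decide_eq_true ?_
    rw [map_mul, hr, one_mul]

theorem pa_exists (h4 : Fintype.card F % 4 = 3) (h7 : 7 ≤ Fintype.card F) :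
    ∃ r : F, quadraticChar F r = 1 ∧ r - 1 ≠ 0 ∧ r + 1 ≠ 0 := by
  have h1 : ∃ x : F, x ∉ ({0, 1, -1} : Finset F) := by
    by_contra hcon
    push Not at hcon
    have h2 : (Finset.univ : Finset F) ⊆ {0, 1, -1} := fun x _ => hcon x
    have h3 := Finset.card_le_card h2
    rw [Finset.card_univ] at h3
    have h5 : ({0, 1, -1} : Finset F).card ≤ 3 := Finset.card_le_three
    omega
  obtain ⟨x, hx⟩ := h1
  rw [Finset.mem_insert, Finset.mem_insert, Finset.mem_singleton, not_or, not_or] at hx
  obtain ⟨hx0, hx1, hx2⟩ := hx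
  have hc : quadraticChar F (x * x) = 1 := by
    rw [map_mul, ← pow_two]
    exact quadraticChar_sq_one hx0
  refine ⟨x * x, hc, ?_, ?_⟩
  · intro h
    have h5 : (x - 1) * (x + 1) = 0 := by linear_combination h
    rcases mul_eq_zero.1 h5 with h6 | h6
    · exact hx1 (by linear_combination h6)
    · exact hx2 (by linear_combination h6)
  · intro h
    have h5 : x * x = -1 := by linear_combination h
    rw [h5, pb_neg h4] at hc
    exact absurd hc (by norm_num)

/-- the orientation of the starter: the pair `(x, x + d)` starts at its square end -/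
def paO (s : F) (d : F) : Bool := decide (quadraticChar F d = quadraticChar F (s - 1))

theorem paO_neg (h3 : Fintype.card F % 4 = 3) {s : F} (hs1 : s - 1 ≠ 0) (d : F) (hd : d ≠ 0) :
    paO s (-d) = !(paO s d) := by
  unfold paO
  rw [pb_chi_neg h3]
  by_cases h : quadraticChar F d = quadraticChar F (s - 1)
  · rw [decide_eq_true h, h, decide_eq_false (pa_neg_ne hs1)]
    rfl
  · rw [decide_eq_false h, pa_eq_neg hd hs1 h, neg_neg, decide_eq_true rfl]
    rfl

theorem paD (h3 : Fintype.card F % 4 = 3) {s : F} (hs1 : s - 1 ≠ 0) : (s - 1) + (s - 1) ≠ 0 := by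
  rw [← two_mul]
  exact mul_ne_zero (pb_two h3) hs1

end Pool.Agent.Lib.MP_db622c_co.PU
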