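import Pool.Agent.Lib.MP_db622c_co.PU.KBa

/-!
# PU-RUf: the rounds form a one-factorization

Write `δ = y + y'`.  `hτ.neg D`: `τ (-D) = τ D + D`; `hτ.ne`: `τ d ≠ x1` for `d ≠ 0`; `hτ.inj`.
Recommended: one rewriting lemma for each kind of pair
(a) `(some x, y), (none, y')`; (b) `(some x, y), (some x, y')`; (c) `(some x, y), (some (x+D), y')`
(case `x' - x = D`; then `x ≠ x'` as `D ≠ 0`); (d) `x - x' = D` (then `x ≠ x'`, and `x' - x ≠ D` as
`D + D ≠ 0`); (e) `x' - x = d ≠ 0, D, -D`.
* ne: only entries with first component `none` matter: `rK y y' ≠ 0` (`W.rof.ne`), and in (c), (d)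
  `w .. = (false, 0)` is excluded by `W.w0`.
* symm: (none, none): `W.rof.symm`; (b): `W.us`; (c) and (d) are exchanged; (e): class: `hτ.neg`;
  label: `hω`, `add_comm`.
* inj, row `(none, y)`: the entries `(none, rK y y')` (`W.rof.inj`) and `(some (x' - x1), y' + T δ)`:
  the first component gives `x'`, the second `y'` (`H.L3` after `add_comm`).
* inj, row `(some x, y)`: the first components are: (a) `x - x1`, (b) `x - τ D` or `x - (τ D + D)`,
  (c) `x - τ D` or `none`, (d) `x' - τ D = x - (τ D + D) = x - τ (-D)` or `none`, (e) `x - τ d`.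
  a-a: `H.L1`.  a-b, a-c, a-d, a-e: `hτ.ne`.  b-b: equal first components give equal Booleans
  (`D ≠ 0`), then `W.ui`.  b-c: equal only if `(u y y').1 = true`, `(w y y'').1 = true`, then `W.u1`.
  b-d: equal only if `(u y y').1 = false`, `(w y'' y).1 = true`, then `W.u2`.  b-e, c-e, d-e:
  `hτ.inj` (`d ≠ D`, `d ≠ -D`).  c-c: `W.wr`.  d-d: `W.wc`.  c-d: both `some`: `D ≠ 0`; both `none`:
  `W.wi`.  e-e: `hτ.inj` gives the same `d`, then the labels: `H.L1` or `H.L3`
  (`y' + T (y + y') = y'' + T (y + y'')`; use `add_comm`).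
-/

namespace Pool.Agent.Lib.MP_db622c_co.PU

open Pool.Agent.Lib.MP_db622c_co Pool.Agent.Lib.MP_db622c_co.CB Pool.Agent.Lib.MP_db622c_co.PT

variable {V K : Type} [AddCommGroup V] [DecidableEq V] [AddCommGroup K] {sK : K → K → ℤ}
  {T ν β : K → K} {rK : K → K → K} {u w : K → K → Bool × K}

private theorem sm {x a b : V} (h : (some (x - a) : Option V) = some (x - b)) : a = b := by
  simpa using h

/-- the entries of the row `(some x, y)` -/
private def cl (x1 : V) (τ : V → V) (ω : V → Bool) (D : V) (T : K → K) (u w : K → K → Bool × K)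
    (x : V) (y : K) (j : Option V) (y' : K) (v : Option V) (l : K) : Prop :=
  (j = none ∧ v = some (x - x1) ∧ l = y + T (y + y')) ∨
  (j = some x ∧ y' ≠ y ∧ v = some (x - (if (u y y').1 then τ D else τ (-D))) ∧ l = (u y y').2) ∨
  (j = some (x + D) ∧ v = (if (w y y').1 then some (x - τ D) else none) ∧ l = (w y y').2) ∨
  (j = some (x + -D) ∧ v = (if (w y' y).1 then some (x - τ (-D)) else none) ∧
    l = (w y' y).2) ∨
  (∃ d, d ≠ 0 ∧ d ≠ D ∧ d ≠ -D ∧ j = some (x + d) ∧ v = some (x - τ d) ∧
    l = if ω d then y + T (y + y') else y' + T (y + y'))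

private theorem cl_RU {x1 : V} {τ : V → V} {ω : V → Bool} {D : V} (hτ : StOK x1 τ) (hD : D ≠ 0)
    (x : V) (y : K) (q : Option V × K) (hq : q ≠ (some x, y)) :
    cl x1 τ ω D T u w x y q.1 q.2 (RU x1 τ ω D T rK u w (some x, y) q).1
      (RU x1 τ ω D T rK u w (some x, y) q).2 := by
  obtain ⟨j, y'⟩ := q
  have hneg := hτ.neg D hD
  cases j with
  | none => exact Or.inl ⟨rfl, rfl, rfl⟩
  | some x' =>
    by_cases h1 : x = x'
    · subst h1
      right; left
      refine ⟨rfl, ?_, ?_, ?_⟩
      · intro h
        have h0 : y' = y := h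
        exact hq (by rw [h0])
      · simp only [RU, if_true]
        rw [hneg]
      · simp only [RU, if_true]
    · by_cases h2 : x' - x = D
      · right; right; left
        refine ⟨?_, ?_, ?_⟩
        · rw [← h2]
          simp
        · simp only [RU, if_neg h1, if_pos h2]
          rfl
        · simp only [RU, if_neg h1, if_pos h2]
      · by_cases h3 : x - x' = D
        · right; right; right; left
          refine ⟨?_, ?_, ?_⟩
          · rw [← h3]
            simp
          · simp only [RU, if_neg h1, if_neg h2, if_pos h3]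
            have h4 : x' - τ D = x - τ (-D) := by
              have hx : x' = x - D := by
                rw [← h3]
                abel
              rw [hneg, hx]
              abel
            rw [h4]
            rfl
          · simp only [RU, if_neg h1, if_neg h2, if_pos h3]
        · right; right; right; right
          refine ⟨x' - x, ?_, h2, ?_, ?_, ?_, ?_⟩
          · exact fun h => h1 (sub_eq_zero.1 h).symm
          · intro h
            apply h3
            rw [← neg_sub x' x, h, neg_neg]
          · simp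
          · simp only [RU, if_neg h1, if_neg h2, if_neg h3]
          · simp only [RU, if_neg h1, if_neg h2, if_neg h3]

private theorem cl_inj (H : KB sK T ν β) (W : WD rK u w) {x1 : V} {τ : V → V} {ω : V → Bool}
    {D : V} (hτ : StOK x1 τ) (hD : D ≠ 0) (hD2 : D + D ≠ 0) (x : V) (y : K)
    (j k : Option V) (y' y'' : K) (v : Option V) (l : K)
    (h : cl x1 τ ω D T u w x y j y' v l) (h' : cl x1 τ ω D T u w x y k y'' v l) :
    j = k ∧ y' = y'' := by
  have hD' : -D ≠ 0 := neg_ne_zero.2 hD
  have hDD : D ≠ -D := fun h => hD2 (by nth_rewrite 2 [h]; simp)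
  have n1 := hτ.ne D hD
  have n2 := hτ.ne (-D) hD'
  have n3 : τ D ≠ τ (-D) := fun h => hDD (hτ.inj _ _ hD hD' h)
  have n4 : ∀ (c : Bool), (if c then τ D else τ (-D)) ≠ x1 := by
    intro c
    cases c <;> simpa
  have n5 : ∀ (c : Bool) d, d ≠ 0 → d ≠ D → d ≠ -D → (if c then τ D else τ (-D)) ≠ τ d := by
    intro c d h0 h1 h2 h3
    cases c
    · exact h2 (hτ.inj _ _ h0 hD' (by simpa using h3.symm))
    · exact h1 (hτ.inj _ _ h0 hD (by simpa using h3.symm))
  -- the case b-c
  have bc : ∀ z z' : K, z ≠ y → some (x - (if (u y z).1 then τ D else τ (-D))) =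
      (if (w y z').1 then some (x - τ D) else none) → (u y z).2 ≠ (w y z').2 := by
    intro z z' hz h1 h2
    cases h3 : (w y z').1
    · rw [h3] at h1
      simp at h1
    · rw [h3] at h1
      have h4 := sm h1
      cases h5 : (u y z).1
      · rw [h5] at h4
        exact n3 (by simpa using h4.symm)
      · exact W.u1 y z z' hz h3 (Prod.ext h5 h2)
  have bd : ∀ z z' : K, z ≠ y → some (x - (if (u y z).1 then τ D else τ (-D))) =
      (if (w z' y).1 then some (x - τ (-D)) else none) → (u y z).2 ≠ (w z' y).2 := by
    intro z z' hz h1 h2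
    cases h3 : (w z' y).1
    · rw [h3] at h1
      simp at h1
    · rw [h3] at h1
      have h4 := sm h1
      cases h5 : (u y z).1
      · exact W.u2 y z z' hz h3 (Prod.ext h5 h2)
      · rw [h5] at h4
        exact n3 (by simpa using h4)
  have cd : ∀ z z' : K, (if (w y z).1 then some (x - τ D) else none) =
      (if (w z' y).1 then some (x - τ (-D)) else none) → (w y z).2 ≠ (w z' y).2 := by
    intro z z' h1 h2
    cases h3 : (w y z).1
    · cases h4 : (w z' y).1
      · exact W.wi y z z' h3 (Prod.ext (h3.trans h4.symm) h2)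
      · rw [h3, h4] at h1
        simp at h1
    · cases h4 : (w z' y).1
      · rw [h3, h4] at h1
        simp at h1
      · rw [h3, h4] at h1
        exact n3 (sm h1)
  have ac : ∀ (c : Bool) (d e : V), d ≠ e → some (x - d) ≠
      (if c then some (x - e) else none) := by
    intro c d e h1 h2
    cases c
    · simp at h2
    · exact h1 (sm h2)
  have ifw : ∀ (c c' : Bool) (a : V), (if c then some (x - a) else none) =
      (if c' then some (x - a) else none) → c = c' := by
    intro c c' a h1
    cases c <;> cases c' <;> simp at h1 <;> rfl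
  rcases h with ⟨rfl, h2, h3⟩ | ⟨rfl, h1, h2, h3⟩ | ⟨rfl, h2, h3⟩ | ⟨rfl, h2, h3⟩ |
    ⟨d, k1, k2, k3, rfl, h2, h3⟩ <;>
  rcases h' with ⟨rfl, g2, g3⟩ | ⟨rfl, g1, g2, g3⟩ | ⟨rfl, g2, g3⟩ | ⟨rfl, g2, g3⟩ |
    ⟨e, l1, l2, l3, rfl, g2, g3⟩ <;> rw [h2] at g2 <;> rw [h3] at g3
  · exact ⟨rfl, H.L1 g3⟩
  · exact absurd (sm g2).symm (n4 _)
  · exact absurd g2 (ac _ _ _ n1.symm)
  · exact absurd g2 (ac _ _ _ n2.symm)
  · exact absurd (sm g2).symm (hτ.ne e l1)
  · exact absurd (sm g2) (n4 _)
  · refine ⟨rfl, W.ui y y' y'' h1 g1 (Prod.ext ?_ g3)⟩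
    have h4 := sm g2
    cases h5 : (u y y').1 <;> cases h6 : (u y y'').1
    · rfl
    · rw [h5, h6] at h4
      exact absurd (by simpa using h4.symm) n3
    · rw [h5, h6] at h4
      exact absurd (by simpa using h4) n3
    · rfl
  · exact absurd g3 (bc _ _ h1 g2)
  · exact absurd g3 (bd _ _ h1 g2)
  · exact absurd (sm g2) (n5 _ e l1 l2 l3)
  · exact absurd g2.symm (ac _ _ _ n1.symm)
  · exact absurd g3.symm (bc _ _ g1 g2.symm)
  · exact ⟨rfl, W.wr y y' y'' (Prod.ext (ifw _ _ _ g2) g3)⟩
  · exact absurd g3 (cd _ _ g2)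
  · exact absurd g2.symm (ac _ _ _ fun h => l2 (hτ.inj _ _ l1 hD h))
  · exact absurd g2.symm (ac _ _ _ n2.symm)
  · exact absurd g3.symm (bd _ _ g1 g2.symm)
  · exact absurd g3.symm (cd _ _ g2.symm)
  · exact ⟨rfl, W.wc y' y'' y (Prod.ext (ifw _ _ _ g2) g3)⟩
  · exact absurd g2.symm (ac _ _ _ fun h => l3 (hτ.inj _ _ l1 hD' h))
  · exact absurd (sm g2) (hτ.ne d k1)
  · exact absurd (sm g2).symm (n5 _ d k1 k2 k3)
  · exact absurd g2 (ac _ _ _ fun h => k2 (hτ.inj _ _ k1 hD h))
  · exact absurd g2 (ac _ _ _ fun h => k3 (hτ.inj _ _ k1 hD' h))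
  · have h4 : d = e := hτ.inj _ _ k1 l1 (sm g2)
    subst h4
    refine ⟨rfl, ?_⟩
    cases h5 : ω d
    · rw [h5] at g3
      have g4 : y' + T (y + y') = y'' + T (y + y'') := by simpa using g3
      rw [add_comm y y', add_comm y y''] at g4
      exact H.L3 g4
    · rw [h5] at g3
      have g4 : y + T (y + y') = y + T (y + y'') := by simpa using g3
      exact H.L1 g4

theorem isOF_RU (H : KB sK T ν β) (W : WD rK u w) {x1 : V} {τ : V → V} {ω : V → Bool} {D : V}
    (hτ : StOK x1 τ) (hω : ∀ d, d ≠ 0 → ω (-d) = !(ω d)) (hD : D ≠ 0) (hD2 : D + D ≠ 0) :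
    IsOF (RU x1 τ ω D T rK u w) := by
  have hDD : ∀ {a b : V}, a - b = D → b - a ≠ D := by
    intro a b h1 h2
    apply hD2
    nth_rewrite 1 [← h1]
    rw [← h2]
    abel
  refine ⟨?_, ?_, ?_⟩
  · rintro ⟨j, y⟩ ⟨k, y'⟩ hne h0
    have hf : ((RU x1 τ ω D T rK u w (j, y) (k, y')).1 : Option V) = none := by
      rw [h0]; rfl
    have hs : (RU x1 τ ω D T rK u w (j, y) (k, y')).2 = 0 := by
      rw [h0]; rfl
    cases j with
    | none =>
      cases k with
      | none =>
        refine W.rof.ne y y' (fun h => hne (by rw [h])) hs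
      | some x' => simp [RU] at hf
    | some x =>
      cases k with
      | none => simp [RU] at hf
      | some x' =>
        by_cases h1 : x = x'
        · simp [RU, h1] at hf
        · by_cases h2 : x' - x = D
          · simp only [RU, if_neg h1, if_pos h2] at hf hs
            refine W.w0 y y' (Prod.ext ?_ hs)
            cases h3 : (w y y').1
            · rfl
            · rw [h3] at hf
              simp at hf
          · by_cases h3 : x - x' = D
            · simp only [RU, if_neg h1, if_neg h2, if_pos h3] at hf hs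
              refine W.w0 y' y (Prod.ext ?_ hs)
              cases h4 : (w y' y).1
              · rfl
              · rw [h4] at hf
                simp at hf
            · simp [RU, if_neg h1, if_neg h2, if_neg h3] at hf
  · rintro ⟨j, y⟩ ⟨k, y'⟩
    cases j with
    | none =>
      cases k with
      | none =>
        simp only [RU]
        rw [W.rof.symm]
      | some x' =>
        simp only [RU]
        rw [add_comm y y']
    | some x =>
      cases k with
      | none =>
        simp only [RU]
        rw [add_comm y y']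
      | some x' =>
        by_cases h1 : x = x'
        · subst h1
          simp only [RU, if_true]
          rw [W.us y y']
        · have h1' : x' ≠ x := fun h => h1 h.symm
          by_cases h2 : x' - x = D
          · have h3 := hDD h2
            simp only [RU, if_neg h1, if_neg h1', if_pos h2, if_neg h3]
          · by_cases h3 : x - x' = D
            · simp only [RU, if_neg h1, if_neg h1', if_neg h2, if_pos h3]
            · simp only [RU, if_neg h1, if_neg h1', if_neg h2, if_neg h3]
              have h4 : x' - x ≠ 0 := sub_ne_zero.2 h1'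
              have h5 := hω _ h4
              have h6 := hτ.neg _ h4
              rw [neg_sub] at h5 h6
              rw [h5, h6, add_comm y' y]
              have h7 : x' - (τ (x' - x) + (x' - x)) = x - τ (x' - x) := by abel
              rw [h7]
              cases ω (x' - x) <;> rfl
  · rintro ⟨j, y⟩ ⟨k, y'⟩ ⟨k', y''⟩ hk hk' h
    cases j with
    | some x =>
      have c1 := cl_RU (T := T) (rK := rK) (u := u) (w := w) (ω := ω) hτ hD x y (k, y') hk
      have c2 := cl_RU (T := T) (rK := rK) (u := u) (w := w) (ω := ω) hτ hD x y (k', y'') hk'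
      rw [← h] at c2
      obtain ⟨e1, e2⟩ := cl_inj H W hτ hD hD2 x y _ _ _ _ _ _ c1 c2
      exact Prod.ext e1 e2
    | none =>
      have hf : ((RU x1 τ ω D T rK u w (none, y) (k, y')).1 : Option V) =
        (RU x1 τ ω D T rK u w (none, y) (k', y'')).1 := by rw [h]
      have hs : (RU x1 τ ω D T rK u w (none, y) (k, y')).2 =
        (RU x1 τ ω D T rK u w (none, y) (k', y'')).2 := by rw [h]
      cases k with
      | none =>
        cases k' with
        | none =>
          simp only [RU] at hs
          rw [W.rof.inj y y' y'' (fun h => hk (by rw [h])) (fun h => hk' (by rw [h])) hs]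
        | some x'' => simp [RU] at hf
      | some x' =>
        cases k' with
        | none => simp [RU] at hf
        | some x'' =>
          simp only [RU] at hf hs
          have h0 : (some (x' - x1) : Option V) = some (x'' - x1) := hf
          have h1 : x' = x'' := by simpa using h0
          rw [add_comm y y', add_comm y y''] at hs
          rw [h1, H.L3 hs]

end Pool.Agent.Lib.MP_db622c_co.PU
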