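import Pool.Agent.Lib.MP_db622c_co.PU.KBa

/-!
# PU-RUo: the boards and the rounds are orthogonal

Let `j ≠ k`, `j' ≠ k'` have the same board and the same round.  `δ = y + y'` is the level of a pair.
* `j.1 = k.1`: the board is `(0, β δ)`, so `j'.1 = k'.1` (`ofV` of two different points is not
  `none`: `(isOF_ofV h0).ne`), and the levels agree (`H.βi`).
  - both at `∞`: `W.ror` (write `y' = y + δ`, `H.sol`).
  - both finite: the second components give `W.uo`: `v = y` or `v = y + δ = y'`; in both cases
    `u v v' = u y y'` (`W.us`), so the first components give the same `x`.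
  - one at `∞`: first components `none` and `some`.
* `j.1 ≠ k.1`: then `j'.1 ≠ k'.1` and the levels agree (`H.νi`), and the first components of the
  boards are `ofV x0 τ0 j.1 k.1 = ofV x0 τ0 j'.1 k'.1`.
  A pair is special if the difference of its (finite) first components is `D` or `-D`.
  - both not special: the first components of the rounds are `ofV x1 τ j.1 k.1` etc.; by
    `isOrth_ofV h0 h1 ho` `j'.1 = j.1` or `j'.1 = k.1`, and then (`(isOF_ofV h0).inj`, `.symm`) the
    unordered pairs `{j.1, k.1}`, `{j'.1, k'.1}` agree.  The label is `v + T δ` for the end `v` which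
    the orientation selects (the finite point for a pair with `∞`; `ω d`, `hω` for finite pairs), so
    the labels give the same `v` at this end and the same pair.
  - both special: let `(x, y)`, `(x + D, y')` and `(x', v)`, `(x' + D, v')` be the two pairs (up to
    order); the board is `x - τ0 D = x' - τ0 D`, so `x = x'`; the round gives `w y y' = w v v'`, so
    `y = v` (`W.wo`).  (For the other order: `τ0 (-D) = τ0 D + D`.)
  - one special: if the round of the special pair is `(none, _)` clear; otherwise the first components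
    of the rounds are again those of `ofV x1 τ`, so the pairs of first components agree by
    `isOrth_ofV`, but one is special and the other is not.
-/

namespace Pool.Agent.Lib.MP_db622c_co.PU

open Pool.Agent.Lib.MP_db622c_co Pool.Agent.Lib.MP_db622c_co.CB Pool.Agent.Lib.MP_db622c_co.PT

variable {V K : Type} [AddCommGroup V] [DecidableEq V] [AddCommGroup K] {sK : K → K → ℤ}
  {T ν β : K → K} {rK : K → K → K} {u w : K → K → Bool × K}

/-- special pairs -/
private def Spec (D : V) (a b : Option V) : Prop :=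
  (∃ x, a = some x ∧ b = some (x + D)) ∨ (∃ x, b = some x ∧ a = some (x + D))

omit [DecidableEq V] in
private theorem Spec.swap {D : V} {a b : Option V} (h : Spec D a b) : Spec D b a :=
  h.elim Or.inr Or.inl

private theorem RU_c {x1 : V} {τ : V → V} {ω : V → Bool} {D : V} (hD : D ≠ 0) (x : V) (y y' : K) :
    RU x1 τ ω D T rK u w (some x, y) (some (x + D), y') =
      ((if (w y y').1 then some (x - τ D) else none, (w y y').2) : Option V × K) := by
  have h1 : x ≠ x + D := fun h => hD (left_eq_add.1 h)
  have h2 : x + D - x = D := by abel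
  exact (if_neg h1).trans (if_pos h2)

private theorem RU_d {x1 : V} {τ : V → V} {ω : V → Bool} {D : V} (hD : D ≠ 0) (hD2 : D + D ≠ 0)
    (x : V) (y y' : K) :
    RU x1 τ ω D T rK u w (some (x + D), y) (some x, y') =
      ((if (w y' y).1 then some (x - τ D) else none, (w y' y).2) : Option V × K) := by
  have h1 : x + D ≠ x := fun h => hD (left_eq_add.1 h.symm)
  have h2 : x + D - x = D := by abel
  have h3 : x - (x + D) ≠ D := by
    intro h
    apply hD2
    have h4 : x - (x + D) = -D := by abel
    rw [h4] at h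
    nth_rw 1 [← h]
    abel
  exact (if_neg h1).trans ((if_neg h3).trans (if_pos h2))

private theorem of_fin {x0 : V} {τ : V → V} {x y : V} (h : x ≠ y) :
    ofV x0 τ (some x) (some y) = some (x - τ (y - x)) := by
  show (if x = y then none else some (x - τ (y - x)) : Option V) = _
  rw [if_neg h]

private theorem RU_e {x1 : V} {τ : V → V} {ω : V → Bool} {D : V} {p q : Option V × K}
    (hpq : p.1 ≠ q.1) (hs : ¬ Spec D p.1 q.1) :
    RU x1 τ ω D T rK u w p q =
      (ofV x1 τ p.1 q.1, (if orV ω p.1 q.1 then p.2 else q.2) + T (p.2 + q.2)) := by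
  obtain ⟨a, y⟩ := p
  obtain ⟨b, y'⟩ := q
  rcases a with _ | x <;> rcases b with _ | x'
  · exact absurd rfl hpq
  · rfl
  · rfl
  · have h1 : x ≠ x' := fun h => hpq (congrArg some h)
    have h2 : x' - x ≠ D := fun h => hs (Or.inl ⟨x, rfl, by rw [← h]; simp⟩)
    have h3 : x - x' ≠ D := fun h => hs (Or.inr ⟨x', rfl, by rw [← h]; simp⟩)
    refine (if_neg h1).trans ((if_neg h2).trans ((if_neg h3).trans ?_))
    refine Prod.ext (of_fin (x0 := x1) h1).symm ?_
    show (if ω (x' - x) then y + T (y + y') else y' + T (y + y')) =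
      (if ω (x' - x) then y else y') + T (y + y')
    by_cases h : ω (x' - x) = true
    · rw [if_pos h, if_pos h]
    · rw [if_neg h, if_neg h]

omit [DecidableEq V] in
private theorem or_swap {ω : V → Bool} (hω : ∀ d, d ≠ 0 → ω (-d) = !(ω d)) {a b : Option V}
    (h : a ≠ b) : orV ω b a = !(orV ω a b) := by
  rcases a with _ | x <;> rcases b with _ | x'
  · exact absurd rfl h
  · rfl
  · rfl
  · show ω (x - x') = !(ω (x' - x))
    rw [← hω _ (sub_ne_zero.2 (fun h' => h (congrArg some h'.symm))), neg_sub]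

/-- equal classes in both one-factorizations -/
private theorem both {x0 : V} {τ0 : V → V} {x1 : V} {τ : V → V} (h0 : StOK x0 τ0)
    (h1 : StOK x1 τ) (ho : OrOK x0 τ0 x1 τ) {a b a' b' : Option V} (hab : a ≠ b) (hab' : a' ≠ b')
    (hg : ofV x0 τ0 a b = ofV x0 τ0 a' b') (hr : ofV x1 τ a b = ofV x1 τ a' b') :
    (a' = a ∧ b' = b) ∨ (a' = b ∧ b' = a) := by
  rcases isOrth_ofV h0 h1 ho a b a' b' hab hab' hg hr with h | h
  · left
    subst h
    exact ⟨rfl, ((isOF_ofV h0).inj _ _ _ hab.symm hab'.symm hg).symm⟩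
  · right
    subst h
    rw [(isOF_ofV h0).symm a a'] at hg
    exact ⟨rfl, ((isOF_ofV h0).inj _ _ _ hab hab'.symm hg).symm⟩

/-- the round and the board of a special pair -/
private theorem spec_val {x0 : V} {τ0 : V → V} {x1 : V} {τ : V → V} {ω : V → Bool} {D : V}
    (h0 : StOK x0 τ0) (h1 : StOK x1 τ) (hD : D ≠ 0) (hD2 : D + D ≠ 0) {p q : Option V × K}
    (hs : Spec D p.1 q.1) :
    ∃ x y y', ((p = (some x, y) ∧ q = (some (x + D), y')) ∨
      (q = (some x, y) ∧ p = (some (x + D), y'))) ∧ y + y' = p.2 + q.2 ∧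
      RU x1 τ ω D T rK u w p q = ((if (w y y').1 then some (x - τ D) else none, (w y y').2) :
        Option V × K) ∧ ofV x0 τ0 p.1 q.1 = some (x - τ0 D) ∧
      ofV x1 τ p.1 q.1 = some (x - τ D) := by
  obtain ⟨a, y⟩ := p
  obtain ⟨b, y'⟩ := q
  have key : ∀ (x0 : V) (τ : V → V) (x : V), ofV x0 τ (some x) (some (x + D)) = some (x - τ D) := by
    intro x0 τ x
    rw [of_fin (fun h => hD (left_eq_add.1 h))]
    have h2 : x + D - x = D := by abel
    rw [h2]
  rcases hs with ⟨x, h2, h3⟩ | ⟨x, h2, h3⟩
  · simp only at h2 h3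
    subst h2 h3
    exact ⟨x, y, y', Or.inl ⟨rfl, rfl⟩, rfl, RU_c hD x y y', key _ _ _, key _ _ _⟩
  · simp only at h2 h3
    subst h2 h3
    refine ⟨x, y', y, Or.inr ⟨rfl, rfl⟩, add_comm _ _, RU_d hD hD2 x y y', ?_, ?_⟩
    · show ofV x0 τ0 (some (x + D)) (some x) = _
      rw [(isOF_ofV h0).symm, key]
    · show ofV x1 τ (some (x + D)) (some x) = _
      rw [(isOF_ofV h1).symm, key]

/-- a special and a nonspecial pair -/
private theorem mixed {x0 : V} {τ0 : V → V} {x1 : V} {τ : V → V} {ω : V → Bool} {D : V}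
    (h0 : StOK x0 τ0) (h1 : StOK x1 τ) (ho : OrOK x0 τ0 x1 τ) (hD : D ≠ 0) (hD2 : D + D ≠ 0)
    {j k j' k' : Option V × K} (hjk : j.1 ≠ k.1) (hjk' : j'.1 ≠ k'.1)
    (hg : ofV x0 τ0 j.1 k.1 = ofV x0 τ0 j'.1 k'.1)
    (hr : RU x1 τ ω D T rK u w j k = RU x1 τ ω D T rK u w j' k')
    (hs : Spec D j.1 k.1) (hs' : ¬ Spec D j'.1 k'.1) : False := by
  obtain ⟨x, y, y', -, -, hR, -, hO⟩ := spec_val (T := T) (rK := rK) (u := u) (w := w) (ω := ω)
    h0 h1 hD hD2 hs
  rw [hR, RU_e hjk' hs'] at hr
  have h2 : (if (w y y').1 then some (x - τ D) else none : Option V) = ofV x1 τ j'.1 k'.1 :=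
    congrArg Prod.fst hr
  have h3 : (if (w y y').1 then some (x - τ D) else none : Option V) = some (x - τ D) := by
    by_cases h : (w y y').1 = true
    · rw [if_pos h]
    · exfalso
      rw [if_neg h] at h2
      exact (isOF_ofV h1).ne _ _ hjk' h2.symm
  have h4 : ofV x1 τ j.1 k.1 = ofV x1 τ j'.1 k'.1 := hO.trans (h3.symm.trans h2)
  rcases both h0 h1 ho hjk hjk' hg h4 with ⟨e1, e2⟩ | ⟨e1, e2⟩
  · rw [e1, e2] at hs'
    exact hs' hs
  · rw [e1, e2] at hs'
    exact hs' hs.swap

theorem isOrth_RU (H : KB sK T ν β) (W : WD rK u w) {x0 : V} {τ0 : V → V} {x1 : V} {τ : V → V}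
    {ω : V → Bool} {D : V} (h0 : StOK x0 τ0) (h1 : StOK x1 τ) (ho : OrOK x0 τ0 x1 τ)
    (hω : ∀ d, d ≠ 0 → ω (-d) = !(ω d)) (hD : D ≠ 0) (hD2 : D + D ≠ 0) :
    IsOrth (G0 (ofV x0 τ0) ν β) (RU x1 τ ω D T rK u w) := by
  intro j k j' k' hjk hjk' hg hr
  by_cases hab : j.1 = k.1
  · obtain ⟨a, y⟩ := j
    obtain ⟨b, y'⟩ := k
    obtain ⟨a', v⟩ := j'
    obtain ⟨b', v'⟩ := k'
    change a = b at hab
    subst hab
    have hgl : G0 (ofV x0 τ0) ν β (a, y) (a, y') = (0, β (y + y')) := if_pos rfl
    have hab' : a' = b' := by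
      by_contra hc
      have hgr : G0 (ofV x0 τ0) ν β (a', v) (b', v') = (ofV x0 τ0 a' b', ν (v + v')) := if_neg hc
      rw [hgl, hgr] at hg
      exact (isOF_ofV h0).ne _ _ hc (Prod.mk.inj hg).1.symm
    subst hab'
    have hgr : G0 (ofV x0 τ0) ν β (a', v) (a', v') = (0, β (v + v')) := if_pos rfl
    rw [hgl, hgr] at hg
    have hδ : y + y' = v + v' := H.βi _ _ (Prod.mk.inj hg).2
    have hy : y ≠ y' := fun h => hjk (by rw [h])
    obtain ⟨δ, hδ'⟩ : ∃ δ, δ = y + y' := ⟨_, rfl⟩
    have hδ0 : δ ≠ 0 := hδ' ▸ H.ne0 hy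
    have e1 : y' = y + δ := H.sol hδ'.symm
    have e2 : v' = v + δ := H.sol (hδ.symm.trans hδ'.symm)
    rcases a with _ | x <;> rcases a' with _ | x'
    · have h2 : rK y y' = rK v v' := congrArg Prod.snd hr
      rw [e1, e2] at h2
      rcases W.ror _ _ _ hδ0 h2 with h | h
      · left; rw [h]
      · right; rw [h, e1]
    · have r2 : RU x1 τ ω D T rK u w (some x', v) (some x', v') =
          ((some (x' - (if (u v v').1 then τ D else τ D + D)), (u v v').2) : Option V × K) :=
        if_pos rfl
      rw [r2] at hr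
      have h2 : (none : Option V) = some _ := congrArg Prod.fst hr
      exact absurd h2 (by simp)
    · have r1 : RU x1 τ ω D T rK u w (some x, y) (some x, y') =
          ((some (x - (if (u y y').1 then τ D else τ D + D)), (u y y').2) : Option V × K) :=
        if_pos rfl
      rw [r1] at hr
      have h2 : some _ = (none : Option V) := congrArg Prod.fst hr
      exact absurd h2 (by simp)
    · have r1 : RU x1 τ ω D T rK u w (some x, y) (some x, y') =
          ((some (x - (if (u y y').1 then τ D else τ D + D)), (u y y').2) : Option V × K) :=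
        if_pos rfl
      have r2 : RU x1 τ ω D T rK u w (some x', v) (some x', v') =
          ((some (x' - (if (u v v').1 then τ D else τ D + D)), (u v v').2) : Option V × K) :=
        if_pos rfl
      rw [r1, r2] at hr
      have h2 : (u y y').2 = (u v v').2 := (Prod.mk.inj hr).2
      have h3 : (some (x - (if (u y y').1 then τ D else τ D + D)) : Option V) =
        some (x' - (if (u v v').1 then τ D else τ D + D)) := (Prod.mk.inj hr).1
      rw [e1, e2] at h2
      rcases W.uo _ _ _ hδ0 h2 with h | h
      · left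
        subst h
        have : v' = y' := by rw [e1, e2]
        rw [this] at h3
        rw [sub_left_inj.1 (Option.some.inj h3)]
      · right
        have hvy : v = y' := by rw [h, e1]
        have hvy' : v' = y := by
          rw [e2, h, add_assoc, H.two, add_zero]
        rw [hvy, hvy', W.us y' y] at h3
        rw [sub_left_inj.1 (Option.some.inj h3), hvy]
  · have hgl : G0 (ofV x0 τ0) ν β j k = (ofV x0 τ0 j.1 k.1, ν (j.2 + k.2)) := if_neg hab
    have hab' : j'.1 ≠ k'.1 := by
      intro hc
      have hgr : G0 (ofV x0 τ0) ν β j' k' = (0, β (j'.2 + k'.2)) := if_pos hc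
      rw [hgl, hgr] at hg
      exact (isOF_ofV h0).ne _ _ hab (Prod.mk.inj hg).1
    have hgr : G0 (ofV x0 τ0) ν β j' k' = (ofV x0 τ0 j'.1 k'.1, ν (j'.2 + k'.2)) := if_neg hab'
    rw [hgl, hgr] at hg
    have hδ : j.2 + k.2 = j'.2 + k'.2 := H.νi _ _ (Prod.mk.inj hg).2
    have hg1 : ofV x0 τ0 j.1 k.1 = ofV x0 τ0 j'.1 k'.1 := (Prod.mk.inj hg).1
    by_cases hs : Spec D j.1 k.1
    · by_cases hs' : Spec D j'.1 k'.1
      · obtain ⟨x, y, y', hp, hyy, hR, hB, -⟩ := spec_val (T := T) (rK := rK) (u := u) (w := w)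
          (ω := ω) h0 h1 hD hD2 hs
        obtain ⟨x', v, v', hp', hvv, hR', hB', -⟩ := spec_val (T := T) (rK := rK) (u := u) (w := w)
          (ω := ω) h0 h1 hD hD2 hs'
        have hx : x = x' := by
          have h2 : (some (x - τ0 D) : Option V) = some (x' - τ0 D) := hB.symm.trans (hg1.trans hB')
          exact sub_left_inj.1 (Option.some.inj h2)
        subst hx
        have hr' := hR.symm.trans (hr.trans hR')
        have h2 : (w y y').2 = (w v v').2 := (Prod.mk.inj hr').2
        have h3 : (if (w y y').1 then some (x - τ D) else none : Option V) =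
          (if (w v v').1 then some (x - τ D) else none) := (Prod.mk.inj hr').1
        have h4 : (w y y').1 = (w v v').1 := by
          cases hw : (w y y').1 <;> cases hw' : (w v v').1 <;> rw [hw, hw'] at h3
          · exact absurd h3 (by simp)
          · exact absurd h3 (by simp)
        have h5 : w y y' = w v v' := Prod.ext h4 h2
        obtain ⟨δ, hδ'⟩ : ∃ δ, δ = y + y' := ⟨_, rfl⟩
        have e1 : y' = y + δ := H.sol hδ'.symm
        have e2 : v' = v + δ := H.sol (by rw [hδ', hyy, hδ, hvv])
        have h6 : y = v := W.wo y v δ (by rw [← e1, ← e2, h5])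
        have h7 : y' = v' := by rw [e1, e2, h6]
        rcases hp with ⟨hj, hk⟩ | ⟨hk, hj⟩ <;> rcases hp' with ⟨hj', hk'⟩ | ⟨hk', hj'⟩
        · left; rw [hj, hj', h6]
        · right; rw [hk, hj', h7]
        · right; rw [hk, hj', h6]
        · left; rw [hj, hj', h7]
      · exact (mixed h0 h1 ho hD hD2 hab hab' hg1 hr hs hs').elim
    · by_cases hs' : Spec D j'.1 k'.1
      · exact (mixed h0 h1 ho hD hD2 hab' hab hg1.symm hr.symm hs' hs).elim
      · rw [RU_e hab hs, RU_e hab' hs'] at hr
        have h2 := (Prod.mk.inj hr).1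
        have h3 := (Prod.mk.inj hr).2
        rw [hδ] at h3
        have h4 := add_right_cancel h3
        rcases both h0 h1 ho hab hab' hg1 h2 with ⟨e1, e2⟩ | ⟨e1, e2⟩
        · left
          rw [e1, e2] at h4
          refine Prod.ext e1 ?_
          cases hw : orV ω j.1 k.1 <;> rw [hw] at h4
          · have h5 : k.2 = k'.2 := by simpa using h4
            rw [h5] at hδ
            exact (add_right_cancel hδ).symm
          · have h5 : j.2 = j'.2 := by simpa using h4
            exact h5.symm
        · right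
          rw [e1, e2, or_swap hω hab] at h4
          refine Prod.ext e1 ?_
          cases hw : orV ω j.1 k.1 <;> rw [hw] at h4
          · have h5 : k.2 = j'.2 := by simpa using h4
            exact h5.symm
          · have h5 : j.2 = k'.2 := by simpa using h4
            rw [h5, add_comm] at hδ
            exact (add_right_cancel hδ).symm

end Pool.Agent.Lib.MP_db622c_co.PU
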