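import Pool.Agent.Lib.MP_db622c_co.CB.PaleyBase

/-!
# PU-Val: the elements of a field with given codes
-/

namespace Pool.Agent.Lib.MP_db622c_co.PU

variable {F : Type} [Field F]

/-- codes `0, 1, -1, 3, -3` -/
def val5 (F : Type) [Field F] : Fin 5 → F := ![0, 1, -1, 3, -3]

/-- codes `0, 1, f, -1 - f` -/
def val4 (f : F) : Fin 4 → F := ![0, 1, f, -1 - f]

theorem val5_zero : val5 F 0 = 0 := rfl

theorem val4_zero (f : F) : val4 f 0 = 0 := rfl

theorem val5_inj (h2 : (2 : F) ≠ 0) (h3 : (3 : F) ≠ 0) : Function.Injective (val5 F) := by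
  have h1 : (1 : F) ≠ 0 := one_ne_zero
  have h4 : (4 : F) ≠ 0 := by
    have : (4 : F) = 2 * 2 := by norm_num
    rw [this]
    exact mul_ne_zero h2 h2
  have h6 : (6 : F) ≠ 0 := by
    have : (6 : F) = 2 * 3 := by norm_num
    rw [this]
    exact mul_ne_zero h2 h3
  intro i j h
  fin_cases i <;> fin_cases j <;> simp only [val5] at h ⊢ <;> simp at h ⊢ <;>
    first
      | exact h3 h
      | exact h3 h.symm
      | exact h1 (by linear_combination h)
      | exact h1 (by linear_combination -h)
      | exact h2 (by linear_combination h)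
      | exact h2 (by linear_combination -h)
      | exact h3 (by linear_combination h)
      | exact h3 (by linear_combination -h)
      | exact h4 (by linear_combination h)
      | exact h4 (by linear_combination -h)
      | exact h6 (by linear_combination h)
      | exact h6 (by linear_combination -h)

theorem val4_inj (h3 : (3 : F) = 0) {f : F} (f0 : f ≠ 0) (f1 : f ≠ 1) (f2 : f ≠ -1) :
    Function.Injective (val4 f) := by
  have h1 : (1 : F) ≠ 0 := one_ne_zero
  have h02 : (2 : F) ≠ 0 := by
    intro h
    apply h1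
    linear_combination h3 - h
  have e1 : -1 - f ≠ 0 := by
    intro h
    apply f2
    linear_combination -h
  have e2 : -1 - f ≠ 1 := by
    intro h
    apply f1
    linear_combination -h - h3
  have e3 : -1 - f ≠ f := by
    intro h
    apply f1
    linear_combination h + (f * h3)
  intro i j h
  fin_cases i <;> fin_cases j <;> simp only [val4] at h ⊢ <;> simp at h ⊢ <;>
    first
      | exact f0 h
      | exact f0 h.symm
      | exact f1 h
      | exact f1 h.symm
      | exact e1 h
      | exact e1 h.symm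
      | exact e2 h
      | exact e2 h.symm
      | exact e3 h
      | exact e3 h.symm

theorem val5_rel (x y v : Fin 5)
    (h : (x, y, v) ∈ ([(3, 2, 1), (4, 1, 2), (2, 3, 1), (1, 4, 2)] :
      List (Fin 5 × Fin 5 × Fin 5))) : 2 * val5 F v = val5 F x + val5 F y := by
  simp only [List.mem_cons, Prod.mk.injEq, List.not_mem_nil, or_false] at h
  rcases h with ⟨rfl, rfl, rfl⟩ | ⟨rfl, rfl, rfl⟩ | ⟨rfl, rfl, rfl⟩ | ⟨rfl, rfl, rfl⟩ <;>
    simp [val5] <;> norm_num

theorem val4_rel (h3 : (3 : F) = 0) (f : F) (x y v : Fin 4)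
    (h : (x, y, v) ∈ ([(2, 1, 3), (1, 3, 2)] : List (Fin 4 × Fin 4 × Fin 4))) :
    2 * val4 f v = val4 f x + val4 f y := by
  simp only [List.mem_cons, Prod.mk.injEq, List.not_mem_nil, or_false] at h
  rcases h with ⟨rfl, rfl, rfl⟩ | ⟨rfl, rfl, rfl⟩
  · show 2 * (-1 - f) = f + 1
    linear_combination (-1 - f) * h3
  · show 2 * f = 1 + (-1 - f)
    linear_combination f * h3

theorem exists_f [Fintype F] (h7 : 7 ≤ Fintype.card F) : ∃ f : F, f ≠ 0 ∧ f ≠ 1 ∧ f ≠ -1 := by
  classical
  by_contra hcon
  push Not at hcon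
  have h2 : (Finset.univ : Finset F) ⊆ {0, 1, -1} := by
    intro x _
    rw [Finset.mem_insert, Finset.mem_insert, Finset.mem_singleton]
    by_cases h0 : x = 0
    · exact Or.inl h0
    · by_cases h1 : x = 1
      · exact Or.inr (Or.inl h1)
      · exact Or.inr (Or.inr (hcon x h0 h1))
  have h3 := Finset.card_le_card h2
  rw [Finset.card_univ] at h3
  have h5 : ({0, 1, -1} : Finset F).card ≤ 3 := Finset.card_le_three
  omega

end Pool.Agent.Lib.MP_db622c_co.PU
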