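import Pool.Agent.Lib.MP_db622c_co.PU.G
import Pool.Agent.Lib.MP_db622c_co.PU.RUf
import Pool.Agent.Lib.MP_db622c_co.PU.RUo
import Pool.Agent.Lib.MP_db622c_co.PU.P0
import Pool.Agent.Lib.MP_db622c_co.PU.PM
import Pool.Agent.Lib.MP_db622c_co.PU.MZ
import Pool.Agent.Lib.MP_db622c_co.PU.HZ
import Pool.Agent.Lib.MP_db622c_co.PU.Val
import Pool.Agent.Lib.MP_db622c_co.PU.Pal

/-!
# PU-Fs: full structures and left factors of order `card K * (q + 1)`
-/

namespace Pool.Agent.Lib.MP_db622c_co.PU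

open Pool.Agent.Lib.MP_db622c_co Pool.Agent.Lib.MP_db622c_co.CB Pool.Agent.Lib.MP_db622c_co.PT

/-- all data on `K` for a full structure -/
structure KD {K : Type} [AddCommGroup K] (sK : K → K → ℤ) (T ν β : K → K) (rK : K → K → K)
    (u w : K → K → Bool × K) (a b m z0 s t : K → Fin 5) (l0 ls lt : K → K)
    (a' b' m' z0' s' t' : K → Fin 4) (l0' ls' lt' : K → K) : Prop where
  kb : KB sK T ν β
  wd : WD rK u w
  ldg : LD T a b m z0 s t l0 ls lt
  ldh : LD T a' b' m' z0' s' t' l0' ls' lt'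
  mg : ∀ δ, (a δ, b δ, m δ) ∈ ([(3, 2, 1), (4, 1, 2), (2, 3, 1), (1, 4, 2)] :
    List (Fin 5 × Fin 5 × Fin 5))
  mh : ∀ δ, (a' δ, b' δ, m' δ) ∈ ([(2, 1, 3), (1, 3, 2)] : List (Fin 4 × Fin 4 × Fin 4))

variable {F : Type} [Field F] [Fintype F] [DecidableEq F] {K : Type} [AddCommGroup K]
  {sK : K → K → ℤ} {T ν β : K → K} {rK : K → K → K}
  {u w : K → K → Bool × K} {a b m z0 s t : K → Fin 5} {l0 ls lt : K → K}
  {a' b' m' z0' s' t' : K → Fin 4} {l0' ls' lt' : K → K}

/-- the boards over a field -/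
abbrev gF (F : Type) [Field F] [DecidableEq F] {K : Type} [AddCommGroup K] (ν β : K → K) :
    Option F × K → Option F × K → Rw F × K :=
  G0 (ofV (0 : F) (fun d => - d / 2)) ν β

theorem exists_P (h4 : Fintype.card F % 4 = 3) (h7 : 7 ≤ Fintype.card F)
    (H : KD sK T ν β rK u w a b m z0 s t l0 ls lt a' b' m' z0' s' t' l0' ls' lt') :
    ∃ P : Option F × K → Option F × K → Rw F × K, IsLat P ∧ IsMate (gF F ν β) P := by
  have h2 := pb_two h4
  by_cases h3 : (3 : F) = 0
  · obtain ⟨f, f0, f1, f2⟩ := exists_f h7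
    exact ⟨_, isLat_P0 H.kb (val4_inj h3 f0 f1 f2) (val4_zero f) H.ldh,
      isMate_P0 h2 H.kb (val4_inj h3 f0 f1 f2) (val4_zero f) H.ldh
        (fun δ => val4_rel h3 f _ _ _ (H.mh δ))⟩
  · exact ⟨_, isLat_P0 H.kb (val5_inj h2 h3) val5_zero H.ldg,
      isMate_P0 h2 H.kb (val5_inj h2 h3) val5_zero H.ldg (fun δ => val5_rel _ _ _ (H.mg δ))⟩

theorem exists_c (h4 : Fintype.card F % 4 = 3) (h7 : 7 ≤ Fintype.card F) :
    ∃ c : F, quadraticChar F c = 1 ∧ COK c := by
  obtain ⟨c, hc, h1, h2⟩ := pa_exists h4 h7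
  refine ⟨c, hc, pa_ne0 hc, h1, h2, ?_⟩
  intro h
  have h5 : quadraticChar F (c * c) = 1 := by rw [map_mul, hc, one_mul]
  have h6 : c * c = -1 := by linear_combination h
  rw [h6, pb_neg h4] at h5
  exact absurd h5 (by norm_num)

/-- the starter of the rounds: `s = - c` -/
theorem s_facts (h4 : Fintype.card F % 4 = 3) {c : F} (hc : quadraticChar F c = 1) (h : COK c) :
    quadraticChar F (-c) = -1 ∧ (-c) - 1 ≠ 0 ∧ (-c) + 1 ≠ 0 := by
  refine ⟨by rw [pb_chi_neg h4, hc], ?_, ?_⟩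
  · intro h5
    apply h.c2
    linear_combination -h5
  · intro h5
    apply h.c1
    linear_combination -h5

theorem mR_facts {c : F} (hc : quadraticChar F c = 1) (h : COK c) (b : Bool) :
    quadraticChar F (mR c b) = 1 ∧ mR c b - 1 ≠ 0 ∧ mR c b + 1 ≠ 0 := by
  cases b
  · exact ⟨hc, h.c1, h.c2⟩
  · refine ⟨?_, ?_, h.c3⟩
    · show quadraticChar F (c * c) = 1
      rw [map_mul, hc, one_mul]
    · show c * c - 1 ≠ 0
      have h5 : c * c - 1 = (c - 1) * (c + 1) := by ring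
      rw [h5]
      exact mul_ne_zero h.c1 h.c2

/-- the rounds over a field -/
abbrev rF (c : F) (T : K → K) (rK : K → K → K) (u w : K → K → Bool × K) :
    Option F × K → Option F × K → Rw F × K :=
  RU 0 (paT (-c)) (paO (-c)) (-c - 1) T rK u w

variable [Fintype K]

theorem fs_field (h4 : Fintype.card F % 4 = 3) (HK : KB sK T ν β) (HW : WD rK u w) {c : F}
    (hc : quadraticChar F c = 1) (h : COK c) :
    IsH (SS (SV (fun x : F => quadraticChar F x)) sK) ∧ IsOF (gF F ν β) ∧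
      (∀ p, gF F ν β p p = 0) ∧ IsSplit (SS (SV (fun x : F => quadraticChar F x)) sK) (gF F ν β) ∧
      IsOF (rF c T rK u w) ∧ IsOrth (gF F ν β) (rF c T rK u w) := by
  obtain ⟨hs, hs1, hs2⟩ := s_facts h4 hc h
  have hH := isH_SV (pa_chi (F := F) h4)
  refine ⟨isH_SS hH HK.isH, isOF_G0 HK (isOF_ofV (pa_g h4)), diag_G0 HK _,
    split_G0 HK hH (split_ofV (pa_sep h4)), ?_, ?_⟩
  · exact isOF_RU HK HW (pa_h h4 hs hs1) (paO_neg h4 hs1) hs1 (paD h4 hs1)
  · exact isOrth_RU HK HW (pa_g h4) (pa_h h4 hs hs1) (pa_or h4 hs1 hs2) (paO_neg h4 hs1) hs1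
      (paD h4 hs1)

omit [DecidableEq F] in
theorem card_rwK : Fintype.card (Rw F × K) = Fintype.card K * (Fintype.card F + 1) := by
  rw [Fintype.card_prod, mul_comm]
  congr 1
  exact Fintype.card_option

omit [DecidableEq F] in
theorem card_optK : Fintype.card (Option F × K) = Fintype.card K * (Fintype.card F + 1) := by
  rw [Fintype.card_prod, mul_comm]
  congr 1
  exact Fintype.card_option

theorem hasFS_field (F : Type) [Field F] [Fintype F] [DecidableEq F]
    (h4 : Fintype.card F % 4 = 3) (h7 : 7 ≤ Fintype.card F)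
    (H : KD sK T ν β rK u w a b m z0 s t l0 ls lt a' b' m' z0' s' t' l0' ls' lt') :
    HasFS (Fintype.card K * (Fintype.card F + 1)) := by
  obtain ⟨c, hc, h⟩ := exists_c h4 h7
  obtain ⟨P, hP, hM⟩ := exists_P h4 h7 H
  obtain ⟨k1, k2, k3, k4, k5, k6⟩ := fs_field h4 H.kb H.wd hc h
  exact ⟨Rw F × K, Option F × K, Rw F × K, Rw F × K, inferInstance, inferInstance, inferInstance,
    inferInstance, inferInstance, inferInstance, _, _, _, P, card_rwK, card_optK, card_rwK,
    card_rwK, ⟨k1, k2, k3, k4, k5, k6, hP, hM⟩⟩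

/-- the square of the left factor -/
abbrev mF (c : F) (ty : K → Bool) (N : K → K → K) (ν : K → K) :
    Option F × K → Option F × K → Rw F × K :=
  MZ N ν (fun δ d => d / (mR c (ty δ) - 1)) (fun δ => mR c (ty δ) - 1) (fun _ => 1)
    (fun δ => mR c (ty δ))

theorem js_field (h4 : Fintype.card F % 4 = 3) (HK : KB sK T ν β) (HW : WD rK u w) {c : F}
    (hc : quadraticChar F c = 1) (h : COK c) (ty : K → Bool) {N RN : K → K → K}
    {ON : K → K → Bool} (HN : ND sK N RN ON) :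
    JS (SS (SV (fun x : F => quadraticChar F x)) sK) (gF F ν β) (rF c T rK u w) (mF c ty N ν)
      (H2 (ofV (0 : F) (fun d => - d / 2)) T RN (orV (paW c (2 * (c - 1) / (c + 1)))))
      (OZ ON (fun δ => orV (paW (mR c (ty δ)) (2 * (mR c (ty δ) - 1) / (mR c (ty δ) + 1))))) := by
  obtain ⟨k1, k2, k3, k4, k5, k6⟩ := fs_field h4 HK HW hc h
  have hR := fun δ => mR_facts hc h (ty δ)
  have hcf := fun δ => pa_cf h4 (hR δ).1 (hR δ).2.1 (hR δ).2.2
  exact
    { isH := k1
      of_g := k2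
      diag := k3
      split := k4
      of_h := k5
      orth := k6
      lat := isLat_MZ HK HN.lat (fun δ => pa_sq (pa_ne0 (hR δ).1) (hR δ).2.1)
        (fun δ => zero_div _)
      nonsep := nonsep_MZ HK HN.non (fun δ => pa_non (hR δ).1 (hR δ).2.1)
      mdiag := mdiag_MZ HN.diag
      of_h2 := isOF_H2 HK (isOF_ofV (pa_g h4)) HN.rof
        (anti_orV (pa_cf h4 hc h.c1 h.c2))
      anti := anti_OZ HN.anti (fun δ => anti_orV (hcf δ))
      conf := conf_Z HK HN (pa_g h4) hcf _ }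

theorem hasJS_field (F : Type) [Field F] [Fintype F] [DecidableEq F]
    (h4 : Fintype.card F % 4 = 3) (h7 : 7 ≤ Fintype.card F) (HK : KB sK T ν β) (HW : WD rK u w)
    {N RN : K → K → K} {ON : K → K → Bool} (HN : ND sK N RN ON) :
    HasJS (Fintype.card K * (Fintype.card F + 1)) := by
  obtain ⟨c, hc, h⟩ := exists_c h4 h7
  exact ⟨Rw F × K, Option F × K, Rw F × K, inferInstance, inferInstance, inferInstance,
    inferInstance, inferInstance, _, _, _, _, _, _, card_rwK, card_optK, card_rwK,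
    js_field h4 HK HW hc h (fun _ => false) HN⟩

theorem hasJSP_field (F : Type) [Field F] [Fintype F] [DecidableEq F]
    (h4 : Fintype.card F % 4 = 3) (h7 : 7 ≤ Fintype.card F)
    (H : KD sK T ν β rK u w a b m z0 s t l0 ls lt a' b' m' z0' s' t' l0' ls' lt')
    {N RN PN : K → K → K} {ON : K → K → Bool} (HN : ND sK N RN ON) (hP : IsLat PN)
    (hM : IsMate N PN) (ty : K → Bool) (θ : K) (hθ : ∀ δ, ty (δ + θ) = !(ty δ)) :
    HasJSP (Fintype.card K * (Fintype.card F + 1)) := by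
  obtain ⟨c, hc, h⟩ := exists_c h4 h7
  obtain ⟨P, hP1, hM1⟩ := exists_P h4 h7 H
  exact ⟨Rw F × K, Option F × K, Rw F × K, Rw F × K, inferInstance, inferInstance, inferInstance,
    inferInstance, inferInstance, inferInstance, _, _, _, _, _, _, P, PM c T ty θ PN, card_rwK,
    card_optK, card_rwK, card_rwK, js_field h4 H.kb H.wd hc h ty HN, hP1, hM1,
    isLat_PM H.kb h hθ hP, isMate_PM H.kb h hM⟩

end Pool.Agent.Lib.MP_db622c_co.PU
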