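import Pool.Agent.Lib.MP_db622c_co.PU.KBa

/-!
# PU-G: the boards

`G0 g ν β p q = (0, β (y + y'))` if `x = x'`, else `(g x x', ν (y + y'))`, for `p = (x, y)`,
`q = (x', y')`.
-/

namespace Pool.Agent.Lib.MP_db622c_co.PU

open Pool.Agent.Lib.MP_db622c_co Pool.Agent.Lib.MP_db622c_co.CB Pool.Agent.Lib.MP_db622c_co.PT

variable {J A K : Type} [DecidableEq J] [Zero A] [AddCommGroup K] {sK : K → K → ℤ}
  {T ν β : K → K}

theorem isOF_G0 (H : KB sK T ν β) {g : J → J → A} (hg : IsOF g) : IsOF (G0 g ν β) := by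
  refine ⟨?_, ?_, ?_⟩
  · rintro ⟨x, y⟩ ⟨x', y'⟩ hne h0
    simp only [G0] at h0
    by_cases hx : x = x'
    · rw [if_pos hx] at h0
      have hy : y ≠ y' := fun h => hne (by rw [h, hx])
      have h1 : β (y + y') = 0 := congrArg Prod.snd h0
      rw [← H.β0] at h1
      exact H.ne0 hy (H.βi _ _ h1)
    · rw [if_neg hx] at h0
      exact hg.ne x x' hx (congrArg Prod.fst h0)
  · rintro ⟨x, y⟩ ⟨x', y'⟩
    simp only [G0]
    by_cases hx : x = x'
    · rw [if_pos hx, if_pos hx.symm, add_comm y y']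
    · rw [if_neg hx, if_neg (Ne.symm hx), hg.symm x x', add_comm y y']
  · rintro ⟨x, y⟩ ⟨x1, y1⟩ ⟨x2, y2⟩ h1 h2 h
    simp only [G0] at h
    by_cases hx1 : x = x1
    · by_cases hx2 : x = x2
      · rw [if_pos hx1, if_pos hx2] at h
        have h3 := H.βi _ _ (congrArg Prod.snd h)
        rw [← hx1, ← hx2, add_left_cancel h3]
      · rw [if_pos hx1, if_neg hx2] at h
        exact absurd (congrArg Prod.fst h).symm (hg.ne x x2 hx2)
    · by_cases hx2 : x = x2
      · rw [if_neg hx1, if_pos hx2] at h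
        exact absurd (congrArg Prod.fst h) (hg.ne x x1 hx1)
      · rw [if_neg hx1, if_neg hx2] at h
        have h3 := H.νi _ _ (congrArg Prod.snd h)
        have h4 := hg.inj x x1 x2 (Ne.symm hx1) (Ne.symm hx2) (congrArg Prod.fst h)
        rw [h4, add_left_cancel h3]

theorem diag_G0 (H : KB sK T ν β) (g : J → J → A) (p : J × K) : G0 g ν β p p = 0 := by
  simp only [G0, if_true, H.two, H.β0]
  rfl

theorem split_G0 [Fintype J] (H : KB sK T ν β) {S : A → J → ℤ} (hS : IsH S) {g : J → J → A}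
    (hs : IsSplit S g) : IsSplit (SS S sK) (G0 g ν β) := by
  rintro ⟨x, y⟩ ⟨x', y'⟩ hne
  by_cases hx : x = x'
  · have hy : y ≠ y' := fun h => hne (by rw [h, hx])
    have h2 : y' = y + (y + y') := H.sol rfl
    have h3 : sK (β (y + y')) y' = - sK (β (y + y')) y := by
      have h4 : sK (β (y + y')) (y + (y + y')) = - sK (β (y + y')) y := by
        rw [H.addy, H.βs _ (H.ne0 hy), mul_neg_one]
      rw [← h2] at h4
      exact h4
    simp only [SS, G0, if_pos hx]
    rw [h3, hx, mul_neg]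
  · have h2 : y' = y + (y + y') := H.sol rfl
    have h3 : sK (ν (y + y')) y' = sK (ν (y + y')) y := by
      have h4 : sK (ν (y + y')) (y + (y + y')) = sK (ν (y + y')) y := by
        rw [H.addy, H.νs, mul_one]
      rw [← h2] at h4
      exact h4
    simp only [SS, G0, if_neg hx]
    rw [h3, hs x x' hx, neg_mul]

end Pool.Agent.Lib.MP_db622c_co.PU
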