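import Pool.Agent.Lib.MP_db622c_co.PU.Tab

/-!
# PU-K3: data on the group of order 8
-/

namespace Pool.Agent.Lib.MP_db622c_co.PU.K3

open Pool.Agent.Lib.MP_db622c_co Pool.Agent.Lib.MP_db622c_co.CB Pool.Agent.Lib.MP_db622c_co.PT Pool.Agent.Lib.MP_db622c_co.PU

/-- the signs -/
def sK : XK 3 → XK 3 → ℤ := s2 3 10825640632176912896

/-- the map `T` -/
def T : XK 3 → XK 3 := t1 3 12369168

/-- the map `ν` -/
def nu : XK 3 → XK 3 := t1 3 8019536

/-- the map `β` -/
def be : XK 3 → XK 3 := t1 3 9272648

/-- a one-factorization -/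
def rK : XK 3 → XK 3 → XK 3 := t2 3 433653402755834990787376113285662814833852463439637429520

/-- the map `u` -/
def u (y y' : XK 3) : Bool × XK 3 :=
  (b2 3 8398820420543998976 y y',
    t2 3 432701204021499228754450026332016113796274229412364932080 y y')

/-- the map `w` -/
def w (y y' : XK 3) : Bool × XK 3 :=
  (b2 3 16350501364861646591 y y',
    t2 3 4012747485637185700292269295671917701858674103789282488032 y y')

set_option synthInstance.maxSize 2000 in
theorem kb : KB sK T nu be := by
  constructor <;> decide +kernel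

theorem rof : IsOF rK := by
  constructor <;> decide +kernel

set_option synthInstance.maxSize 2000 in
theorem wd : WD rK u w := by
  refine ⟨rof, ?_, ?_, ?_, ?_, ?_, ?_, ?_, ?_, ?_, ?_, ?_⟩ <;> decide +kernel

end Pool.Agent.Lib.MP_db622c_co.PU.K3
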