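import Pool.Agent.Lib.MP_db622c_co.PU.Tab

/-!
# PU-K4: data on the group of order 16
-/

namespace Pool.Agent.Lib.MP_db622c_co.PU.K4

open Pool.Agent.Lib.MP_db622c_co Pool.Agent.Lib.MP_db622c_co.CB Pool.Agent.Lib.MP_db622c_co.PT Pool.Agent.Lib.MP_db622c_co.PU

/-- the signs -/
def sK : XK 4 → XK 4 → ℤ := s2 4 68112683085349189607634916667876383113467293239074573797481439560616286093312

/-- the map `T` -/
def T : XK 4 → XK 4 := t1 4 16112567834934535200

/-- the map `ν` -/
def nu : XK 4 → XK 4 := t1 4 9460475325918865680

/-- the map `β` -/
def be : XK 4 → XK 4 := t1 4 14659192809856341120

/-- a one-factorization -/
def rK : XK 4 → XK 4 → XK 4 := t2 4 7356054180219639104865697701717203604292311466624432940502668120702635736159746333444679347155343578237490510547758897929562944980681005937174636677505845853343443139623361859813272107652359591725661666491663441844287690772106591928761829432019710118804357404145629462645653070278656775991756629384893727120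

/-- the map `u` -/
def u (y y' : XK 4) : Bool × XK 4 :=
  (b2 4 48202600694784843355507058453091886416701489575085899652121975253004881100798 y y',
    t2 4 7333140214638674643455242337603834337048318119753639969439131545859403551173852393384316200538129663154767084634989549701802623962217428098444095853561811775977670593184080724671168439604042743010204045804201850266996329459116669807859577673122485989682250432788628301838364552298665412031108095374879357520 y y')

/-- the map `w` -/
def w (y y' : XK 4) : Bool × XK 4 :=
  (b2 4 75786953034820928417713949053557985270116593457260891240509171759384119672833 y y',
    t2 4 132163134981502389552006069263768130399368150489082615670173771083676513297803617849756587575976863466070220676354508891213577980732653855380779451110508389562100023828358993499253993718614644041292133707543629625722647809155440037270448047368262397811677458372377433886324612933263480036131720570450881471920 y y')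

set_option synthInstance.maxSize 2000 in
theorem kb : KB sK T nu be := by
  constructor <;> decide +kernel

theorem rof : IsOF rK := by
  constructor <;> decide +kernel

set_option synthInstance.maxSize 2000 in
theorem wd : WD rK u w := by
  refine ⟨rof, ?_, ?_, ?_, ?_, ?_, ?_, ?_, ?_, ?_, ?_, ?_⟩ <;> decide +kernel

end Pool.Agent.Lib.MP_db622c_co.PU.K4
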