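import Pool.Agent.Lib.MP_db622c_co.PU.Defs

/-!
# PU-KBa: consequences of `KB`
-/

namespace Pool.Agent.Lib.MP_db622c_co.PU

open Pool.Agent.Lib.MP_db622c_co Pool.Agent.Lib.MP_db622c_co.CB Pool.Agent.Lib.MP_db622c_co.PT

variable {K : Type} [AddCommGroup K] {sK : K → K → ℤ} {T ν β : K → K}

namespace KB

theorem neg (H : KB sK T ν β) (y : K) : -y = y := neg_eq_of_add_eq_zero_left (H.two y)

/-- `y + (y + δ) = δ` -/
theorem cc (H : KB sK T ν β) (y δ : K) : y + (y + δ) = δ := by
  rw [← add_assoc, H.two, zero_add]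

/-- `y + y' = δ` gives `y' = y + δ` -/
theorem sol (H : KB sK T ν β) {y y' δ : K} (h : y + y' = δ) : y' = y + δ := by
  rw [← h, H.cc]

theorem ne0 (H : KB sK T ν β) {y y' : K} (h : y ≠ y') : y + y' ≠ 0 := by
  intro h0
  apply h
  have h1 := H.sol h0
  rw [add_zero] at h1
  exact h1.symm

theorem eq_of_add (H : KB sK T ν β) {y y' : K} (h : y + y' = 0) : y = y' := by
  by_contra hc
  exact H.ne0 hc h

theorem T0 (H : KB sK T ν β) : T 0 = 0 := by
  have h := H.Tadd 0 0
  rw [H.two, H.two] at h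
  exact h

/-- `T` is injective -/
theorem Ti (H : KB sK T ν β) {y y' : K} (h : T y = T y') : y = y' := by
  apply H.eq_of_add
  apply H.Tz
  rw [H.Tadd, h, H.two]

/-- `1 + T` is injective -/
theorem Ui (H : KB sK T ν β) {y y' : K} (h : y + T y = y' + T y') : y = y' := by
  apply H.eq_of_add
  apply H.Uz
  rw [H.Tadd]
  have h1 : y + y' + (T y + T y') = (y + T y) + (y' + T y') := by abel
  rw [h1, h, H.two]

/-- the label `y + T (y + y')` is injective in `y'` -/
theorem L1 (H : KB sK T ν β) {y y' y'' : K} (h : y + T (y + y') = y + T (y + y'')) : y' = y'' :=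
  add_left_cancel (H.Ti (add_left_cancel h))

/-- the label `y + T (y + y')` in terms of `y'` -/
theorem L2 (H : KB sK T ν β) (y y' : K) : y + T (y + y') = y' + ((y + y') + T (y + y')) := by
  have h := H.cc y' y
  rw [add_comm y' y] at h
  rw [← add_assoc y', h]

/-- the label `y + T (y + y')` is injective in `y` -/
theorem L3 (H : KB sK T ν β) {y y' y'' : K} (h : y + T (y + y'') = y' + T (y' + y'')) :
    y = y' := by
  rw [H.L2, H.L2 y' y''] at h
  exact add_right_cancel (H.Ui (add_left_cancel h))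

theorem one (H : KB sK T ν β) (y : K) : sK 0 y = 1 := by
  have h := H.addk 0 0 y
  rw [H.two] at h
  rcases H.sign 0 y with h1 | h1
  · exact h1
  · rw [h1] at h
    norm_num at h

theorem one' (H : KB sK T ν β) (k : K) : sK k 0 = 1 := by
  have h := H.addy k 0 0
  rw [H.two] at h
  rcases H.sign k 0 with h1 | h1
  · exact h1
  · rw [h1] at h
    norm_num at h

/-- the signs form a Hadamard matrix -/
theorem isH [Fintype K] (H : KB sK T ν β) : IsH sK := by
  refine ⟨H.sign, H.one, ?_⟩
  intro k k' hk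
  have hk0 : k + k' ≠ 0 := H.ne0 hk
  have hb : Function.Surjective β := Finite.surjective_of_injective (fun y y' h => H.βi y y' h)
  obtain ⟨y0, hy0⟩ := hb (k + k')
  have hy1 : y0 ≠ 0 := by
    intro h
    rw [h, H.β0] at hy0
    exact hk0 hy0.symm
  have hs : sK (k + k') y0 = -1 := by
    rw [← hy0]
    exact H.βs y0 hy1
  have e1 : ∀ y, sK k y * sK k' y = sK (k + k') y := fun y => (H.addk k k' y).symm
  rw [Finset.sum_congr rfl (fun y _ => e1 y)]
  have e2 : ∑ y, sK (k + k') y = ∑ y, sK (k + k') (y + y0) :=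
    (Equiv.sum_comp (Equiv.addRight y0) (fun y => sK (k + k') y)).symm
  have e3 : ∑ y, sK (k + k') (y + y0) = - ∑ y, sK (k + k') y := by
    rw [← Finset.sum_neg_distrib]
    refine Finset.sum_congr rfl (fun y _ => ?_)
    rw [H.addy, hs, mul_neg_one]
  rw [e3] at e2
  linarith

end KB

end Pool.Agent.Lib.MP_db622c_co.PU
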