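import Pool.Agent.Lib.MP_db622c_co.PU.KBa

/-!
# PU-MG: squares orthogonal to the boards

* `mate_off`: as the second half of the proof of `isMate_of_Mg` in `PT/TIM.lean` (classes `some a`):
  cells `(∞, y)`: `a = y - x0`, entry `some (a + (x0 - t))`; `(x, ∞)`: `a = x - x0`, entry
  `some (a + (x0 - s))`; `(x, y)`, `d = y - x ≠ 0`: `a = x - τ d`, entry `none` if `d = e`, else
  `some (a + (τ d - z d))`.  Use `H.st`, `H.ns`, `H.nt`, `H.inj` (no `SqOK` is needed as `d ≠ 0`).
* `fst_SqK`: by cases.
* `isMate_G0_SqK`: let `p, q` and `p', q'` have the same entries in both.  If `p.1 = q.1`: the board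
  is `(0, β δ)`, so `p'.1 = q'.1` (`ofV` of two different points is `some _`), the levels agree
  (`HK.βi`), and with `q.2 = p.2 + δ`, `q'.2 = p'.2 + δ` (`HK.sol`): both at `∞`: `H.li`; both finite:
  `H.dk` gives `p.2 = p'.2`, `H.dx` and the first component `p.1 = p'.1`; mixed: `none`, `some`.
  If `p.1 ≠ q.1`: the levels agree (`HK.νi`); `fst_SqK` and `mate_off` give `p.1 = p'.1`,
  `q.1 = q'.1`; then the kinds agree and the labels give `p.2 = p'.2` (`H.l`, `H.ls`, `H.lt`).
-/

namespace Pool.Agent.Lib.MP_db622c_co.PU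

open Pool.Agent.Lib.MP_db622c_co Pool.Agent.Lib.MP_db622c_co.CB Pool.Agent.Lib.MP_db622c_co.PT

variable {V K : Type} [AddCommGroup V] [DecidableEq V] [AddCommGroup K]

private theorem sq_e {z : V → V} {e s t : V} {x y : V} (h : y - x = e) :
    sqV z e s t (some x) (some y) = none := by
  show (if y - x = e then none else some (x - z (y - x)) : Option V) = none
  rw [if_pos h]

private theorem sq_ne {z : V → V} {e s t : V} {x y : V} (h : y - x ≠ e) :
    sqV z e s t (some x) (some y) = some (x - z (y - x)) := by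
  show (if y - x = e then none else some (x - z (y - x)) : Option V) = _
  rw [if_neg h]

private theorem sq_r {z : V → V} {e s t : V} {x : V} :
    sqV z e s t (some x) none = some (x - s) := rfl

private theorem sq_l {z : V → V} {e s t : V} {y : V} :
    sqV z e s t none (some y) = some (y - t) := rfl

private theorem of_fin {x0 : V} {τ : V → V} {x y : V} (h : x ≠ y) :
    ofV x0 τ (some x) (some y) = some (x - τ (y - x)) := by
  show (if x = y then none else some (x - τ (y - x)) : Option V) = _
  rw [if_neg h]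

private theorem of_r {x0 : V} {τ : V → V} {x : V} : ofV x0 τ (some x) none = some (x - x0) := rfl

private theorem of_l {x0 : V} {τ : V → V} {y : V} : ofV x0 τ none (some y) = some (y - x0) := rfl

omit [DecidableEq V] in
private theorem diff {a b c a' b' c' : V} (h : a - b = a' - b') (h' : a - c = a' - c') :
    b - c = b' - c' := by
  have e1 : b - c = (a - c) - (a - b) := by abel
  have e2 : b' - c' = (a' - c') - (a' - b') := by abel
  rw [e1, e2, h, h']

private theorem of_ne {x0 : V} {τ : V → V} {j k : Option V} (h : j ≠ k) :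
    ofV x0 τ j k ≠ none := by
  rcases j with _ | x <;> rcases k with _ | y
  · exact absurd rfl h
  · rw [of_l]; simp
  · rw [of_r]; simp
  · rw [of_fin (fun h' => h (congrArg some h'))]; simp

theorem mate_off {x0 : V} {τ : V → V} {z : V → V} {e s t : V} (H : MgOK x0 τ z e s t)
    (x y x' y' : Option V) (h : x ≠ y) (h' : x' ≠ y')
    (h1 : ofV x0 τ x y = ofV x0 τ x' y') (h2 : sqV z e s t x y = sqV z e s t x' y') :
    x = x' ∧ y = y' := by
  rcases x with _ | x <;> rcases y with _ | y
  · exact absurd rfl h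
  · rcases x' with _ | x' <;> rcases y' with _ | y'
    · exact absurd rfl h'
    · rw [of_l, of_l] at h1
      exact ⟨rfl, by rw [sub_left_inj.1 (Option.some.inj h1)]⟩
    · rw [of_l, of_r] at h1
      rw [sq_l, sq_r] at h2
      exact absurd (sub_right_inj.1 (diff (Option.some.inj h1) (Option.some.inj h2))).symm H.st
    · have h : x' ≠ y' := fun hc => h' (congrArg some hc)
      rw [of_l, of_fin h] at h1
      by_cases he : y' - x' = e
      · rw [sq_l, sq_e he] at h2; exact absurd h2 (by simp)
      · rw [sq_l, sq_ne he] at h2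
        exact absurd (diff (Option.some.inj h1) (Option.some.inj h2)).symm
          (H.nt _ (sub_ne_zero.2 (Ne.symm h)) he)
  · rcases x' with _ | x' <;> rcases y' with _ | y'
    · exact absurd rfl h'
    · rw [of_r, of_l] at h1
      rw [sq_r, sq_l] at h2
      exact absurd (sub_right_inj.1 (diff (Option.some.inj h1) (Option.some.inj h2))) H.st
    · rw [of_r, of_r] at h1
      exact ⟨by rw [sub_left_inj.1 (Option.some.inj h1)], rfl⟩
    · have h : x' ≠ y' := fun hc => h' (congrArg some hc)
      rw [of_r, of_fin h] at h1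
      by_cases he : y' - x' = e
      · rw [sq_r, sq_e he] at h2; exact absurd h2 (by simp)
      · rw [sq_r, sq_ne he] at h2
        exact absurd (diff (Option.some.inj h1) (Option.some.inj h2)).symm
          (H.ns _ (sub_ne_zero.2 (Ne.symm h)) he)
  · have h : x ≠ y := fun hc => h (congrArg some hc)
    have hd := sub_ne_zero.2 (Ne.symm h)
    rcases x' with _ | x' <;> rcases y' with _ | y'
    · exact absurd rfl h'
    · rw [of_fin h, of_l] at h1
      by_cases he : y - x = e
      · rw [sq_l, sq_e he] at h2; exact absurd h2 (by simp)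
      · rw [sq_l, sq_ne he] at h2
        exact absurd (diff (Option.some.inj h1) (Option.some.inj h2)) (H.nt _ hd he)
    · rw [of_fin h, of_r] at h1
      by_cases he : y - x = e
      · rw [sq_r, sq_e he] at h2; exact absurd h2 (by simp)
      · rw [sq_r, sq_ne he] at h2
        exact absurd (diff (Option.some.inj h1) (Option.some.inj h2)) (H.ns _ hd he)
    · have h' : x' ≠ y' := fun hc => h' (congrArg some hc)
      have hd' := sub_ne_zero.2 (Ne.symm h')
      rw [of_fin h, of_fin h'] at h1
      have h3 : y - x = y' - x' := by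
        by_cases he : y - x = e <;> by_cases he' : y' - x' = e
        · rw [he, he']
        · rw [sq_e he, sq_ne he'] at h2; exact absurd h2 (by simp)
        · rw [sq_ne he, sq_e he'] at h2; exact absurd h2 (by simp)
        · rw [sq_ne he, sq_ne he'] at h2
          exact H.inj _ _ hd hd' he he' (diff (Option.some.inj h1) (Option.some.inj h2))
      have h4 := Option.some.inj h1
      rw [h3] at h4
      have h5 := sub_left_inj.1 h4
      refine ⟨by rw [h5], ?_⟩
      rw [h5] at h3
      rw [sub_left_inj.1 h3]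

private theorem SqK_ff {Dx : K → K → V} {Dk Li L Ls Lt : K → K → K} {z : K → V → V}
    {e s t : K → V} {x x' : V} {y y' : K} (h : x ≠ x') :
    SqK Dx Dk Li L Ls Lt z e s t (some x, y) (some x', y')
      = (if x' - x = e (y + y') then none else some (x - z (y + y') (x' - x)), L y y') := by
  show (if x = x' then ((some (x - Dx y y'), Dk y y') : Option V × K)
    else if x' - x = e (y + y') then (none, L y y')
    else (some (x - z (y + y') (x' - x)), L y y')) = _
  rw [if_neg h]
  by_cases he : x' - x = e (y + y')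
  · rw [if_pos he, if_pos he]
  · rw [if_neg he, if_neg he]

private theorem SqK_dd {Dx : K → K → V} {Dk Li L Ls Lt : K → K → K} {z : K → V → V}
    {e s t : K → V} {x : V} {y y' : K} :
    SqK Dx Dk Li L Ls Lt z e s t (some x, y) (some x, y') = (some (x - Dx y y'), Dk y y') := by
  show (if x = x then ((some (x - Dx y y'), Dk y y') : Option V × K)
    else if x - x = e (y + y') then (none, L y y')
    else (some (x - z (y + y') (x - x)), L y y')) = _
  rw [if_pos rfl]

theorem fst_SqK (Dx : K → K → V) (Dk Li L Ls Lt : K → K → K) (z : K → V → V) (e s t : K → V)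
    (p q : Option V × K) (h : p.1 ≠ q.1) :
    (SqK Dx Dk Li L Ls Lt z e s t p q).1
      = sqV (z (p.2 + q.2)) (e (p.2 + q.2)) (s (p.2 + q.2)) (t (p.2 + q.2)) p.1 q.1 := by
  rcases p with ⟨_ | x, y⟩ <;> rcases q with ⟨_ | x', y'⟩
  · exact absurd rfl h
  · rfl
  · rfl
  · have hx : x ≠ x' := fun hc => h (congrArg some hc)
    rw [SqK_ff hx]
    by_cases he : x' - x = e (y + y')
    · rw [if_pos he, sq_e he]
    · rw [if_neg he, sq_ne he]

variable {sK : K → K → ℤ} {T ν β : K → K}

theorem isMate_G0_SqK (HK : KB sK T ν β) {x0 : V} {τ : V → V} {Dx : K → K → V}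
    {Dk Li L Ls Lt : K → K → K} {z : K → V → V} {e s t : K → V}
    (H : GMOK x0 τ Dx Dk Li L Ls Lt z e s t) :
    IsMate (G0 (ofV x0 τ) ν β) (SqK Dx Dk Li L Ls Lt z e s t) := by
  intro p q p' q' hG hS
  by_cases hp : p.1 = q.1 <;> by_cases hp' : p'.1 = q'.1
  · rw [G0, G0, if_pos hp, if_pos hp'] at hG
    have hδ : p.2 + q.2 = p'.2 + q'.2 := HK.βi _ _ (Prod.mk.inj hG).2
    have hq : q.2 = p.2 + (p.2 + q.2) := by
      rw [← add_assoc, HK.two, zero_add]
    have hq' : q'.2 = p'.2 + (p.2 + q.2) := by
      rw [hδ, ← add_assoc, HK.two, zero_add]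
    rcases p with ⟨a, y⟩
    rcases q with ⟨a', y'⟩
    rcases p' with ⟨b, v⟩
    rcases q' with ⟨b', v'⟩
    simp only at hp hp' hδ hq hq'
    subst hp hp'
    generalize hD : y + y' = δ at hδ hq hq'
    subst hq hq'
    rcases a with _ | x <;> rcases b with _ | x'
    · have h1 : y = v := H.li δ y v (Prod.mk.inj hS).2
      rw [h1]
      exact ⟨rfl, rfl⟩
    · rw [SqK_dd] at hS
      exact absurd (Prod.mk.inj hS).1 (by simp)
    · rw [SqK_dd] at hS
      exact absurd (Prod.mk.inj hS).1 (by simp)
    · rw [SqK_dd, SqK_dd] at hS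
      have h1 : y = v := H.dk δ y v (Prod.mk.inj hS).2
      have h2 := Option.some.inj (Prod.mk.inj hS).1
      rw [h1] at h2
      have h3 : x = x' := sub_left_inj.1 h2
      rw [h1, h3]
      exact ⟨rfl, rfl⟩
  · rw [G0, G0, if_pos hp, if_neg hp'] at hG
    exact absurd (Prod.mk.inj hG).1.symm (of_ne hp')
  · rw [G0, G0, if_neg hp, if_pos hp'] at hG
    exact absurd (Prod.mk.inj hG).1 (of_ne hp)
  · rw [G0, G0, if_neg hp, if_neg hp'] at hG
    have hδ : p.2 + q.2 = p'.2 + q'.2 := HK.νi _ _ (Prod.mk.inj hG).2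
    have hf := congrArg Prod.fst hS
    rw [fst_SqK _ _ _ _ _ _ _ _ _ _ p q hp, fst_SqK _ _ _ _ _ _ _ _ _ _ p' q' hp', ← hδ] at hf
    obtain ⟨h1, h2⟩ := mate_off (H.mg (p.2 + q.2)) _ _ _ _ hp hp' (Prod.mk.inj hG).1 hf
    have hq : q.2 = p.2 + (p.2 + q.2) := by
      rw [← add_assoc, HK.two, zero_add]
    have hq' : q'.2 = p'.2 + (p.2 + q.2) := by
      rw [hδ, ← add_assoc, HK.two, zero_add]
    rcases p with ⟨a, y⟩
    rcases q with ⟨a', y'⟩
    rcases p' with ⟨b, v⟩
    rcases q' with ⟨b', v'⟩
    simp only at hp hp' hδ hq hq' h1 h2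
    subst h1 h2
    generalize hD : y + y' = δ at hδ hq hq'
    subst hq hq'
    have hs := congrArg Prod.snd hS
    have h3 : y = v := by
      rcases a with _ | x <;> rcases a' with _ | x'
      · exact absurd rfl hp
      · exact H.lt δ y v hs
      · exact H.ls δ y v hs
      · have hx : x ≠ x' := fun hc => hp (congrArg some hc)
        rw [SqK_ff hx, SqK_ff hx] at hs
        exact H.l δ y v hs
    rw [h3]
    exact ⟨rfl, rfl⟩

end Pool.Agent.Lib.MP_db622c_co.PU
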