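import Pool.Agent.Lib.MP_db622c_co.PU.Fld
import Pool.Agent.Lib.MP_db622c_co.PT.Main

/-!
# PU-Main: the closure theorem
-/

namespace Pool.Agent.Lib.MP_db622c_co.PU

open Pool.Agent.Lib.MP_db622c_co Pool.Agent.Lib.MP_db622c_co.CB Pool.Agent.Lib.MP_db622c_co.PT

/-- the product of the numbers `q + 1` -/
def pr (qs : List ℕ) : ℕ := (qs.map (fun q => q + 1)).prod

theorem pr_cons (q : ℕ) (qs : List ℕ) : pr (q :: qs) = (q + 1) * pr qs := by
  unfold pr
  rw [List.map_cons, List.prod_cons]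

theorem pr_pos (qs : List ℕ) : 0 < pr qs := by
  unfold pr
  apply List.prod_pos
  intro m hm
  obtain ⟨q, _, rfl⟩ := List.mem_map.1 hm
  omega

/-- multiplication by the orders of the list `LF` -/
theorem hasFS_mulP (ps : List ℕ) (hp : ∀ m ∈ ps, m ∈ LF) {n : ℕ} (h : HasFS n) :
    HasFS (ps.prod * n) := by
  induction ps with
  | nil => simpa using h
  | cons m ps ih =>
    have hm := hp m (List.mem_cons_self)
    have h1 := hasFS_mul (LF_two m hm).1 (hasJSP_LF m hm)
      (ih (fun m' h' => hp m' (List.mem_cons_of_mem _ h')))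
    rw [List.prod_cons, mul_assoc]
    exact h1

/-- full structures -/
theorem hasFS_qs (qs : List ℕ) (hq : ∀ q ∈ qs, Good q) (h0 : qs ≠ []) (x : ℕ) (hx : 3 ≤ x)
    (hx6 : x ≠ 6) : HasFS (2 ^ (4 * (qs.length - 1) + x) * pr qs) := by
  induction qs with
  | nil => exact absurd rfl h0
  | cons q qs ih =>
    have hq1 := hq q (List.mem_cons_self)
    have h7 := hq1.2.2
    rcases qs with _ | ⟨q', qs⟩
    · have e1 : 2 ^ (4 * (([q] : List ℕ).length - 1) + x) * pr [q] = 2 ^ x * (q + 1) := by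
        rw [pr_cons]
        simp [pr]
      rw [e1]
      by_cases h5 : x ≤ 5
      · exact hasFS_of x ⟨hx, h5⟩ q hq1
      · obtain ⟨y, rfl⟩ : ∃ y, x = y + 4 := ⟨x - 4, by omega⟩
        have h1 := hasFS_mul (by omega) (hasJSP_sixteen q hq1) (hasFS_two_pow y (by omega))
        have e2 : 2 ^ (y + 4) * (q + 1) = 16 * (q + 1) * 2 ^ y := by
          rw [pow_add]
          ring
        rw [e2]
        exact h1
    · have h1 := hasFS_mul (by omega) (hasJSP_sixteen q hq1)
        (ih (fun r hr => hq r (List.mem_cons_of_mem _ hr)) (List.cons_ne_nil _ _))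
      have e2 : 2 ^ (4 * ((q :: q' :: qs).length - 1) + x) * pr (q :: q' :: qs)
          = 16 * (q + 1) * (2 ^ (4 * ((q' :: qs).length - 1) + x) * pr (q' :: qs)) := by
        rw [pr_cons q]
        have e3 : 4 * ((q :: q' :: qs).length - 1) + x
            = 4 + (4 * ((q' :: qs).length - 1) + x) := by
          simp only [List.length_cons]
          omega
        rw [e3, pow_add]
        ring
      rw [e2]
      exact h1

private theorem four_dvd (e m : ℕ) (he : 2 ≤ e) : (2 ^ e * m) % 4 = 0 := by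
  have h1 : 4 ∣ 2 ^ e := by
    have : (4 : ℕ) = 2 ^ 2 := by norm_num
    rw [this]
    exact pow_dvd_pow 2 he
  exact Nat.mod_eq_zero_of_dvd (Dvd.dvd.mul_right h1 _)

private theorem lf_pos (ps : List ℕ) (hp : ∀ m ∈ ps, m ∈ LF) : 0 < ps.prod := by
  apply List.prod_pos
  intro m hm
  have := (LF_two m (hp m hm)).1
  omega

/-- **the closure theorem** -/
theorem hasCBHR_qs (qs : List ℕ) (hq : ∀ q ∈ qs, Good q) (ps : List ℕ)
    (hp : ∀ m ∈ ps, m ∈ LF) (h2 : 2 ≤ qs.length) (e : ℕ) (he : 4 * qs.length ≤ e + 5) :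
    HasCBHR (2 ^ e * pr qs * ps.prod) := by
  rcases qs with _ | ⟨q, qs⟩
  · exact absurd h2 (by norm_num)
  · have hq1 := hq q (List.mem_cons_self)
    have h7 := hq1.2.2
    have hqs : qs ≠ [] := by
      rintro rfl
      exact absurd h2 (by norm_num)
    have hl : 1 ≤ qs.length := by
      rcases qs with _ | ⟨_, _⟩
      · exact absurd rfl hqs
      · simp
    rw [List.length_cons] at he
    have hQ : ∀ r ∈ qs, Good r := fun r hr => hq r (List.mem_cons_of_mem _ hr)
    obtain ⟨x, rfl⟩ : ∃ x, e = 4 * (qs.length - 1) + x := ⟨e - 4 * (qs.length - 1), by omega⟩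
    have hx : 3 ≤ x := by omega
    refine hasCBHR_of_hasPD _ ?_ ?_ ?_
    · exact Nat.mul_pos (Nat.mul_pos (by positivity) (pr_pos _)) (lf_pos ps hp)
    · rw [mul_assoc]
      exact four_dvd _ _ (by omega)
    · by_cases h6 : x = 6
      · subst h6
        have h1 := hasPD_mul (by omega) (hasJS_eight q hq1)
          (hasFS_mulP ps hp (hasFS_qs qs hQ hqs 3 le_rfl (by norm_num)))
        have e2 : 2 ^ (4 * (qs.length - 1) + 6) * pr (q :: qs) * ps.prod
            = 8 * (q + 1) * (ps.prod * (2 ^ (4 * (qs.length - 1) + 3) * pr qs)) := by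
          rw [pr_cons]
          have e3 : 4 * (qs.length - 1) + 6 = 3 + (4 * (qs.length - 1) + 3) := by omega
          rw [e3, pow_add]
          ring
        rw [e2]
        exact h1
      · have h1 := hasPD_mul (by omega) (hasJS_paley q hq1.1 hq1.2.1 hq1.2.2)
          (hasFS_mulP ps hp (hasFS_qs qs hQ hqs x hx h6))
        have e2 : 2 ^ (4 * (qs.length - 1) + x) * pr (q :: qs) * ps.prod
            = (q + 1) * (ps.prod * (2 ^ (4 * (qs.length - 1) + x) * pr qs)) := by
          rw [pr_cons]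
          ring
        rw [e2]
        exact h1

/-- admissible exponents: `k` prime powers, `ne`: there are factors from the list `LF` -/
def Adm (k e : ℕ) (ne : Prop) : Prop :=
  (2 ≤ k ∧ 4 * k ≤ e + 5) ∨ (k ≤ 1 ∧ (3 ≤ e ∨ (e = 0 ∧ ne)))

theorem hasCBHR_all (qs : List ℕ) (hq : ∀ q ∈ qs, Good q) (ps : List ℕ)
    (hp : ∀ m ∈ ps, m ∈ LF) (e : ℕ) (he : Adm qs.length e (ps ≠ [])) :
    HasCBHR (2 ^ e * pr qs * ps.prod) := by
  rcases he with he | he
  · exact hasCBHR_qs qs hq ps hp he.1 e he.2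
  · rcases qs with _ | ⟨q, qs⟩
    · have h := hasCBHR_list ps hp e he.2
      have e1 : 2 ^ e * pr [] * ps.prod = 2 ^ e * ps.prod := by simp [pr]
      rw [e1]
      exact h
    · have h0 : qs = [] := by
        have h1 := he.1
        rw [List.length_cons] at h1
        exact List.length_eq_zero_iff.1 (by omega)
      subst h0
      have hq1 := hq q (List.mem_cons_self)
      have h := hasCBHR_paley_list q hq1.1 hq1.2.1 hq1.2.2 ps hp e he.2
      have e1 : 2 ^ e * pr [q] * ps.prod = (q + 1) * (2 ^ e * ps.prod) := by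
        rw [pr_cons]
        simp only [pr, List.map_nil, List.prod_nil]
        ring
      rw [e1]
      exact h

/-- infinitely many of the orders are not of the form `2 ^ j * (q' + 1)` -/
theorem exists_new_all (qs : List ℕ) (ps : List ℕ) (hp : ∀ m ∈ ps, m ∈ LF) (e : ℕ)
    (hs : ∃ s : ℕ, s.Prime ∧ s ≠ 2 ∧ s ∣ 2 ^ e * pr qs * ps.prod) (B : ℕ) :
    ∃ q : ℕ, B < q ∧ q.Prime ∧ q % 4 = 3 ∧ ∀ j q' : ℕ, IsPrimePow q' → q' % 2 = 1 →
      (q + 1) * (2 ^ e * pr qs * ps.prod) ≠ 2 ^ j * (q' + 1) := by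
  obtain ⟨s, hs1, hs2, hs3⟩ := hs
  exact exists_prime_new _ s
    (Nat.mul_pos (Nat.mul_pos (by positivity) (pr_pos _)) (lf_pos ps hp)) hs1 hs2 hs3 B

end Pool.Agent.Lib.MP_db622c_co.PU
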