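import Pool.Agent.Lib.MP_db622c_co.PU.KBa

/-!
# PU-PMd: definitions
-/

namespace Pool.Agent.Lib.MP_db622c_co.PU

open Pool.Agent.Lib.MP_db622c_co Pool.Agent.Lib.MP_db622c_co.CB Pool.Agent.Lib.MP_db622c_co.PT

variable {F : Type} [Field F]

/-- `ρ` -/
def mR (c : F) (b : Bool) : F := if b then c * c else c

/-- `α` -/
def mA (c : F) (b : Bool) : F := if b then 1 / (c - 1) else (c + 1) / (c * (c - 1))

/-- `e` -/
def mE (c : F) (b : Bool) : F := if b then (c * c - 1) / c else c * (c - 1)

/-- `s` -/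
def mS (c : F) (b : Bool) : F := if b then c + 1 else (c + 1) / c

/-- `t` -/
def mT (c : F) (b : Bool) : F := if b then c * c + 1 else c + 1

/-- the conditions on `c` -/
structure COK (c : F) : Prop where
  c0 : c ≠ 0
  c1 : c - 1 ≠ 0
  c2 : c + 1 ≠ 0
  c3 : c * c + 1 ≠ 0

variable {K : Type} [AddCommGroup K] {sK : K → K → ℤ} {T ν β : K → K}

/-- the square orthogonal to the square of a left factor -/
def PM [DecidableEq F] (c : F) (T : K → K) (ty : K → Bool) (θ : K) (PN : K → K → K) :
    Option F × K → Option F × K → Rw F × K :=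
  SqK (fun _ _ => 0) PN PN (fun y y' => y + T (y + y')) (fun y y' => y + T (y + y' + θ))
    (fun y y' => y + T (y + y') + (θ + T θ)) (fun δ d => mA c (ty δ) * d) (fun δ => mE c (ty δ))
    (fun δ => mS c (ty δ)) (fun δ => mT c (ty δ))

end Pool.Agent.Lib.MP_db622c_co.PU
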