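import Pool.Agent.Lib.MP_db622c_co.PU.KBa

/-!
# PU-Sq: the squares `SqK`

* `row_SqK`: row `(none, y)`: the entries `(none, Li y y')` (`H.li`) and
  `(some (x' - t δ), Lt y y')`: `H.lt` gives `y'`, then `x'`.
  Row `(some x, y)`, kinds of columns: (s) `(none, y')`, (d) `(some x, y')`, (e) `x' - x = e δ`,
  (m) the rest.  e-e: `H.l` gives `y'`, then `x' = x + e δ`; e and another kind: `none`, `some`.
  s-s: `H.ss`; d-d: `H.dd`; d-s: `H.ds`; m-m: the labels give `y'` (`H.l`), then `H.zi`; m-d: `H.md`;
  m-s: `H.ms` (`d = x' - x`).
* `SqK_swap`: by cases; for finite points `x - z δ (x' - x)` with exchanged roles is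
  `x' - z δ (x - x') = x - (z δ (-(x' - x)) - (x' - x))`.
* `isLat_SqK`: rows: `row_SqK`; columns: `SqK_swap` and `row_SqK` for the exchanged data.
-/

namespace Pool.Agent.Lib.MP_db622c_co.PU

open Pool.Agent.Lib.MP_db622c_co Pool.Agent.Lib.MP_db622c_co.CB Pool.Agent.Lib.MP_db622c_co.PT

variable {V K : Type} [AddCommGroup V] [DecidableEq V] [AddCommGroup K]
  {Dx : K → K → V} {Dk Li L Ls Lt : K → K → K} {z : K → V → V} {e s t : K → V}

theorem row_SqK (H : RowOK Dx Dk Li L Ls Lt z e s t) (p q q' : Option V × K)
    (h : SqK Dx Dk Li L Ls Lt z e s t p q = SqK Dx Dk Li L Ls Lt z e s t p q') : q = q' := by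
  obtain ⟨p1, y⟩ := p
  obtain ⟨q1, y'⟩ := q
  obtain ⟨r1, y''⟩ := q'
  have nos : ∀ a : V, (none : Option V) = some a → False := fun a ha => by cases ha
  rcases p1 with _ | x
  · rcases q1 with _ | x'
    · rcases r1 with _ | x''
      · have h2 : Li y y' = Li y y'' := congrArg Prod.snd h
        rw [H.li y y' y'' h2]
      · exact (nos _ (congrArg Prod.fst h)).elim
    · rcases r1 with _ | x''
      · exact (nos _ (congrArg Prod.fst h).symm).elim
      · have h2 : Lt y y' = Lt y y'' := congrArg Prod.snd h
        have h2 := H.lt y y' y'' h2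
        subst h2
        have h1 : x' - t (y + y') = x'' - t (y + y') := Option.some.inj (congrArg Prod.fst h)
        have : x' = x'' := by simpa using h1
        rw [this]
  · have key1 : ∀ a b : V, ∀ k k' : K, ((some (x - a) : Option V), k) = (some (x - b), k') →
        a = b := fun a b k k' hab => by
      have := Option.some.inj (congrArg Prod.fst hab)
      simpa using this
    have key2 : ∀ a b : Option V, ∀ k k' : K, (a, k) = (b, k') → k = k' :=
      fun a b k k' hab => congrArg Prod.snd hab
    have key3 : ∀ a : V, ∀ k k' : K, ((none : Option V), k) = (some a, k') → False :=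
      fun a k k' hab => nos _ (congrArg Prod.fst hab)
    rcases q1 with _ | x'
    · rcases r1 with _ | x''
      · rw [H.ss y y' y'' (key1 _ _ _ _ h) (key2 _ _ _ _ h)]
      · simp only [SqK] at h
        split_ifs at h with h1 h2
        · exact absurd (key2 _ _ _ _ h).symm (H.ds y y'' y' (key1 _ _ _ _ h).symm)
        · exact (key3 _ _ _ h.symm).elim
        · exact absurd (key1 _ _ _ _ h).symm
            (H.ms y y'' y' (x'' - x) (fun h0 => h1 (sub_eq_zero.mp h0).symm) h2
              (key2 _ _ _ _ h).symm)
    · rcases r1 with _ | x''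
      · simp only [SqK] at h
        split_ifs at h with h1 h2
        · exact absurd (key2 _ _ _ _ h) (H.ds y y' y'' (key1 _ _ _ _ h))
        · exact (key3 _ _ _ h).elim
        · exact absurd (key1 _ _ _ _ h)
            (H.ms y y' y'' (x' - x) (fun h0 => h1 (sub_eq_zero.mp h0).symm) h2
              (key2 _ _ _ _ h))
      · by_cases h1 : x = x'
        · by_cases h2 : x = x''
          · simp only [SqK, if_pos h1, if_pos h2] at h
            rw [← h1, ← h2, H.dd y y' y'' (key1 _ _ _ _ h) (key2 _ _ _ _ h)]
          · by_cases h3 : x'' - x = e (y + y'')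
            · simp only [SqK, if_pos h1, if_neg h2, if_pos h3] at h
              exact (key3 _ _ _ h.symm).elim
            · simp only [SqK, if_pos h1, if_neg h2, if_neg h3] at h
              exact absurd (key1 _ _ _ _ h).symm
                (H.md y y'' y' (x'' - x) (fun h0 => h2 (sub_eq_zero.mp h0).symm) h3
                  (key2 _ _ _ _ h).symm)
        · by_cases h2 : x = x''
          · by_cases h3 : x' - x = e (y + y')
            · simp only [SqK, if_neg h1, if_pos h2, if_pos h3] at h
              exact (key3 _ _ _ h).elim
            · simp only [SqK, if_neg h1, if_pos h2, if_neg h3] at h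
              exact absurd (key1 _ _ _ _ h)
                (H.md y y' y'' (x' - x) (fun h0 => h1 (sub_eq_zero.mp h0).symm) h3
                  (key2 _ _ _ _ h))
          · by_cases h3 : x' - x = e (y + y')
            · by_cases h4 : x'' - x = e (y + y'')
              · simp only [SqK, if_neg h1, if_neg h2, if_pos h3, if_pos h4] at h
                have h5 := H.l y y' y'' (key2 _ _ _ _ h)
                subst h5
                have : x' = x'' := sub_left_injective (h3.trans h4.symm)
                rw [this]
              · simp only [SqK, if_neg h1, if_neg h2, if_pos h3, if_neg h4] at h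
                exact (key3 _ _ _ h).elim
            · by_cases h4 : x'' - x = e (y + y'')
              · simp only [SqK, if_neg h1, if_neg h2, if_neg h3, if_pos h4] at h
                exact (key3 _ _ _ h.symm).elim
              · simp only [SqK, if_neg h1, if_neg h2, if_neg h3, if_neg h4] at h
                have h5 := H.l y y' y'' (key2 _ _ _ _ h)
                subst h5
                have h6 := H.zi (y + y') (x' - x) (x'' - x)
                  (fun h0 => h1 (sub_eq_zero.mp h0).symm)
                  (fun h0 => h2 (sub_eq_zero.mp h0).symm) h3 h4 (key1 _ _ _ _ h)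
                have : x' = x'' := sub_left_injective h6
                rw [this]

variable (Dx Dk Li L Ls Lt z e s t) in
theorem SqK_swap (p q : Option V × K) :
    SqK Dx Dk Li L Ls Lt z e s t q p
      = SqK (fun y y' => Dx y' y) (fun y y' => Dk y' y) (fun y y' => Li y' y)
        (fun y y' => L y' y) (fun y y' => Lt y' y) (fun y y' => Ls y' y)
        (fun δ d => z δ (-d) - d) (fun δ => - e δ) t s p q := by
  obtain ⟨p1, y⟩ := p
  obtain ⟨q1, y'⟩ := q
  have hc : y' + y = y + y' := add_comm _ _
  rcases p1 with _ | x
  · rcases q1 with _ | x'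
    · rfl
    · simp only [SqK, hc]
  · rcases q1 with _ | x'
    · simp only [SqK, hc]
    · by_cases h1 : x = x'
      · subst h1
        simp only [SqK, if_true]
      · have h1' : ¬ x' = x := fun h0 => h1 h0.symm
        by_cases h2 : x - x' = e (y + y')
        · have h3 : x' - x = - e (y + y') := by rw [← h2]; abel
          simp only [SqK, hc, if_neg h1, if_neg h1', if_pos h2, if_pos h3]
        · have h3 : ¬ x' - x = - e (y + y') := fun h0 => h2 (by
            have : x - x' = - (x' - x) := by abel
            rw [this, h0, neg_neg])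
          simp only [SqK, hc, if_neg h1, if_neg h1', if_neg h2, if_neg h3]
          have h4 : -(x' - x) = x - x' := by abel
          have h5 : x' - z (y + y') (x - x') = x - (z (y + y') (-(x' - x)) - (x' - x)) := by
            rw [h4]; abel
          rw [h5]

theorem isLat_SqK (H : RowOK Dx Dk Li L Ls Lt z e s t)
    (H' : RowOK (fun y y' => Dx y' y) (fun y y' => Dk y' y) (fun y y' => Li y' y)
      (fun y y' => L y' y) (fun y y' => Lt y' y) (fun y y' => Ls y' y)
      (fun δ d => z δ (-d) - d) (fun δ => - e δ) t s) :
    IsLat (SqK Dx Dk Li L Ls Lt z e s t) := by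
  refine ⟨fun p q q' h => row_SqK H p q q' h, fun p p' q h => ?_⟩
  rw [SqK_swap, SqK_swap Dx Dk Li L Ls Lt z e s t q p'] at h
  exact row_SqK H' q p p' h

end Pool.Agent.Lib.MP_db622c_co.PU
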