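import Pool.Agent.Lib.MP_db622c_co.PU.Defs

/-!
# PU-Tab: tables
-/

namespace Pool.Agent.Lib.MP_db622c_co.PU

/-- a function on `XK r` by its table (base `2 ^ r`) -/
def t1 (r N : ℕ) (y : XK r) : XK r := ⟨(N >>> (r * y.val)) % 2 ^ r, Nat.mod_lt _ (Nat.two_pow_pos r)⟩

/-- a function on pairs by its table (base `2 ^ r`) -/
def t2 (r N : ℕ) (y y' : XK r) : XK r :=
  ⟨(N >>> (r * (2 ^ r * y.val + y'.val))) % 2 ^ r, Nat.mod_lt _ (Nat.two_pow_pos r)⟩

/-- a Boolean function on pairs by its table -/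
def b2 (r N : ℕ) (y y' : XK r) : Bool := (N >>> (2 ^ r * y.val + y'.val)) % 2 == 1

/-- signs by a table -/
def s2 (r N : ℕ) (k y : XK r) : ℤ := if b2 r N k y then -1 else 1

/-- codes by a table (base `8`) -/
def c1 (n r N : ℕ) [NeZero n] (y : XK r) : Fin n :=
  ⟨((N >>> (3 * y.val)) % 8) % n, Nat.mod_lt _ (Nat.pos_of_neZero n)⟩

end Pool.Agent.Lib.MP_db622c_co.PU
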